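import Pool.Agent.Lib.MP_a49afe_co.Surface

/-!
# Areas of discs, half-discs and quadrants, and of small pieces of the cube surface
-/

open MeasureTheory Measure Metric Set
open scoped MeasureTheory ENNReal

namespace Pool.Agent.Lib.MP_a49afe_co

lemma volume_line (i : Fin 2) (c : ℝ) : volume {z : Plane | z i = c} = 0 := by
  have h : {z : Plane | z i = c} = (@WithLp.ofLp 2 (Fin 2 → ℝ)) ⁻¹' {f | f i = c} := rfl
  rw [h, (PiLp.volume_preserving_ofLp (Fin 2)).measure_preimage]
  · rw [volume_pi]
    exact Measure.pi_hyperplane (α := fun _ : Fin 2 => ℝ) (fun _ => volume) i c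
  · apply MeasurableSet.nullMeasurableSet
    exact measurableSet_eq_fun (measurable_pi_apply i) measurable_const

lemma volume_box (a b c d : ℝ) :
    volume {z : Plane | a ≤ z 0 ∧ z 0 ≤ b ∧ c ≤ z 1 ∧ z 1 ≤ d} =
      ENNReal.ofReal (b - a) * ENNReal.ofReal (d - c) := by
  have h : {z : Plane | a ≤ z 0 ∧ z 0 ≤ b ∧ c ≤ z 1 ∧ z 1 ≤ d} =
      (@WithLp.ofLp 2 (Fin 2 → ℝ)) ⁻¹' (Icc ![a, c] ![b, d]) := by
    ext z
    simp only [mem_ofPred_eq, mem_preimage, mem_Icc, Pi.le_def, Fin.forall_fin_two,
      Matrix.cons_val_zero, Matrix.cons_val_one]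
    tauto
  rw [h, (PiLp.volume_preserving_ofLp (Fin 2)).measure_preimage
    measurableSet_Icc.nullMeasurableSet, Real.volume_Icc_pi]
  simp [Fin.prod_univ_two]

/-- Reflection of the plane in the line `z i = c`. -/
noncomputable def refl (i : Fin 2) (c : ℝ) (z : Plane) : Plane :=
  z + (2 * (c - z i)) • EuclideanSpace.single i (1 : ℝ)

lemma refl_same (i : Fin 2) (c : ℝ) (z : Plane) : refl i c z i = 2 * c - z i := by
  simp [refl]; ring

lemma refl_other {i j : Fin 2} (hij : j ≠ i) (c : ℝ) (z : Plane) : refl i c z j = z j := by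
  simp [refl, hij]

lemma refl_refl (i : Fin 2) (c : ℝ) (z : Plane) : refl i c (refl i c z) = z := by
  ext j
  by_cases h : j = i
  · subst h; rw [refl_same, refl_same]; ring
  · rw [refl_other h, refl_other h]

lemma refl_isoOn (i : Fin 2) (c : ℝ) (S : Set Plane) : IsoOn (refl i c) S := by
  intro x _ y _
  apply dist_eq_of_sq
  rw [dist_sq_plane, dist_sq_plane]
  fin_cases i
  · have h : (1 : Fin 2) ≠ 0 := by decide
    simp only [Fin.zero_eta, refl_same, refl_other h]
    ring
  · have h : (0 : Fin 2) ≠ 1 := by decide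
    simp only [Fin.mk_one, refl_same, refl_other h]
    ring

lemma IsoOn.volume_image {f : Plane → Plane} {S : Set Plane} (h : IsoOn f S) :
    volume (f '' S) = volume S := by
  have := h.measure_image
  rwa [EuclideanSpace.euclideanHausdorffMeasure_eq_volume] at this

lemma measurableSet_gt (i : Fin 2) (c : ℝ) : MeasurableSet {z : Plane | c < z i} := by
  have hc : Continuous (fun x : Plane => x i) := by fun_prop
  exact (isOpen_lt continuous_const hc).measurableSet

lemma measurableSet_ge (i : Fin 2) (c : ℝ) : MeasurableSet {z : Plane | c ≤ z i} := by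
  have hc : Continuous (fun x : Plane => x i) := by fun_prop
  exact (isClosed_le continuous_const hc).measurableSet

/-- The four half-space pieces of a set symmetric about a coordinate line have half its area. -/
lemma half_measure {S : Set Plane} (i : Fin 2) (c : ℝ)
    (hsym : ∀ z ∈ S, refl i c z ∈ S) :
    2 * volume (S ∩ {z | c < z i}) = volume S ∧ 2 * volume (S ∩ {z | c ≤ z i}) = volume S ∧
    2 * volume (S ∩ {z | z i < c}) = volume S ∧ 2 * volume (S ∩ {z | z i ≤ c}) = volume S := by
  have h1 : volume (S ∩ {z | z i < c}) = volume (S ∩ {z | c < z i}) := by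
    rw [← (refl_isoOn i c (S ∩ {z | z i < c})).volume_image]
    congr 1
    ext z
    constructor
    · rintro ⟨w, ⟨hw, hwi⟩, rfl⟩
      refine ⟨hsym w hw, ?_⟩
      have : w i < c := hwi
      rw [mem_ofPred_eq, refl_same]
      linarith
    · rintro ⟨hz, hzi⟩
      refine ⟨refl i c z, ⟨hsym z hz, ?_⟩, refl_refl i c z⟩
      have : c < z i := hzi
      rw [mem_ofPred_eq, refl_same]
      linarith
  have h2 : volume (S ∩ {z | c < z i}) = volume (S ∩ {z | c ≤ z i}) := by
    apply le_antisymm
    · exact measure_mono (inter_subset_inter_right _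
        (fun z (hz : c < z i) => (show c ≤ z i from le_of_lt hz)))
    · have : S ∩ {z | c ≤ z i} ⊆ (S ∩ {z | c < z i}) ∪ {z | z i = c} := by
        rintro z ⟨hz, hzi⟩
        rcases eq_or_lt_of_le (show c ≤ z i from hzi) with h | h
        · right; exact h.symm
        · left; exact ⟨hz, h⟩
      calc volume (S ∩ {z | c ≤ z i}) ≤ volume ((S ∩ {z | c < z i}) ∪ {z | z i = c}) :=
            measure_mono this
        _ ≤ volume (S ∩ {z | c < z i}) + volume {z : Plane | z i = c} := measure_union_le _ _
        _ = volume (S ∩ {z | c < z i}) := by rw [volume_line, add_zero]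
  have h3 : volume (S ∩ {z | z i < c}) = volume (S ∩ {z | z i ≤ c}) := by
    apply le_antisymm
    · exact measure_mono (inter_subset_inter_right _
        (fun z (hz : z i < c) => (show z i ≤ c from le_of_lt hz)))
    · have : S ∩ {z | z i ≤ c} ⊆ (S ∩ {z | z i < c}) ∪ {z | z i = c} := by
        rintro z ⟨hz, hzi⟩
        rcases eq_or_lt_of_le (show z i ≤ c from hzi) with h | h
        · right; exact h
        · left; exact ⟨hz, h⟩
      calc volume (S ∩ {z | z i ≤ c}) ≤ volume ((S ∩ {z | z i < c}) ∪ {z | z i = c}) :=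
            measure_mono this
        _ ≤ volume (S ∩ {z | z i < c}) + volume {z : Plane | z i = c} := measure_union_le _ _
        _ = volume (S ∩ {z | z i < c}) := by rw [volume_line, add_zero]
  have h4 : volume (S ∩ {z | c < z i}) + volume (S ∩ {z | z i ≤ c}) = volume S := by
    have := measure_inter_add_sdiff (μ := volume) S (measurableSet_gt i c)
    rw [← this]
    congr 2
    ext z
    simp [not_lt]
  have h5 : volume (S ∩ {z | c < z i}) + volume (S ∩ {z | c < z i}) = volume S := by
    rw [← h3, h1] at h4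
    exact h4
  refine ⟨?_, ?_, ?_, ?_⟩
  · rw [two_mul, h5]
  · rw [two_mul, ← h2, h5]
  · rw [two_mul, h1, h5]
  · rw [two_mul, ← h3, h1, h5]

/-- Area of a disc of radius `r`. -/
noncomputable def D (r : ℝ) : ℝ≥0∞ := volume (closedBall (0 : Plane) r)

lemma volume_closedBall_eq (x : Plane) (r : ℝ) : volume (closedBall x r) = D r := by
  rw [D, Measure.addHaar_closedBall_center]

lemma D_ne_top (r : ℝ) : D r ≠ ⊤ := measure_closedBall_lt_top.ne

lemma D_pos {r : ℝ} (hr : 0 < r) : 0 < D r := measure_closedBall_pos _ _ hr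

lemma refl_mem_closedBall {x : Plane} {r : ℝ} (i : Fin 2) {z : Plane} (hz : z ∈ closedBall x r) :
    refl i (x i) z ∈ closedBall x r := by
  have h : refl i (x i) x = x := by
    ext j
    by_cases h : j = i
    · subst h; rw [refl_same]; ring
    · rw [refl_other h]
  rw [mem_closedBall] at *
  have := refl_isoOn i (x i) univ z (mem_univ _) x (mem_univ _)
  rw [h] at this
  rw [this]
  exact hz

lemma half_disc (x : Plane) (r : ℝ) (i : Fin 2) :
    2 * volume (closedBall x r ∩ {z | x i ≤ z i}) = D r ∧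
    2 * volume (closedBall x r ∩ {z | z i ≤ x i}) = D r := by
  have h := half_measure (S := closedBall x r) i (x i) (fun z hz => refl_mem_closedBall i hz)
  rw [volume_closedBall_eq] at h
  exact ⟨h.2.1, h.2.2.2⟩

/-- Closed quadrant of a disc. -/
def K (r : ℝ) : Set Plane := closedBall 0 r ∩ {z | 0 ≤ z 0} ∩ {z | 0 ≤ z 1}

/-- Open quadrant of a disc. -/
def K' (r : ℝ) : Set Plane := closedBall 0 r ∩ {z | 0 < z 0} ∩ {z | 0 < z 1}

lemma four_K (r : ℝ) : 4 * volume (K r) = D r := by
  have h1 := (half_disc 0 r 0).1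
  have h2 := (half_measure (S := closedBall (0 : Plane) r ∩ {z | 0 ≤ z 0}) 1 0 (by
    rintro z ⟨hz, hz0⟩
    refine ⟨refl_mem_closedBall 1 hz, ?_⟩
    rw [mem_ofPred_eq, refl_other (by decide)]
    exact hz0)).2.1
  have h3 : volume (closedBall (0 : Plane) r ∩ {z | (0 : Plane) 0 ≤ z 0}) =
    volume (closedBall (0 : Plane) r ∩ {z | 0 ≤ z 0}) := by simp
  rw [h3, ← h2] at h1
  rw [← h1, ← mul_assoc]
  norm_num [K]

lemma four_K' (r : ℝ) : 4 * volume (K' r) = D r := by
  have h1 := (half_measure (S := closedBall (0 : Plane) r) 0 0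
    (fun z hz => by simpa using refl_mem_closedBall (x := 0) 0 hz)).1
  have h2 := (half_measure (S := closedBall (0 : Plane) r ∩ {z | 0 < z 0}) 1 0 (by
    rintro z ⟨hz, hz0⟩
    refine ⟨by simpa using refl_mem_closedBall (x := 0) 1 hz, ?_⟩
    rw [mem_ofPred_eq, refl_other (by decide)]
    exact hz0)).1
  rw [volume_closedBall_eq, ← h2] at h1
  rw [← h1, ← mul_assoc]
  norm_num [K']

end Pool.Agent.Lib.MP_a49afe_co
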