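import Pool.Agent.Lib.MP_a49afe_co.Defs

/-!
# Piecewise isometries: measure and Lipschitz lemmas
-/

open MeasureTheory Measure Metric Set
open scoped MeasureTheory ENNReal

namespace Pool.Agent.Lib.MP_a49afe_co

/-- `f` preserves distances on `S`. -/
def IsoOn {X Y : Type*} [PseudoMetricSpace X] [PseudoMetricSpace Y] (f : X → Y) (S : Set X) :
    Prop :=
  ∀ x ∈ S, ∀ y ∈ S, dist (f x) (f y) = dist x y

section general

variable {X Y : Type*} [MetricSpace X] [MetricSpace Y]

lemma IsoOn.mono {f : X → Y} {S T : Set X} (h : IsoOn f T) (hST : S ⊆ T) : IsoOn f S :=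
  fun x hx y hy => h x (hST hx) y (hST hy)

lemma IsoOn.injOn {f : X → Y} {S : Set X} (h : IsoOn f S) : InjOn f S := by
  intro x hx y hy hxy
  have := h x hx y hy
  rw [hxy, dist_self] at this
  exact dist_eq_zero.1 this.symm

lemma IsoOn.lipschitz {f : X → Y} {S : Set X} (h : IsoOn f S) : LipschitzOnWith 1 f S := by
  apply LipschitzOnWith.of_dist_le_mul
  intro x hx y hy
  rw [h x hx y hy]
  simp

lemma IsoOn.continuousOn {f : X → Y} {S : Set X} (h : IsoOn f S) : ContinuousOn f S :=
  h.lipschitz.continuousOn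

variable [MeasurableSpace X] [BorelSpace X] [MeasurableSpace Y] [BorelSpace Y]

lemma IsoOn.measure_image {f : X → Y} {S : Set X} (h : IsoOn f S) :
    μHE[2] (f '' S) = μHE[2] S := by
  have h1 : Isometry (fun x : S => f x) :=
    Isometry.of_dist_eq (fun x y => h x x.2 y y.2)
  have h2 : Isometry (Subtype.val : S → X) := isometry_subtype_coe
  have h3 := h1.euclideanHausdorffMeasure_image (d := 2) univ
  have h4 := h2.euclideanHausdorffMeasure_image (d := 2) univ
  have h5 : (fun x : S => f x) '' univ = f '' S := by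
    ext y
    simp
  have h6 : (Subtype.val : S → X) '' univ = S := by simp
  rw [h5] at h3
  rw [h6] at h4
  rw [h3, ← h4]

/-- A piecewise isometry does not increase area. -/
lemma pw_measure_le {f : X → Y} {𝒯 : Set (Set X)} (hfin : 𝒯.Finite)
    (hmeas : ∀ T ∈ 𝒯, MeasurableSet T) {A : Set X} (hA : A ⊆ ⋃₀ 𝒯)
    (hiso : ∀ T ∈ 𝒯, IsoOn f (T ∩ A)) :
    μHE[2] (f '' A) ≤ μHE[2] A := by
  induction 𝒯, hfin using Set.Finite.induction_on generalizing A with
  | empty =>
    have : A = ∅ := by simpa using hA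
    subst this
    simp
  | @insert T 𝒯' _ _ ih =>
    have hT : MeasurableSet T := hmeas T (mem_insert _ _)
    have h1 : f '' A ⊆ f '' (A ∩ T) ∪ f '' (A \ T) := by
      rw [← image_union, inter_union_sdiff]
    have h2 : μHE[2] (f '' (A ∩ T)) = μHE[2] (A ∩ T) :=
      IsoOn.measure_image ((hiso T (mem_insert _ _)).mono (by rw [inter_comm]))
    have h3 : μHE[2] (f '' (A \ T)) ≤ μHE[2] (A \ T) := by
      apply ih (fun T' hT' => hmeas T' (mem_insert_of_mem _ hT'))
      · intro x hx
        have := hA hx.1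
        rw [sUnion_insert] at this
        rcases this with h | h
        · exact absurd h hx.2
        · exact h
      · intro T' hT'
        exact (hiso T' (mem_insert_of_mem _ hT')).mono
          (inter_subset_inter_right _ sdiff_subset)
    calc μHE[2] (f '' A) ≤ μHE[2] (f '' (A ∩ T) ∪ f '' (A \ T)) := measure_mono h1
      _ ≤ μHE[2] (f '' (A ∩ T)) + μHE[2] (f '' (A \ T)) := measure_union_le _ _
      _ ≤ μHE[2] (A ∩ T) + μHE[2] (A \ T) := by rw [h2]; gcongr
      _ = μHE[2] A := measure_inter_add_sdiff A hT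

/-- An injective piecewise isometry preserves area. -/
lemma pw_measure_eq [PolishSpace X] {f : X → Y} {𝒯 : Set (Set X)} (hfin : 𝒯.Finite)
    (hmeas : ∀ T ∈ 𝒯, MeasurableSet T) {A : Set X} (hAm : MeasurableSet A) (hA : A ⊆ ⋃₀ 𝒯)
    (hiso : ∀ T ∈ 𝒯, IsoOn f (T ∩ A)) (hinj : InjOn f A) :
    μHE[2] (f '' A) = μHE[2] A := by
  induction 𝒯, hfin using Set.Finite.induction_on generalizing A with
  | empty =>
    have : A = ∅ := by simpa using hA
    subst this
    simp
  | @insert T 𝒯' _ _ ih =>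
    have hT : MeasurableSet T := hmeas T (mem_insert _ _)
    have h0 : IsoOn f (A ∩ T) := (hiso T (mem_insert _ _)).mono (by rw [inter_comm])
    have h1 : f '' A = f '' (A ∩ T) ∪ f '' (A \ T) := by
      rw [← image_union, inter_union_sdiff]
    have hmi : MeasurableSet (f '' (A ∩ T)) :=
      (hAm.inter hT).image_of_continuousOn_injOn h0.continuousOn h0.injOn
    have hdisj : Disjoint (f '' (A ∩ T)) (f '' (A \ T)) := by
      rw [Set.disjoint_left]
      rintro _ ⟨x, hx, rfl⟩ ⟨y, hy, hxy⟩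
      have := hinj hy.1 hx.1 hxy
      subst this
      exact hy.2 hx.2
    have h2 : μHE[2] (f '' (A ∩ T)) = μHE[2] (A ∩ T) := h0.measure_image
    have h3 : μHE[2] (f '' (A \ T)) = μHE[2] (A \ T) := by
      apply ih (fun T' hT' => hmeas T' (mem_insert_of_mem _ hT')) (hAm.diff hT)
      · intro x hx
        have := hA hx.1
        rw [sUnion_insert] at this
        rcases this with h | h
        · exact absurd h hx.2
        · exact h
      · intro T' hT'
        exact (hiso T' (mem_insert_of_mem _ hT')).mono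
          (inter_subset_inter_right _ sdiff_subset)
      · exact hinj.mono sdiff_subset
    rw [h1, measure_union' hdisj hmi, h2, h3, measure_inter_add_sdiff A hT]

end general

/-- A map on the line that is `K`-Lipschitz on each of finitely many closed sets is `K`-Lipschitz
along every segment covered by them. -/
lemma lip_real {Y : Type*} [PseudoMetricSpace Y] {φ : ℝ → Y} {K : ℝ} {𝒞 : Set (Set ℝ)}
    (hfin : 𝒞.Finite) (hcl : ∀ C ∈ 𝒞, IsClosed C)
    (hlip : ∀ C ∈ 𝒞, ∀ s ∈ C, ∀ t ∈ C, dist (φ s) (φ t) ≤ K * |s - t|) {a b : ℝ} (hab : a ≤ b)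
    (hcov : Icc a b ⊆ ⋃₀ 𝒞) : dist (φ a) (φ b) ≤ K * (b - a) := by
  induction 𝒞, hfin using Set.Finite.induction_on generalizing a b with
  | empty =>
    have : a ∈ ⋃₀ (∅ : Set (Set ℝ)) := hcov (left_mem_Icc.2 hab)
    simp at this
  | @insert C 𝒞' _ hfin' ih =>
    have hcl' : ∀ D ∈ 𝒞', IsClosed D := fun D hD => hcl D (mem_insert_of_mem _ hD)
    have hlip' : ∀ D ∈ 𝒞', ∀ s ∈ D, ∀ t ∈ D, dist (φ s) (φ t) ≤ K * |s - t| :=
      fun D hD => hlip D (mem_insert_of_mem _ hD)
    have hU : IsClosed (⋃₀ 𝒞') := by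
      rw [sUnion_eq_biUnion]
      exact hfin'.isClosed_biUnion hcl'
    rw [sUnion_insert] at hcov
    by_cases hne : (Icc a b ∩ C).Nonempty
    · have hcomp : IsCompact (Icc a b ∩ C) := isCompact_Icc.inter_right (hcl C (mem_insert _ _))
      have h0 := hcomp.sInf_mem hne
      have h1 := hcomp.sSup_mem hne
      set t0 := sInf (Icc a b ∩ C) with ht0
      set t1 := sSup (Icc a b ∩ C) with ht1
      have h01 : t0 ≤ t1 := csInf_le_csSup hne hcomp.bddBelow hcomp.bddAbove
      have hA : dist (φ a) (φ t0) ≤ K * (t0 - a) := by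
        rcases eq_or_lt_of_le h0.1.1 with h | h
        · rw [← h]; simp
        · apply ih hcl' hlip' h.le
          have hsub : Ico a t0 ⊆ ⋃₀ 𝒞' := by
            intro s hs
            rcases hcov ⟨hs.1, hs.2.le.trans h0.1.2⟩ with hc | hc
            · exact absurd (csInf_le hcomp.bddBelow ⟨⟨hs.1, hs.2.le.trans h0.1.2⟩, hc⟩)
                (not_le.2 hs.2)
            · exact hc
          have := closure_mono hsub
          rw [closure_Ico h.ne, hU.closure_eq] at this
          exact this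
      have hB : dist (φ t1) (φ b) ≤ K * (b - t1) := by
        rcases eq_or_lt_of_le h1.1.2 with h | h
        · rw [← h]; simp
        · apply ih hcl' hlip' h.le
          have hsub : Ioc t1 b ⊆ ⋃₀ 𝒞' := by
            intro s hs
            rcases hcov ⟨h1.1.1.trans hs.1.le, hs.2⟩ with hc | hc
            · exact absurd (le_csSup hcomp.bddAbove ⟨⟨h1.1.1.trans hs.1.le, hs.2⟩, hc⟩)
                (not_le.2 hs.1)
            · exact hc
          have := closure_mono hsub
          rw [closure_Ioc h.ne, hU.closure_eq] at this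
          exact this
      have hM : dist (φ t0) (φ t1) ≤ K * (t1 - t0) := by
        have := hlip C (mem_insert _ _) t0 h0.2 t1 h1.2
        rwa [abs_sub_comm, abs_of_nonneg (by linarith)] at this
      calc dist (φ a) (φ b) ≤ dist (φ a) (φ t0) + dist (φ t0) (φ t1) + dist (φ t1) (φ b) :=
            dist_triangle4 _ _ _ _
        _ ≤ K * (t0 - a) + K * (t1 - t0) + K * (b - t1) := by gcongr
        _ = K * (b - a) := by ring
    · apply ih hcl' hlip' hab
      intro s hs
      rcases hcov hs with hc | hc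
      · exact absurd ⟨s, hs, hc⟩ hne
      · exact hc

/-- A piecewise isometry on a convex set is `1`-Lipschitz there. -/
lemma lip_convex {V : Type*} [NormedAddCommGroup V] [NormedSpace ℝ V] {Y : Type*}
    [PseudoMetricSpace Y] {f : V → Y} {𝒯 : Set (Set V)}
    (hfin : 𝒯.Finite) (hcl : ∀ T ∈ 𝒯, IsClosed T) {S : Set V} (hS : Convex ℝ S)
    (hcov : S ⊆ ⋃₀ 𝒯) (hiso : ∀ T ∈ 𝒯, IsoOn f (T ∩ S)) {x y : V} (hx : x ∈ S) (hy : y ∈ S) :
    dist (f x) (f y) ≤ dist x y := by
  let γ : ℝ → V := fun t => AffineMap.lineMap x y t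
  have hγ : Continuous γ := AffineMap.lineMap_continuous
  have hseg : ∀ t ∈ Icc (0 : ℝ) 1, γ t ∈ S := fun t ht => hS.lineMap_mem hx hy ht
  have hγd : ∀ s t, dist (γ s) (γ t) = dist x y * |s - t| := by
    intro s t
    have h := dist_lineMap_lineMap x y s t
    rw [Real.dist_eq] at h
    rw [mul_comm]
    exact h
  have := lip_real (φ := fun t => f (γ t)) (K := dist x y)
    (𝒞 := (fun T => Icc (0 : ℝ) 1 ∩ γ ⁻¹' T) '' 𝒯) (hfin.image _) ?_ ?_ zero_le_one ?_
  · simpa [γ] using this
  · rintro _ ⟨T, hT, rfl⟩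
    exact isClosed_Icc.inter ((hcl T hT).preimage hγ)
  · rintro _ ⟨T, hT, rfl⟩ s hs t ht
    have := hiso T hT (γ s) ⟨hs.2, hseg s hs.1⟩ (γ t) ⟨ht.2, hseg t ht.1⟩
    rw [this, hγd]
  · intro t ht
    obtain ⟨T, hT, hmem⟩ := hcov (hseg t ht)
    exact ⟨_, ⟨T, hT, rfl⟩, ht, hmem⟩

end Pool.Agent.Lib.MP_a49afe_co
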