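import Pool.Agent.Lib.MP_a49afe_co.Inj

/-!
# Folding certificates: combinatorial data and the checker

The edge vector of the cube is `z = a + b i`.  The plane carries the lattice `z ℤ[i]`, whose
squares are the developed faces of the cube.  Every cell of the polyomino comes with a reference
lattice square and with a frame telling how the cube sits on that square.
-/

namespace Pool.Agent.Lib.MP_a49afe_co

/-- A cell `(x, y)`, its reference lattice square `(sx, sy)` and its frame `(g0, g1, g2)`.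
The code `0,1,2` stands for the coordinates `u,v,w` and `3,4,5` for `1-u,1-v,1-w`. -/
structure Entry where
  x : ℤ
  y : ℤ
  sx : ℤ
  sy : ℤ
  g0 : ℕ
  g1 : ℕ
  g2 : ℕ

/-- The cell of an entry. -/
def Entry.cell (e : Entry) : Cell := (e.x, e.y)

/-- Substitution `(u,v,w) = (1-w',v',u')`: rolling over the right edge. -/
def rollR : ℕ → ℕ
  | 0 => 5
  | 1 => 1
  | 2 => 0
  | 3 => 2
  | 4 => 4
  | _ => 3

/-- Substitution `(u,v,w) = (u',1-w',v')`: rolling over the upper edge. -/
def rollU : ℕ → ℕ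
  | 0 => 0
  | 1 => 5
  | 2 => 1
  | 3 => 3
  | 4 => 2
  | _ => 4

/-- Substitution `(u,v,w) = (w',v',1-u')`: rolling over the left edge. -/
def rollL : ℕ → ℕ
  | 0 => 2
  | 1 => 1
  | 2 => 3
  | 3 => 5
  | 4 => 4
  | _ => 0

/-- Substitution `(u,v,w) = (u',w',1-v')`: rolling over the lower edge. -/
def rollD : ℕ → ℕ
  | 0 => 0
  | 1 => 2
  | 2 => 4
  | 3 => 3
  | 4 => 5
  | _ => 1

/-- The five substitutions. -/
def subE : ℕ → ℕ → ℕ
  | 0, g => g
  | 1, g => rollR g
  | 2, g => rollU g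
  | 3, g => rollL g
  | _, g => rollD g

/-- The offsets of the five squares of the cross. -/
def offE : ℕ → ℤ × ℤ
  | 0 => (0, 0)
  | 1 => (1, 0)
  | 2 => (0, 1)
  | 3 => (-1, 0)
  | _ => (0, -1)

/-- Substitution for the rotation of the unit square by `r` quarter turns. -/
def subRot : ℕ → ℕ → ℕ
  | 0, g => g
  | 1, 0 => 4
  | 1, 1 => 0
  | 1, 2 => 2
  | 1, 3 => 1
  | 1, 4 => 3
  | 1, _ => 5
  | 2, 0 => 3
  | 2, 1 => 4
  | 2, 2 => 2
  | 2, 3 => 0
  | 2, 4 => 1
  | 2, _ => 5
  | _, 0 => 1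
  | _, 1 => 3
  | _, 2 => 2
  | _, 3 => 4
  | _, 4 => 0
  | _, _ => 5

/-- Translation part of the rotation of the unit square. -/
def offRot : ℕ → ℤ × ℤ
  | 0 => (0, 0)
  | 1 => (1, 0)
  | 2 => (1, 1)
  | _ => (0, 1)

/-- Lower left corner of the image of the cell `(i,j)` under rotation by `r` quarter turns about
the origin. -/
def rotCell : ℕ → ℤ → ℤ → ℤ × ℤ
  | 0, i, j => (i, j)
  | 1, i, j => (-j - 1, i)
  | 2, i, j => (-i - 1, -j - 1)
  | _, i, j => (j, -i - 1)

/-- Scaled first lattice coordinate of the lattice point `(x,y)` relative to square `(sx,sy)`. -/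
def uu (a b sx x y : ℤ) : ℤ := a * x + b * y - (a * a + b * b) * sx

/-- Scaled second lattice coordinate. -/
def vv (a b sy x y : ℤ) : ℤ := -b * x + a * y - (a * a + b * b) * sy

/-- The point lies in the box `[p,q] × [r,s]` (in units of lattice squares). -/
def inBox (a b sx sy p q r s x y : ℤ) : Prop :=
  p * (a * a + b * b) ≤ uu a b sx x y ∧ uu a b sx x y ≤ q * (a * a + b * b) ∧
  r * (a * a + b * b) ≤ vv a b sy x y ∧ vv a b sy x y ≤ s * (a * a + b * b)

instance (a b sx sy p q r s x y : ℤ) : Decidable (inBox a b sx sy p q r s x y) := by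
  unfold inBox; infer_instance

/-- All four corners of the cell are in the box. -/
def cellInBox (a b p q r s : ℤ) (e : Entry) : Prop :=
  inBox a b e.sx e.sy p q r s e.x e.y ∧ inBox a b e.sx e.sy p q r s (e.x + 1) e.y ∧
  inBox a b e.sx e.sy p q r s e.x (e.y + 1) ∧ inBox a b e.sx e.sy p q r s (e.x + 1) (e.y + 1)

instance (a b p q r s : ℤ) (e : Entry) : Decidable (cellInBox a b p q r s e) := by
  unfold cellInBox; infer_instance

/-- The cell lies in one of the four dominoes around its reference square. -/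
def crossOK (a b : ℤ) (e : Entry) : Prop :=
  cellInBox a b 0 2 0 1 e ∨ cellInBox a b (-1) 1 0 1 e ∨ cellInBox a b 0 1 0 2 e ∨
  cellInBox a b 0 1 (-1) 1 e

instance (a b : ℤ) (e : Entry) : Decidable (crossOK a b e) := by
  unfold crossOK; infer_instance

/-- The frame is a signed permutation. -/
def validG (e : Entry) : Prop :=
  e.g0 < 6 ∧ e.g1 < 6 ∧ e.g2 < 6 ∧ e.g0 % 3 ≠ e.g1 % 3 ∧ e.g0 % 3 ≠ e.g2 % 3 ∧
  e.g1 % 3 ≠ e.g2 % 3

instance (e : Entry) : Decidable (validG e) := by
  unfold validG; infer_instance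

/-- Same square and frame. -/
def sameData (e e' : Entry) : Prop :=
  e'.sx = e.sx ∧ e'.sy = e.sy ∧ e'.g0 = e.g0 ∧ e'.g1 = e.g1 ∧ e'.g2 = e.g2

instance (e e' : Entry) : Decidable (sameData e e') := by
  unfold sameData; infer_instance

/-- `e'` is obtained from `e` by rolling to the right, and the edge `[p,q]` is in the domino. -/
def rolledR (a b : ℤ) (e e' : Entry) (px py qx qy : ℤ) : Prop :=
  e'.sx = e.sx + 1 ∧ e'.sy = e.sy ∧ e'.g0 = rollR e.g0 ∧ e'.g1 = rollR e.g1 ∧
  e'.g2 = rollR e.g2 ∧ inBox a b e.sx e.sy 0 2 0 1 px py ∧ inBox a b e.sx e.sy 0 2 0 1 qx qy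

instance (a b : ℤ) (e e' : Entry) (px py qx qy : ℤ) :
    Decidable (rolledR a b e e' px py qx qy) := by
  unfold rolledR; infer_instance

/-- `e'` is obtained from `e` by rolling up, and the edge `[p,q]` is in the domino. -/
def rolledU (a b : ℤ) (e e' : Entry) (px py qx qy : ℤ) : Prop :=
  e'.sx = e.sx ∧ e'.sy = e.sy + 1 ∧ e'.g0 = rollU e.g0 ∧ e'.g1 = rollU e.g1 ∧
  e'.g2 = rollU e.g2 ∧ inBox a b e.sx e.sy 0 1 0 2 px py ∧ inBox a b e.sx e.sy 0 1 0 2 qx qy

instance (a b : ℤ) (e e' : Entry) (px py qx qy : ℤ) :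
    Decidable (rolledU a b e e' px py qx qy) := by
  unfold rolledU; infer_instance

/-- Compatibility of two entries along the edge with end points `p` and `q`. -/
def compat (a b : ℤ) (e e' : Entry) (px py qx qy : ℤ) : Prop :=
  sameData e e' ∨ rolledR a b e e' px py qx qy ∨ rolledR a b e' e px py qx qy ∨
  rolledU a b e e' px py qx qy ∨ rolledU a b e' e px py qx qy

instance (a b : ℤ) (e e' : Entry) (px py qx qy : ℤ) :
    Decidable (compat a b e e' px py qx qy) := by
  unfold compat; infer_instance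

/-- The list contains an entry for the cell `(x,y)`. -/
def hasCell (L : List Entry) (x y : ℤ) : Prop := ∃ m ∈ L, m.x = x ∧ m.y = y

instance (L : List Entry) (x y : ℤ) : Decidable (hasCell L x y) := by
  unfold hasCell; infer_instance

/-- The local conditions on a pair of entries. -/
def pairOK (a b : ℤ) (L : List Entry) (e e' : Entry) : Prop :=
  (e'.x = e.x → e'.y = e.y → sameData e e') ∧
  (e'.x = e.x + 1 → e'.y = e.y → compat a b e e' (e.x + 1) e.y (e.x + 1) (e.y + 1)) ∧
  (e'.x = e.x → e'.y = e.y + 1 → compat a b e e' e.x (e.y + 1) (e.x + 1) (e.y + 1)) ∧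
  (e'.x = e.x + 1 → e'.y = e.y + 1 → hasCell L (e.x + 1) e.y ∨ hasCell L e.x (e.y + 1)) ∧
  (e'.x = e.x + 1 → e'.y = e.y - 1 → hasCell L (e.x + 1) e.y ∨ hasCell L e.x (e.y - 1))

instance (a b : ℤ) (L : List Entry) (e e' : Entry) : Decidable (pairOK a b L e e') := by
  unfold pairOK; infer_instance

/-- The six reference frames, one for each face of the cube. -/
def faceFrames : List (ℕ × ℕ × ℕ) :=
  [(0, 1, 2), (3, 1, 5), (5, 1, 0), (2, 1, 3), (0, 5, 1), (0, 2, 4)]

/-- The interior of the cell `(i,j)` is disjoint from the interior of the lattice square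
`(0,0)`. -/
def separated (a b i j : ℤ) : Prop :=
  (uu a b 0 i j ≤ 0 ∧ uu a b 0 (i + 1) j ≤ 0 ∧ uu a b 0 i (j + 1) ≤ 0 ∧
    uu a b 0 (i + 1) (j + 1) ≤ 0) ∨
  (a * a + b * b ≤ uu a b 0 i j ∧ a * a + b * b ≤ uu a b 0 (i + 1) j ∧
    a * a + b * b ≤ uu a b 0 i (j + 1) ∧ a * a + b * b ≤ uu a b 0 (i + 1) (j + 1)) ∨
  (vv a b 0 i j ≤ 0 ∧ vv a b 0 (i + 1) j ≤ 0 ∧ vv a b 0 i (j + 1) ≤ 0 ∧
    vv a b 0 (i + 1) (j + 1) ≤ 0) ∨
  (a * a + b * b ≤ vv a b 0 i j ∧ a * a + b * b ≤ vv a b 0 (i + 1) j ∧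
    a * a + b * b ≤ vv a b 0 i (j + 1) ∧ a * a + b * b ≤ vv a b 0 (i + 1) (j + 1))

instance (a b i j : ℤ) : Decidable (separated a b i j) := by
  unfold separated; infer_instance

/-- The lattice translation (multiplied by `z`) carrying the model square to the square
of the piece. -/
def trans (a b : ℤ) (e : Entry) (m r : ℕ) : ℤ × ℤ :=
  (a * (e.sx + (offE m).1 + (offRot r).1) - b * (e.sy + (offE m).2 + (offRot r).2),
   b * (e.sx + (offE m).1 + (offRot r).1) + a * (e.sy + (offE m).2 + (offRot r).2))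

/-- The entry `e`, on the square `m` of its cross and after rotation by `r`, covers the cell
`(i,j)` of the face with frame `F`. -/
def covers (a b : ℤ) (e : Entry) (F : ℕ × ℕ × ℕ) (i j : ℤ) (m r : ℕ) : Prop :=
  subRot r (subE m e.g0) = F.1 ∧ subRot r (subE m e.g1) = F.2.1 ∧
  subRot r (subE m e.g2) = F.2.2 ∧
  (rotCell r i j).1 + (trans a b e m r).1 = e.x ∧ (rotCell r i j).2 + (trans a b e m r).2 = e.y

instance (a b : ℤ) (e : Entry) (F : ℕ × ℕ × ℕ) (i j : ℤ) (m r : ℕ) :
    Decidable (covers a b e F i j m r) := by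
  unfold covers; infer_instance

/-- Some entry covers the cell `(i,j)` of the face `F`. -/
def covered (a b : ℤ) (L : List Entry) (F : ℕ × ℕ × ℕ) (i j : ℤ) : Prop :=
  ∃ e ∈ L, ∃ m r : ℕ, covers a b e F i j m r

/-- Check of a proposed witness `(index, m, r)` for `covered`. -/
def witOK (a b : ℤ) (L : List Entry) (F : ℕ × ℕ × ℕ) (i j : ℤ) (w : ℕ × ℕ × ℕ) : Bool :=
  match L[w.1]? with
  | none => false
  | some e => decide (covers a b e F i j w.2.1 w.2.2)

/-- Check of a list of targets against a list of witnesses. -/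
def coverAll (a b : ℤ) (L : List Entry) : List ((ℕ × ℕ × ℕ) × ℤ × ℤ) → List (ℕ × ℕ × ℕ) → Bool
  | [], _ => true
  | _ :: _, [] => false
  | t :: ts, w :: ws =>
    (decide (separated a b t.2.1 t.2.2) || witOK a b L t.1 t.2.1 t.2.2 w) && coverAll a b L ts ws

/-- All cells `(i,j)` in the bounding box of the lattice square `(0,0)`, for all six faces. -/
def targets (a b : ℤ) : List ((ℕ × ℕ × ℕ) × ℤ × ℤ) :=
  faceFrames.flatMap fun F => (List.range (a + b).toNat).flatMap fun i : ℕ =>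
    (List.range (a + b).toNat).map fun j : ℕ => (F, (i : ℤ) - b, (j : ℤ))

lemma coverAll_spec {a b : ℤ} {L : List Entry} :
    ∀ {ts : List ((ℕ × ℕ × ℕ) × ℤ × ℤ)} {ws : List (ℕ × ℕ × ℕ)}, coverAll a b L ts ws = true →
      ∀ t ∈ ts, separated a b t.2.1 t.2.2 ∨ covered a b L t.1 t.2.1 t.2.2
  | [], _, _ => by simp
  | _ :: _, [], h => by simp [coverAll] at h
  | t :: ts, w :: ws, h => by
    rw [coverAll, Bool.and_eq_true, Bool.or_eq_true, decide_eq_true_eq] at h
    intro t' ht'
    rcases List.mem_cons.1 ht' with rfl | ht'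
    · rcases h.1 with h1 | h1
      · exact Or.inl h1
      · right
        unfold witOK at h1
        split at h1
        · exact absurd h1 (by decide)
        · rename_i e he
          exact ⟨e, List.mem_of_getElem? he, w.2.1, w.2.2, by simpa using h1⟩
    · exact coverAll_spec h.2 t' ht'

/-- The full check. -/
def CheckOK (a b : ℤ) (L : List Entry) (W : List (ℕ × ℕ × ℕ)) : Prop :=
  0 < a ∧ 0 ≤ b ∧ (L.length : ℤ) ≤ 6 * (a * a + b * b) ∧
  (∀ e ∈ L, validG e ∧ crossOK a b e) ∧ (∀ e ∈ L, ∀ e' ∈ L, pairOK a b L e e') ∧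
  coverAll a b L (targets a b) W = true

instance (a b : ℤ) (L : List Entry) (W : List (ℕ × ℕ × ℕ)) : Decidable (CheckOK a b L W) := by
  unfold CheckOK; infer_instance

/-- The set of cells of a certificate. -/
def cells (L : List Entry) : Finset Cell := (L.map Entry.cell).toFinset

end Pool.Agent.Lib.MP_a49afe_co
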