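import Pool.Agent.Lib.MP_a49afe_co.Simple

/-!
# The rep-cube of order 13

The 13 pieces are marked with letters; the lower left corner of the picture is the cell
`(-4, -11)`.

```
...E..AAA
EEEEC..A.
ECCCC..A.
.MMC..LA.
JJMMLLLL.
.JJMMKL..
..JJGK...
..GGGKK..
...BGGKH.
.FBBBBKHH
.FFBDDHHI
FF...DHII
.F...DDI.
.....DII.
```
-/

set_option maxRecDepth 100000

namespace Pool.Agent.Lib.MP_a49afe_co.Order13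

/-- The folding certificate of the polyomino. -/
def big : List Entry :=
  [⟨0, 0, 0, 0, 0, 1, 2⟩, ⟨0, 1, 0, 0, 0, 1, 2⟩, ⟨-1, 0, -1, 0, 2, 1, 3⟩, ⟨-1, 1, 0, 0, 0, 1, 2⟩,
   ⟨-2, 0, -1, 0, 2, 1, 3⟩, ⟨-1, -1, -1, -1, 4, 2, 3⟩, ⟨-1, 2, 0, 0, 0, 1, 2⟩, ⟨-2, 1, -1, 0, 2, 1, 3⟩,
   ⟨-3, 0, -1, 0, 2, 1, 3⟩, ⟨-2, -1, -1, 0, 2, 1, 3⟩, ⟨-1, -2, -1, -1, 4, 2, 3⟩, ⟨-3, 1, -1, 0, 2, 1, 3⟩,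
   ⟨-4, 0, -1, 0, 2, 1, 3⟩, ⟨-3, -1, -1, 0, 2, 1, 3⟩, ⟨-2, -2, -1, -1, 4, 2, 3⟩, ⟨0, -2, -1, -1, 4, 2, 3⟩,
   ⟨-1, -3, -1, -1, 4, 2, 3⟩, ⟨-4, 1, -1, 0, 2, 1, 3⟩, ⟨-3, -2, -1, 0, 2, 1, 3⟩, ⟨-2, -3, -1, -1, 4, 2, 3⟩,
   ⟨1, -2, 0, -1, 4, 0, 2⟩, ⟨0, -3, -1, -1, 4, 2, 3⟩, ⟨-1, -4, -1, -1, 4, 2, 3⟩, ⟨-4, -2, -2, 0, 3, 1, 5⟩,
   ⟨-3, -3, -1, -1, 4, 2, 3⟩, ⟨-2, -4, -1, -1, 4, 2, 3⟩, ⟨2, -2, 0, -1, 4, 0, 2⟩, ⟨1, -3, -1, -1, 4, 2, 3⟩,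
   ⟨0, -4, -1, -1, 4, 2, 3⟩, ⟨-1, -5, -1, -1, 4, 2, 3⟩, ⟨-2, -5, -2, -1, 4, 3, 5⟩, ⟨3, -2, 0, -1, 4, 0, 2⟩,
   ⟨2, -1, 0, -1, 4, 0, 2⟩, ⟨2, -3, 0, -1, 4, 0, 2⟩, ⟨1, -4, -1, -2, 5, 4, 3⟩, ⟨0, -5, -1, -2, 5, 4, 3⟩,
   ⟨-1, -6, -1, -2, 5, 4, 3⟩, ⟨3, -1, 0, -1, 4, 0, 2⟩, ⟨1, -5, -1, -2, 5, 4, 3⟩, ⟨0, -6, -1, -2, 5, 4, 3⟩,
   ⟨-1, -7, -2, -2, 0, 4, 5⟩, ⟨3, 0, 0, -1, 4, 0, 2⟩, ⟨2, -5, -1, -2, 5, 4, 3⟩, ⟨1, -6, -1, -2, 5, 4, 3⟩,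
   ⟨0, -7, -1, -2, 5, 4, 3⟩, ⟨-2, -7, -2, -2, 0, 4, 5⟩, ⟨-1, -8, -2, -2, 0, 4, 5⟩, ⟨3, 1, 1, -1, 4, 5, 0⟩,
   ⟨2, -6, -1, -2, 5, 4, 3⟩, ⟨1, -7, -1, -2, 5, 4, 3⟩, ⟨0, -8, -2, -2, 0, 4, 5⟩, ⟨-3, -7, -2, -2, 0, 4, 5⟩,
   ⟨-2, -8, -2, -2, 0, 4, 5⟩, ⟨3, 2, 1, 0, 2, 4, 0⟩, ⟨3, -6, -1, -2, 5, 4, 3⟩, ⟨2, -7, -1, -2, 5, 4, 3⟩,
   ⟨1, -8, -1, -2, 5, 4, 3⟩, ⟨-3, -8, -2, -2, 0, 4, 5⟩, ⟨4, 2, 1, -1, 4, 5, 0⟩, ⟨2, 2, 0, 0, 3, 4, 2⟩,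
   ⟨3, -7, -1, -3, 1, 5, 3⟩, ⟨2, -8, -1, -3, 1, 5, 3⟩, ⟨1, -9, -1, -3, 1, 5, 3⟩, ⟨-3, -9, -2, -2, 0, 4, 5⟩,
   ⟨4, -7, 0, -3, 1, 3, 2⟩, ⟨3, -8, -1, -3, 1, 5, 3⟩, ⟨2, -9, -1, -3, 1, 5, 3⟩, ⟨1, -10, -2, -3, 1, 0, 5⟩,
   ⟨-4, -9, -3, -2, 2, 4, 0⟩, ⟨-3, -10, -3, -2, 2, 4, 0⟩, ⟨4, -8, -1, -3, 1, 5, 3⟩, ⟨3, -9, -1, -3, 1, 5, 3⟩,
   ⟨2, -10, -1, -3, 1, 5, 3⟩, ⟨1, -11, -2, -3, 1, 0, 5⟩, ⟨4, -9, -1, -3, 1, 5, 3⟩, ⟨3, -10, -1, -3, 1, 5, 3⟩,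
   ⟨2, -11, -2, -3, 1, 0, 5⟩, ⟨3, -11, -1, -3, 1, 5, 3⟩]

/-- Cover witnesses for `big`. -/
def bigW : List (ℕ × ℕ × ℕ) :=
  [(0, 0, 0), (7, 1, 0), (59, 0, 2), (47, 3, 3), (0, 0, 0), (2, 1, 0), (3, 0, 0), (6, 0, 0),
   (41, 0, 3), (70, 1, 1), (0, 0, 0), (1, 0, 0), (32, 0, 3), (37, 0, 3), (64, 0, 1), (15, 1, 3),
   (20, 0, 3), (26, 0, 3), (31, 0, 3), (54, 1, 2), (0, 0, 0), (27, 1, 3), (33, 0, 3), (42, 1, 2),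
   (0, 0, 0), (0, 0, 0), (44, 3, 2), (50, 0, 2), (62, 3, 3), (0, 0, 0), (36, 3, 2), (40, 0, 2),
   (46, 0, 2), (67, 0, 3), (72, 3, 3), (30, 0, 1), (45, 0, 2), (52, 0, 2), (73, 0, 3), (76, 0, 3),
   (25, 3, 1), (51, 0, 2), (57, 0, 2), (63, 0, 2), (69, 1, 2), (0, 0, 0), (24, 3, 1), (23, 0, 0),
   (68, 1, 2), (0, 0, 0), (0, 0, 0), (31, 4, 3), (54, 0, 2), (60, 2, 2), (0, 0, 0), (33, 4, 3),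
   (42, 0, 2), (48, 0, 2), (55, 0, 2), (61, 2, 2), (34, 0, 2), (38, 0, 2), (43, 0, 2), (49, 0, 2),
   (56, 0, 2), (28, 4, 2), (35, 0, 2), (39, 0, 2), (44, 0, 2), (50, 1, 2), (0, 0, 0), (29, 4, 2),
   (36, 0, 2), (40, 1, 2), (0, 0, 0), (0, 0, 0), (63, 3, 2), (69, 0, 2), (77, 4, 0), (0, 0, 0),
   (23, 1, 0), (68, 0, 2), (12, 0, 0), (17, 0, 0), (58, 2, 2), (18, 0, 0), (13, 0, 0), (8, 0, 0),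
   (11, 0, 0), (53, 0, 2), (14, 2, 0), (9, 0, 0), (4, 0, 0), (7, 0, 0), (59, 1, 2), (0, 0, 0),
   (5, 2, 0), (2, 0, 0), (3, 3, 0), (0, 0, 0), (0, 0, 0), (17, 2, 1), (77, 0, 1), (76, 1, 1),
   (0, 0, 0), (53, 4, 3), (58, 0, 3), (75, 0, 1), (72, 0, 1), (67, 1, 1), (47, 0, 3), (74, 0, 1),
   (71, 0, 1), (66, 0, 1), (62, 0, 1), (41, 1, 3), (70, 0, 1), (65, 0, 1), (61, 0, 1), (56, 4, 1),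
   (0, 0, 0), (64, 3, 1), (60, 0, 1), (55, 4, 1), (0, 0, 0), (0, 0, 0), (9, 4, 3), (5, 0, 3),
   (0, 4, 0), (0, 0, 0), (18, 4, 3), (14, 0, 3), (10, 0, 3), (15, 0, 3), (20, 3, 3), (24, 0, 3),
   (19, 0, 3), (16, 0, 3), (21, 0, 3), (27, 0, 3), (51, 2, 0), (25, 0, 3), (22, 0, 3), (28, 0, 3),
   (34, 2, 3), (0, 0, 0), (30, 1, 3), (29, 0, 3), (35, 2, 3), (0, 0, 0)]

/-- The folding certificates of the pieces. -/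
def small : Fin 13 → List Entry := ![
  [⟨2, 2, 2, 2, 0, 1, 2⟩, ⟨3, 2, 3, 2, 5, 1, 0⟩, ⟨4, 2, 4, 2, 3, 1, 5⟩, ⟨3, 1, 3, 1, 1, 2, 0⟩,
   ⟨3, 0, 3, 0, 2, 4, 0⟩, ⟨3, -1, 3, -1, 4, 5, 0⟩],
  [⟨-2, -7, -2, -7, 0, 1, 2⟩, ⟨-1, -7, -1, -7, 5, 1, 0⟩, ⟨0, -7, 0, -7, 3, 1, 5⟩, ⟨-1, -6, -1, -6, 4, 5, 0⟩,
   ⟨-1, -8, -1, -8, 1, 2, 0⟩, ⟨1, -7, 1, -7, 2, 1, 3⟩],
  [⟨-3, 0, -3, 0, 0, 1, 2⟩, ⟨-2, 0, -2, 0, 5, 1, 0⟩, ⟨-1, 0, -1, 0, 3, 1, 5⟩, ⟨0, 0, 0, 0, 2, 1, 3⟩,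
   ⟨-1, -1, -1, -1, 3, 2, 1⟩, ⟨0, 1, 0, 1, 1, 5, 3⟩],
  [⟨0, -8, 0, -8, 0, 1, 2⟩, ⟨1, -8, 1, -8, 5, 1, 0⟩, ⟨1, -9, 1, -9, 1, 2, 0⟩, ⟨1, -10, 1, -10, 2, 4, 0⟩,
   ⟨2, -10, 2, -10, 0, 4, 5⟩, ⟨1, -11, 1, -11, 4, 5, 0⟩],
  [⟨-4, 0, -4, 0, 0, 1, 2⟩, ⟨-4, 1, -4, 1, 0, 5, 1⟩, ⟨-3, 1, -3, 1, 5, 3, 1⟩, ⟨-2, 1, -2, 1, 3, 2, 1⟩,
   ⟨-1, 1, -1, 1, 2, 0, 1⟩, ⟨-1, 2, -1, 2, 1, 0, 5⟩],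
  [⟨-4, -9, -4, -9, 0, 1, 2⟩, ⟨-3, -9, -3, -9, 5, 1, 0⟩, ⟨-3, -8, -3, -8, 4, 5, 0⟩, ⟨-3, -10, -3, -10, 1, 2, 0⟩,
   ⟨-2, -8, -2, -8, 4, 3, 5⟩, ⟨-3, -7, -3, -7, 2, 4, 0⟩],
  [⟨-2, -5, -2, -5, 0, 1, 2⟩, ⟨-1, -5, -1, -5, 5, 1, 0⟩, ⟨0, -5, 0, -5, 3, 1, 5⟩, ⟨0, -4, 0, -4, 3, 5, 4⟩,
   ⟨0, -6, 0, -6, 3, 2, 1⟩, ⟨1, -6, 1, -6, 2, 0, 1⟩],
  [⟨2, -9, 2, -9, 0, 1, 2⟩, ⟨2, -8, 2, -8, 0, 5, 1⟩, ⟨3, -8, 3, -8, 5, 3, 1⟩, ⟨3, -7, 3, -7, 4, 3, 5⟩,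
   ⟨4, -7, 4, -7, 4, 2, 3⟩, ⟨3, -6, 3, -6, 2, 3, 4⟩],
  [⟨2, -11, 2, -11, 0, 1, 2⟩, ⟨3, -11, 3, -11, 5, 1, 0⟩, ⟨3, -10, 3, -10, 4, 5, 0⟩, ⟨3, -9, 3, -9, 2, 4, 0⟩,
   ⟨4, -9, 4, -9, 0, 4, 5⟩, ⟨4, -8, 4, -8, 0, 2, 4⟩],
  [⟨-4, -2, -4, -2, 0, 1, 2⟩, ⟨-3, -2, -3, -2, 5, 1, 0⟩, ⟨-3, -3, -3, -3, 1, 2, 0⟩, ⟨-2, -3, -2, -3, 1, 0, 5⟩,
   ⟨-2, -4, -2, -4, 2, 0, 1⟩, ⟨-1, -4, -1, -4, 0, 5, 1⟩],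
  [⟨1, -5, 1, -5, 0, 1, 2⟩, ⟨2, -5, 2, -5, 5, 1, 0⟩, ⟨1, -4, 1, -4, 0, 5, 1⟩, ⟨2, -6, 2, -6, 1, 2, 0⟩,
   ⟨1, -3, 1, -3, 0, 4, 5⟩, ⟨2, -7, 2, -7, 2, 4, 0⟩],
  [⟨0, -2, 0, -2, 0, 1, 2⟩, ⟨1, -2, 1, -2, 5, 1, 0⟩, ⟨2, -2, 2, -2, 3, 1, 5⟩, ⟨3, -2, 3, -2, 2, 1, 3⟩,
   ⟨2, -1, 2, -1, 3, 5, 4⟩, ⟨2, -3, 2, -3, 3, 2, 1⟩],
  [⟨-3, -1, -3, -1, 0, 1, 2⟩, ⟨-2, -1, -2, -1, 5, 1, 0⟩, ⟨-2, -2, -2, -2, 1, 2, 0⟩, ⟨-1, -2, -1, -2, 1, 0, 5⟩,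
   ⟨-1, -3, -1, -3, 2, 0, 1⟩, ⟨0, -3, 0, -3, 0, 5, 1⟩]]

/-- Cover witnesses for `small`. -/
def smallW : Fin 13 → List (ℕ × ℕ × ℕ) := ![
  [(0, 0, 0), (2, 0, 0), (1, 0, 0), (4, 0, 2), (5, 0, 3), (3, 0, 1)],
  [(0, 0, 0), (2, 0, 0), (1, 0, 0), (5, 0, 0), (3, 0, 3), (4, 0, 1)],
  [(0, 0, 0), (2, 0, 0), (1, 0, 0), (3, 0, 0), (5, 0, 1), (4, 0, 2)],
  [(0, 0, 0), (4, 0, 2), (1, 0, 0), (3, 0, 2), (5, 0, 3), (2, 0, 1)],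
  [(0, 0, 0), (5, 0, 3), (2, 0, 1), (4, 0, 3), (1, 0, 0), (3, 0, 2)],
  [(0, 0, 0), (4, 0, 1), (1, 0, 0), (5, 0, 2), (2, 0, 3), (3, 0, 1)],
  [(0, 0, 0), (2, 0, 0), (1, 0, 0), (5, 0, 3), (3, 0, 2), (4, 0, 2)],
  [(0, 0, 0), (3, 0, 1), (2, 0, 1), (5, 0, 1), (1, 0, 0), (4, 0, 3)],
  [(0, 0, 0), (4, 0, 2), (1, 0, 0), (3, 0, 2), (2, 0, 3), (5, 0, 0)],
  [(0, 0, 0), (3, 0, 3), (1, 0, 0), (4, 0, 3), (5, 0, 0), (2, 0, 1)],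
  [(0, 0, 0), (4, 0, 2), (1, 0, 0), (5, 0, 2), (2, 0, 0), (3, 0, 1)],
  [(0, 0, 0), (2, 0, 0), (1, 0, 0), (3, 0, 0), (4, 0, 2), (5, 0, 2)],
  [(0, 0, 0), (3, 0, 3), (1, 0, 0), (4, 0, 3), (5, 0, 0), (2, 0, 1)]]

/-- The congruences carrying the model nets to the pieces. -/
def move : Fin 11 → ℤ × ℤ × ℤ × ℤ × ℤ × ℤ := ![
  (0, 1, -1, 0, 2, 2),
  (1, 0, 0, 1, -2, -8),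
  (-1, 0, 0, -1, 0, 1),
  (0, 1, -1, 0, 0, -8),
  (1, 0, 0, 1, -4, 0),
  (0, 1, 1, 0, -4, -10),
  (-1, 0, 0, -1, 1, -4),
  (0, -1, 1, 0, 4, -9),
  (0, 1, -1, 0, 2, -8),
  (1, 0, 0, 1, -4, -4),
  (0, 1, 1, 0, 1, -7)]

/-- Cells outside the polyomino, each on the frame or adjacent to a later one. -/
def outer : List Cell :=
  [(0, -1), (1, -1), (2, 0), (2, -4), (1, 0), (2, 1), (0, -9), (-1, -9), (-2, -9),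
   (-2, -6), (3, -3), (3, -4), (3, -5), (1, 1), (0, -10), (-1, -10), (-2, -10), (-3, -4),
   (-3, -5), (-3, -6), (4, 1), (4, 0), (4, -1), (4, -2), (4, -3), (4, -4), (4, -5),
   (4, -6), (4, -10), (4, -11), (1, 2), (0, 2), (0, -11), (-1, -11), (-2, 2), (-2, -11),
   (-3, 2), (-3, -11), (-4, 2), (-4, -1), (-4, -3), (-4, -4), (-4, -5), (-4, -6), (-4, -7),
   (-4, -8), (-4, -10), (-4, -11), (5, 1), (5, 0), (5, -1), (5, -2), (5, -3), (5, -4),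
   (5, -5), (5, -6), (5, -10), (5, -11), (4, -12), (1, 3), (0, 3), (0, -12), (-1, -12),
   (-2, 3), (-2, -12), (-3, 3), (-3, -12), (-4, 3), (-4, -12), (-5, 2), (-5, -1), (-5, -3),
   (-5, -4), (-5, -5), (-5, -6), (-5, -7), (-5, -8), (-5, -10), (-5, -11)]

/-- The model nets are carried to the pieces. -/
def moveOK (N Q : Finset Cell) (m : ℤ × ℤ × ℤ × ℤ × ℤ × ℤ) : Prop :=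
  m.1 * m.1 + m.2.2.1 * m.2.2.1 = 1 ∧ m.2.1 * m.2.1 + m.2.2.2.1 * m.2.2.2.1 = 1 ∧
  m.1 * m.2.1 + m.2.2.1 * m.2.2.2.1 = 0 ∧
  N.image (gridMap m.1 m.2.1 m.2.2.1 m.2.2.2.1 m.2.2.2.2.1 m.2.2.2.2.2) = Q

instance (N Q : Finset Cell) (m : ℤ × ℤ × ℤ × ℤ × ℤ × ℤ) : Decidable (moveOK N Q m) := by
  unfold moveOK; infer_instance

lemma big_ok : CheckOK 3 2 big bigW := by decide +kernel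

lemma small_ok : ∀ i, CheckOK 1 0 (small i) (smallW i) := by decide +kernel

lemma big_conn : connOK (big.map Entry.cell).reverse := by decide +kernel

lemma small_conn : ∀ i, connOK ((small i).map Entry.cell).reverse := by decide +kernel

lemma big_card : (cells big).card = 6 * 13 := by decide +kernel

lemma small_disj : ∀ i j, i ≠ j → ∀ c ∈ (small i).map Entry.cell,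
    c ∉ (small j).map Entry.cell := by decide +kernel

lemma small_sub : ∀ i, ∀ c ∈ (small i).map Entry.cell, c ∈ big.map Entry.cell := by
  decide +kernel

lemma small_sup : ∀ c ∈ big.map Entry.cell, ∃ i, c ∈ (small i).map Entry.cell := by
  decide +kernel

lemma move_ok : ∀ t : Fin 11, moveOK (cubeNet t) (cells (small (t.castLE (by norm_num)))) (move t) := by
  decide +kernel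

/-- The rep-cube of order 13. -/
theorem isRepCube : IsRepCube IsCubeNet 13 (cells big) (fun i => cells (small i)) :=
  isRepCube_of_check (a := 3) (b := 2) (by norm_num) (by norm_num) big_ok small_ok
    (by decide +kernel) (by decide +kernel) big_conn small_conn big_card small_disj small_sub
    small_sup

/-- The order `13` rep-cube contains all eleven types. -/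
theorem containsAllTypes : ContainsAllTypes (fun i : Fin 13 => cells (small i)) := by
  intro t
  obtain ⟨h1, h2, h3, h4⟩ := move_ok t
  exact ⟨t.castLE (by norm_num), _, _, _, _, _, _, h1, h2, h3, h4⟩


lemma simple_ok : SimpleOK (big.map Entry.cell) (-5) (5) (-12) (3) outer := by decide +kernel

/-- The polyomino is a simple polygon. -/
theorem isSimplePolygon : IsSimplePolygon (cells big) := isSimplePolygon_of_check simple_ok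

end Pool.Agent.Lib.MP_a49afe_co.Order13
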