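import Pool.Agent.Lib.MP_a49afe_co.Simple

/-!
# The rep-cube of order 20

The 20 pieces are marked with letters; the lower left corner of the picture is the cell
`(-6, -4)`.

```
....GG................
....EGGG...A..RR......
.EEEEGM....ARRRHII....
.EFKKKMMMM.ARBHHHIII..
FFFFDKKKMCAAABJJHHOI..
.FDDDDCCCCQSBBBJJOOOO.
..DTTT.PCQQSSBL.JJ.ONN
.TTT...PPPQQSSL.....N.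
........P..Q.SLL....N.
........P....LL....NN.
```
-/

set_option maxRecDepth 100000

namespace Pool.Agent.Lib.MP_a49afe_co.Order20

/-- The folding certificate of the polyomino. -/
def big : List Entry :=
  [⟨0, 0, 0, 0, 0, 1, 2⟩, ⟨1, 0, 0, -1, 0, 2, 4⟩, ⟨0, 1, 0, 0, 0, 1, 2⟩, ⟨-1, 0, -1, 0, 2, 1, 3⟩,
   ⟨2, 0, 0, -1, 0, 2, 4⟩, ⟨1, 1, 0, 0, 0, 1, 2⟩, ⟨1, -1, 0, -1, 0, 2, 4⟩, ⟨0, 2, 0, 0, 0, 1, 2⟩,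
   ⟨-1, 1, 0, 0, 0, 1, 2⟩, ⟨-2, 0, -1, 0, 2, 1, 3⟩, ⟨-1, -1, -1, -1, 4, 2, 3⟩, ⟨3, 0, 0, -1, 0, 2, 4⟩,
   ⟨2, 1, 0, 0, 0, 1, 2⟩, ⟨2, -1, 0, -1, 0, 2, 4⟩, ⟨1, 2, 0, 0, 0, 1, 2⟩, ⟨1, -2, 0, -1, 0, 2, 4⟩,
   ⟨0, 3, 0, 0, 0, 1, 2⟩, ⟨-1, 2, 0, 0, 0, 1, 2⟩, ⟨-2, 1, -1, 0, 2, 1, 3⟩, ⟨-3, 0, -1, 0, 2, 1, 3⟩,
   ⟨-2, -1, -1, 0, 2, 1, 3⟩, ⟨4, 0, 0, -1, 0, 2, 4⟩, ⟨3, 1, 0, -1, 0, 2, 4⟩, ⟨3, -1, 0, -1, 0, 2, 4⟩,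
   ⟨2, 2, 0, 0, 0, 1, 2⟩, ⟨2, -2, 0, -1, 0, 2, 4⟩, ⟨0, 4, 0, 0, 0, 1, 2⟩, ⟨-1, 3, 0, 0, 0, 1, 2⟩,
   ⟨-2, 2, -1, 0, 2, 1, 3⟩, ⟨-3, 1, -1, 0, 2, 1, 3⟩, ⟨-4, 0, -1, 0, 2, 1, 3⟩, ⟨-3, -1, -1, 0, 2, 1, 3⟩,
   ⟨5, 0, 1, -1, 5, 0, 4⟩, ⟨4, 1, 1, -1, 5, 0, 4⟩, ⟨4, -1, 0, -1, 0, 2, 4⟩, ⟨3, 2, 0, 0, 0, 1, 2⟩,
   ⟨3, -2, 0, -1, 0, 2, 4⟩, ⟨2, -3, 0, -1, 0, 2, 4⟩, ⟨1, 4, 0, 0, 0, 1, 2⟩, ⟨-1, 4, 0, 0, 0, 1, 2⟩,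
   ⟨-2, 3, 0, 0, 0, 1, 2⟩, ⟨-3, 2, -1, 0, 2, 1, 3⟩, ⟨-4, 1, -1, 0, 2, 1, 3⟩, ⟨-5, 0, -1, 0, 2, 1, 3⟩,
   ⟨-4, -1, -1, 0, 2, 1, 3⟩, ⟨-3, -2, -1, -1, 4, 2, 3⟩, ⟨6, 0, 1, -1, 5, 0, 4⟩, ⟨5, 1, 1, -1, 5, 0, 4⟩,
   ⟨5, -1, 1, -1, 5, 0, 4⟩, ⟨4, -2, 0, -1, 0, 2, 4⟩, ⟨2, -4, 0, -1, 0, 2, 4⟩, ⟨-1, 5, 0, 1, 0, 5, 1⟩,
   ⟨-2, 4, 0, 1, 0, 5, 1⟩, ⟨-3, 3, -1, 0, 2, 1, 3⟩, ⟨-4, 2, -1, 0, 2, 1, 3⟩, ⟨-5, 1, -1, 0, 2, 1, 3⟩,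
   ⟨-4, -2, -1, 0, 2, 1, 3⟩, ⟨7, 0, 1, -1, 5, 0, 4⟩, ⟨6, 1, 1, -1, 5, 0, 4⟩, ⟨6, -1, 1, -1, 5, 0, 4⟩,
   ⟨5, 2, 1, -1, 5, 0, 4⟩, ⟨5, -2, 0, -1, 0, 2, 4⟩, ⟨-2, 5, 0, 1, 0, 5, 1⟩, ⟨-4, 3, -1, 1, 1, 5, 3⟩,
   ⟨-5, 2, -1, 0, 2, 1, 3⟩, ⟨-6, 1, -1, 0, 2, 1, 3⟩, ⟨-5, -2, -2, 0, 3, 1, 5⟩, ⟨8, 0, 1, -1, 5, 0, 4⟩,
   ⟨7, 1, 1, -1, 5, 0, 4⟩, ⟨7, -1, 1, -1, 5, 0, 4⟩, ⟨6, 2, 1, -1, 5, 0, 4⟩, ⟨6, -2, 1, -1, 5, 0, 4⟩,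
   ⟨5, 3, 1, 0, 4, 0, 2⟩, ⟨5, -3, 0, -2, 0, 4, 5⟩, ⟨-5, 3, -1, 1, 1, 5, 3⟩, ⟨9, 0, 1, -1, 5, 0, 4⟩,
   ⟨8, 1, 1, -1, 5, 0, 4⟩, ⟨8, -1, 1, -1, 5, 0, 4⟩, ⟨7, 2, 1, -1, 5, 0, 4⟩, ⟨7, -2, 1, -2, 1, 0, 5⟩,
   ⟨6, 3, 1, 0, 4, 0, 2⟩, ⟨5, 4, 1, 0, 4, 0, 2⟩, ⟨10, 0, 2, -1, 3, 5, 4⟩, ⟨9, 1, 2, -1, 3, 5, 4⟩,
   ⟨8, 2, 1, -1, 5, 0, 4⟩, ⟨8, -2, 1, -2, 1, 0, 5⟩, ⟨7, 3, 1, -1, 5, 0, 4⟩, ⟨7, -3, 1, -2, 1, 0, 5⟩,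
   ⟨11, 0, 2, -2, 3, 1, 5⟩, ⟨10, 1, 2, -1, 3, 5, 4⟩, ⟨10, -1, 2, -2, 3, 1, 5⟩, ⟨9, 2, 2, -1, 3, 5, 4⟩,
   ⟨8, 3, 2, -1, 3, 5, 4⟩, ⟨8, -3, 1, -2, 1, 0, 5⟩, ⟨7, -4, 1, -2, 1, 0, 5⟩, ⟨12, 0, 2, -2, 3, 1, 5⟩,
   ⟨11, 1, 2, -1, 3, 5, 4⟩, ⟨11, -1, 2, -2, 3, 1, 5⟩, ⟨10, 2, 2, -1, 3, 5, 4⟩, ⟨9, 3, 2, -1, 3, 5, 4⟩,
   ⟨8, 4, 2, 0, 3, 4, 2⟩, ⟨9, -3, 1, -2, 1, 0, 5⟩, ⟨8, -4, 1, -2, 1, 0, 5⟩, ⟨13, 0, 2, -2, 3, 1, 5⟩,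
   ⟨12, 1, 2, -1, 3, 5, 4⟩, ⟨11, 2, 2, -1, 3, 5, 4⟩, ⟨10, 3, 2, -1, 3, 5, 4⟩, ⟨9, 4, 2, -1, 3, 5, 4⟩,
   ⟨14, 0, 2, -2, 3, 1, 5⟩, ⟨13, 1, 2, -2, 3, 1, 5⟩, ⟨13, -1, 2, -2, 3, 1, 5⟩, ⟨12, 2, 2, -1, 3, 5, 4⟩,
   ⟨11, 3, 2, -1, 3, 5, 4⟩, ⟨14, -1, 2, -2, 3, 1, 5⟩, ⟨13, 2, 2, -1, 3, 5, 4⟩, ⟨15, -1, 3, -2, 2, 1, 3⟩,
   ⟨14, -2, 2, -2, 3, 1, 5⟩, ⟨14, -3, 2, -2, 3, 1, 5⟩, ⟨14, -4, 2, -3, 3, 2, 1⟩, ⟨13, -4, 2, -3, 3, 2, 1⟩]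

/-- Cover witnesses for `big`. -/
def bigW : List (ℕ × ℕ × ℕ) :=
  [(0, 0, 0), (0, 0, 0), (28, 1, 0), (40, 0, 0), (52, 4, 0), (0, 0, 0), (3, 1, 0), (8, 0, 0),
   (17, 0, 0), (27, 0, 0), (39, 0, 0), (0, 0, 0), (0, 0, 0), (2, 0, 0), (7, 0, 0), (16, 0, 0),
   (26, 0, 0), (107, 2, 2), (1, 2, 0), (5, 0, 0), (14, 0, 0), (81, 0, 3), (38, 0, 0), (100, 0, 2),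
   (0, 0, 0), (12, 0, 0), (24, 0, 0), (72, 0, 3), (80, 0, 3), (86, 2, 3), (0, 0, 0), (22, 2, 0),
   (35, 0, 0), (60, 2, 3), (0, 0, 0), (0, 0, 0), (0, 0, 0), (0, 0, 0), (77, 4, 3), (90, 0, 0),
   (82, 4, 0), (0, 0, 0), (71, 4, 3), (79, 0, 3), (85, 0, 3), (97, 0, 0), (88, 0, 0), (0, 0, 0),
   (73, 0, 2), (87, 0, 3), (93, 0, 3), (101, 0, 3), (95, 0, 0), (104, 4, 0), (119, 2, 0), (94, 0, 3),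
   (102, 0, 3), (110, 0, 0), (103, 0, 0), (109, 0, 0), (0, 0, 0), (117, 0, 0), (116, 0, 0), (113, 0, 0),
   (108, 0, 0), (65, 3, 0), (0, 0, 0), (50, 4, 2), (66, 0, 0), (115, 3, 0), (0, 0, 0), (0, 0, 0),
   (0, 0, 0), (0, 0, 0), (80, 4, 3), (86, 0, 3), (92, 3, 3), (0, 0, 0), (35, 1, 0), (60, 0, 3),
   (70, 0, 3), (78, 0, 3), (84, 0, 3), (0, 0, 0), (33, 0, 3), (47, 0, 3), (58, 0, 3), (68, 0, 3),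
   (76, 0, 3), (83, 3, 3), (21, 1, 3), (32, 0, 3), (46, 0, 3), (57, 0, 3), (67, 0, 3), (75, 0, 3),
   (0, 0, 0), (48, 0, 3), (59, 0, 3), (69, 0, 3), (77, 0, 3), (90, 3, 0), (0, 0, 0), (61, 1, 3),
   (71, 0, 3), (79, 2, 3), (0, 0, 0), (0, 0, 0), (0, 0, 0), (0, 0, 0), (108, 1, 0), (65, 0, 0),
   (114, 1, 1), (0, 0, 0), (66, 1, 0), (115, 0, 0), (43, 0, 0), (55, 0, 0), (64, 0, 0), (0, 0, 0),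
   (56, 0, 0), (44, 0, 0), (30, 0, 0), (42, 0, 0), (54, 0, 0), (63, 4, 0), (45, 2, 0), (31, 0, 0),
   (19, 0, 0), (29, 0, 0), (41, 0, 0), (53, 0, 0), (0, 0, 0), (20, 0, 0), (9, 0, 0), (18, 0, 0),
   (28, 0, 0), (40, 3, 0), (0, 0, 0), (10, 2, 0), (3, 0, 0), (8, 3, 0), (0, 0, 0), (0, 0, 0),
   (0, 0, 0), (0, 0, 0), (64, 2, 1), (114, 0, 2), (109, 2, 2), (0, 0, 0), (53, 2, 1), (63, 0, 1),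
   (74, 0, 1), (111, 0, 2), (104, 0, 2), (0, 0, 0), (52, 0, 0), (62, 0, 0), (112, 0, 2), (105, 0, 2),
   (96, 0, 2), (88, 2, 2), (39, 2, 0), (51, 0, 0), (106, 0, 2), (98, 0, 2), (89, 0, 2), (82, 0, 2),
   (0, 0, 0), (107, 0, 2), (99, 0, 2), (91, 0, 2), (83, 0, 2), (75, 1, 2), (0, 0, 0), (100, 4, 2),
   (92, 0, 2), (84, 1, 2), (0, 0, 0), (0, 0, 0), (0, 0, 0), (0, 0, 0), (20, 4, 3), (10, 0, 3),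
   (0, 4, 0), (0, 0, 0), (56, 4, 3), (45, 0, 3), (15, 0, 0), (6, 0, 0), (1, 0, 0), (0, 0, 0),
   (50, 0, 0), (37, 0, 0), (25, 0, 0), (13, 0, 0), (4, 0, 0), (12, 4, 0), (117, 4, 2), (118, 0, 2),
   (36, 0, 0), (23, 0, 0), (11, 0, 0), (22, 0, 0), (0, 0, 0), (119, 0, 2), (49, 0, 0), (34, 0, 0),
   (21, 0, 0), (33, 3, 0), (0, 0, 0), (73, 2, 0), (61, 0, 0), (48, 3, 0), (0, 0, 0), (0, 0, 0)]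

/-- The folding certificates of the pieces. -/
def small : Fin 20 → List Entry := ![
  [⟨4, 1, 4, 1, 0, 1, 2⟩, ⟨5, 1, 5, 1, 5, 1, 0⟩, ⟨6, 1, 6, 1, 3, 1, 5⟩, ⟨5, 2, 5, 2, 4, 5, 0⟩,
   ⟨5, 3, 5, 3, 2, 4, 0⟩, ⟨5, 4, 5, 4, 1, 2, 0⟩],
  [⟨6, 0, 6, 0, 0, 1, 2⟩, ⟨7, 0, 7, 0, 5, 1, 0⟩, ⟨8, 0, 8, 0, 3, 1, 5⟩, ⟨7, 1, 7, 1, 4, 5, 0⟩,
   ⟨7, -1, 7, -1, 1, 2, 0⟩, ⟨7, 2, 7, 2, 2, 4, 0⟩],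
  [⟨0, 0, 0, 0, 0, 1, 2⟩, ⟨1, 0, 1, 0, 5, 1, 0⟩, ⟨2, 0, 2, 0, 3, 1, 5⟩, ⟨3, 0, 3, 0, 2, 1, 3⟩,
   ⟨2, -1, 2, -1, 3, 2, 1⟩, ⟨3, 1, 3, 1, 1, 5, 3⟩],
  [⟨-4, -1, -4, -1, 0, 1, 2⟩, ⟨-4, 0, -4, 0, 0, 5, 1⟩, ⟨-3, 0, -3, 0, 5, 3, 1⟩, ⟨-2, 0, -2, 0, 3, 2, 1⟩,
   ⟨-1, 0, -1, 0, 2, 0, 1⟩, ⟨-2, 1, -2, 1, 3, 1, 5⟩],
  [⟨-5, 2, -5, 2, 0, 1, 2⟩, ⟨-5, 3, -5, 3, 0, 5, 1⟩, ⟨-4, 3, -4, 3, 5, 3, 1⟩, ⟨-3, 3, -3, 3, 3, 2, 1⟩,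
   ⟨-2, 3, -2, 3, 2, 0, 1⟩, ⟨-2, 4, -2, 4, 1, 0, 5⟩],
  [⟨-6, 1, -6, 1, 0, 1, 2⟩, ⟨-5, 1, -5, 1, 5, 1, 0⟩, ⟨-4, 1, -4, 1, 3, 1, 5⟩, ⟨-5, 0, -5, 0, 1, 2, 0⟩,
   ⟨-3, 1, -3, 1, 2, 1, 3⟩, ⟨-4, 2, -4, 2, 3, 5, 4⟩],
  [⟨-2, 5, -2, 5, 0, 1, 2⟩, ⟨-1, 5, -1, 5, 5, 1, 0⟩, ⟨-1, 4, -1, 4, 1, 2, 0⟩, ⟨0, 4, 0, 4, 1, 0, 5⟩,
   ⟨-1, 3, -1, 3, 2, 4, 0⟩, ⟨1, 4, 1, 4, 1, 5, 3⟩],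
  [⟨8, 2, 8, 2, 0, 1, 2⟩, ⟨9, 2, 9, 2, 5, 1, 0⟩, ⟨10, 2, 10, 2, 3, 1, 5⟩, ⟨9, 3, 9, 3, 4, 5, 0⟩,
   ⟨10, 1, 10, 1, 3, 2, 1⟩, ⟨11, 1, 11, 1, 2, 0, 1⟩],
  [⟨10, 3, 10, 3, 0, 1, 2⟩, ⟨11, 3, 11, 3, 5, 1, 0⟩, ⟨11, 2, 11, 2, 1, 2, 0⟩, ⟨12, 2, 12, 2, 1, 0, 5⟩,
   ⟨13, 2, 13, 2, 1, 5, 3⟩, ⟨13, 1, 13, 1, 2, 1, 3⟩],
  [⟨8, 1, 8, 1, 0, 1, 2⟩, ⟨9, 1, 9, 1, 5, 1, 0⟩, ⟨9, 0, 9, 0, 1, 2, 0⟩, ⟨10, 0, 10, 0, 1, 0, 5⟩,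
   ⟨10, -1, 10, -1, 2, 0, 1⟩, ⟨11, -1, 11, -1, 0, 5, 1⟩],
  [⟨-3, 2, -3, 2, 0, 1, 2⟩, ⟨-2, 2, -2, 2, 5, 1, 0⟩, ⟨-1, 2, -1, 2, 3, 1, 5⟩, ⟨-1, 1, -1, 1, 3, 2, 1⟩,
   ⟨0, 1, 0, 1, 2, 0, 1⟩, ⟨1, 1, 1, 1, 0, 5, 1⟩],
  [⟨7, -4, 7, -4, 0, 1, 2⟩, ⟨8, -4, 8, -4, 5, 1, 0⟩, ⟨8, -3, 8, -3, 4, 5, 0⟩, ⟨9, -3, 9, -3, 4, 3, 5⟩,
   ⟨8, -2, 8, -2, 2, 4, 0⟩, ⟨8, -1, 8, -1, 1, 2, 0⟩],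
  [⟨0, 2, 0, 2, 0, 1, 2⟩, ⟨1, 2, 1, 2, 5, 1, 0⟩, ⟨0, 3, 0, 3, 0, 5, 1⟩, ⟨2, 2, 2, 2, 3, 1, 5⟩,
   ⟨3, 2, 3, 2, 2, 1, 3⟩, ⟨2, 1, 2, 1, 3, 2, 1⟩],
  [⟨13, -4, 13, -4, 0, 1, 2⟩, ⟨14, -4, 14, -4, 5, 1, 0⟩, ⟨14, -3, 14, -3, 4, 5, 0⟩, ⟨14, -2, 14, -2, 2, 4, 0⟩,
   ⟨14, -1, 14, -1, 1, 2, 0⟩, ⟨15, -1, 15, -1, 1, 0, 5⟩],
  [⟨11, 0, 11, 0, 0, 1, 2⟩, ⟨12, 0, 12, 0, 5, 1, 0⟩, ⟨13, 0, 13, 0, 3, 1, 5⟩, ⟨12, 1, 12, 1, 4, 5, 0⟩,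
   ⟨14, 0, 14, 0, 2, 1, 3⟩, ⟨13, -1, 13, -1, 3, 2, 1⟩],
  [⟨1, -2, 1, -2, 0, 1, 2⟩, ⟨2, -2, 2, -2, 5, 1, 0⟩, ⟨1, -1, 1, -1, 0, 5, 1⟩, ⟨3, -2, 3, -2, 3, 1, 5⟩,
   ⟨2, -3, 2, -3, 1, 2, 0⟩, ⟨2, -4, 2, -4, 2, 4, 0⟩],
  [⟨3, -1, 3, -1, 0, 1, 2⟩, ⟨4, -1, 4, -1, 5, 1, 0⟩, ⟨4, 0, 4, 0, 4, 5, 0⟩, ⟨4, -2, 4, -2, 1, 2, 0⟩,
   ⟨5, -2, 5, -2, 1, 0, 5⟩, ⟨5, -3, 5, -3, 2, 0, 1⟩],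
  [⟨6, 2, 6, 2, 0, 1, 2⟩, ⟨6, 3, 6, 3, 0, 5, 1⟩, ⟨7, 3, 7, 3, 5, 3, 1⟩, ⟨8, 3, 8, 3, 3, 2, 1⟩,
   ⟨8, 4, 8, 4, 3, 1, 5⟩, ⟨9, 4, 9, 4, 2, 1, 3⟩],
  [⟨5, -1, 5, -1, 0, 1, 2⟩, ⟨6, -1, 6, -1, 5, 1, 0⟩, ⟨5, 0, 5, 0, 0, 5, 1⟩, ⟨6, -2, 6, -2, 1, 2, 0⟩,
   ⟨7, -2, 7, -2, 1, 0, 5⟩, ⟨7, -3, 7, -3, 2, 0, 1⟩],
  [⟨-5, -2, -5, -2, 0, 1, 2⟩, ⟨-4, -2, -4, -2, 5, 1, 0⟩, ⟨-3, -2, -3, -2, 3, 1, 5⟩, ⟨-3, -1, -3, -1, 3, 5, 4⟩,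
   ⟨-2, -1, -2, -1, 2, 3, 4⟩, ⟨-1, -1, -1, -1, 0, 2, 4⟩]]

/-- Cover witnesses for `small`. -/
def smallW : Fin 20 → List (ℕ × ℕ × ℕ) := ![
  [(0, 0, 0), (2, 0, 0), (1, 0, 0), (4, 0, 2), (3, 0, 3), (5, 0, 1)],
  [(0, 0, 0), (2, 0, 0), (1, 0, 0), (5, 0, 2), (3, 0, 3), (4, 0, 1)],
  [(0, 0, 0), (2, 0, 0), (1, 0, 0), (3, 0, 0), (5, 0, 1), (4, 0, 2)],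
  [(0, 0, 0), (5, 0, 0), (2, 0, 1), (4, 0, 3), (1, 0, 0), (3, 0, 2)],
  [(0, 0, 0), (5, 0, 3), (2, 0, 1), (4, 0, 3), (1, 0, 0), (3, 0, 2)],
  [(0, 0, 0), (2, 0, 0), (1, 0, 0), (4, 0, 0), (5, 0, 2), (3, 0, 1)],
  [(0, 0, 0), (3, 0, 3), (1, 0, 0), (4, 0, 2), (5, 0, 1), (2, 0, 1)],
  [(0, 0, 0), (2, 0, 0), (1, 0, 0), (5, 0, 3), (3, 0, 3), (4, 0, 2)],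
  [(0, 0, 0), (3, 0, 3), (1, 0, 0), (5, 0, 0), (4, 0, 1), (2, 0, 1)],
  [(0, 0, 0), (3, 0, 3), (1, 0, 0), (4, 0, 3), (5, 0, 0), (2, 0, 1)],
  [(0, 0, 0), (2, 0, 0), (1, 0, 0), (4, 0, 3), (5, 0, 0), (3, 0, 2)],
  [(0, 0, 0), (3, 0, 1), (1, 0, 0), (4, 0, 2), (2, 0, 3), (5, 0, 1)],
  [(0, 0, 0), (3, 0, 0), (1, 0, 0), (4, 0, 0), (2, 0, 0), (5, 0, 2)],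
  [(0, 0, 0), (5, 0, 3), (1, 0, 0), (3, 0, 2), (2, 0, 3), (4, 0, 1)],
  [(0, 0, 0), (2, 0, 0), (1, 0, 0), (4, 0, 0), (3, 0, 3), (5, 0, 2)],
  [(0, 0, 0), (3, 0, 0), (1, 0, 0), (5, 0, 2), (2, 0, 0), (4, 0, 1)],
  [(0, 0, 0), (4, 0, 3), (1, 0, 0), (5, 0, 3), (2, 0, 3), (3, 0, 1)],
  [(0, 0, 0), (4, 0, 0), (2, 0, 1), (5, 0, 0), (1, 0, 0), (3, 0, 2)],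
  [(0, 0, 0), (4, 0, 3), (1, 0, 0), (5, 0, 3), (2, 0, 0), (3, 0, 1)],
  [(0, 0, 0), (2, 0, 0), (1, 0, 0), (4, 0, 1), (3, 0, 2), (5, 0, 0)]]

/-- The congruences carrying the model nets to the pieces. -/
def move : Fin 20 → ℤ × ℤ × ℤ × ℤ × ℤ × ℤ := ![
  (0, -1, 1, 0, 6, 1),
  (0, -1, 1, 0, 8, -1),
  (-1, 0, 0, -1, 3, 1),
  (1, 0, 0, 1, -4, -1),
  (1, 0, 0, 1, -5, 2),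
  (1, 0, 0, 1, -6, 0),
  (1, 0, 0, 1, -2, 3),
  (-1, 0, 0, -1, 11, 3),
  (1, 0, 0, 1, 10, 1),
  (1, 0, 0, 1, 8, -1),
  (1, 0, 0, 1, -3, 1),
  (1, 0, 0, 1, 7, -4),
  (0, 1, -1, 0, 0, 3),
  (1, 0, 0, 1, 13, -4),
  (0, -1, 1, 0, 14, -1),
  (-1, 0, 0, -1, 3, -1),
  (1, 0, 0, 1, 3, -3),
  (0, -1, 1, 0, 9, 2),
  (1, 0, 0, 1, 5, -3),
  (0, -1, 1, 0, -1, -2)]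

/-- Cells outside the polyomino, each on the frame or adjacent to a later one. -/
def outer : List Cell :=
  [(9, -1), (12, -1), (13, -2), (9, -2), (4, 2), (1, 3), (0, -1), (13, 3), (12, 3),
   (12, -2), (13, -3), (11, -2), (10, -2), (4, 3), (3, 3), (2, 3), (0, -2), (-1, -2),
   (-2, -2), (14, 3), (14, 2), (14, 1), (14, 4), (13, 4), (12, 4), (12, -3), (11, 4),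
   (11, -3), (10, 4), (10, -3), (7, 4), (6, 4), (6, -3), (4, 4), (4, -3), (3, 4),
   (3, -3), (2, 4), (1, -3), (0, -3), (-1, -3), (-2, -3), (-3, 4), (-3, -3), (-4, 4),
   (-4, -3), (-5, 4), (-5, -1), (-5, -3), (15, 4), (15, 3), (15, 2), (15, 1), (15, 0),
   (15, -2), (15, -3), (15, 5), (15, -4), (14, 5), (13, 5), (12, 5), (12, -4), (11, 5),
   (11, -4), (10, 5), (10, -4), (9, 5), (9, -4), (8, 5), (7, 5), (6, 5), (6, -4),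
   (5, 5), (5, -4), (4, 5), (4, -4), (3, 5), (3, -4), (2, 5), (1, 5), (1, -4),
   (0, 5), (0, -4), (-1, -4), (-2, -4), (-3, 5), (-3, -4), (-4, 5), (-4, -4), (-5, 5),
   (-5, -4), (-6, 5), (-6, 4), (-6, 3), (-6, 2), (-6, 0), (-6, -1), (-6, -2), (-6, -3),
   (-6, -4), (16, 5), (16, 4), (16, 3), (16, 2), (16, 1), (16, 0), (16, -2), (16, -3),
   (16, -4), (15, 6), (15, -5), (14, 6), (13, 6), (12, 6), (12, -5), (11, 6), (11, -5),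
   (10, 6), (10, -5), (9, 6), (9, -5), (8, 6), (7, 6), (6, 6), (6, -5), (5, 6),
   (5, -5), (4, 6), (4, -5), (3, 6), (3, -5), (2, 6), (1, 6), (1, -5), (0, 6),
   (0, -5), (-1, -5), (-2, -5), (-3, 6), (-3, -5), (-4, 6), (-4, -5), (-5, 6), (-5, -5),
   (-6, 6), (-6, -5), (-7, 5), (-7, 4), (-7, 3), (-7, 2), (-7, 0), (-7, -1), (-7, -2),
   (-7, -3), (-7, -4)]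

/-- The model nets are carried to the pieces. -/
def moveOK (N Q : Finset Cell) (m : ℤ × ℤ × ℤ × ℤ × ℤ × ℤ) : Prop :=
  m.1 * m.1 + m.2.2.1 * m.2.2.1 = 1 ∧ m.2.1 * m.2.1 + m.2.2.2.1 * m.2.2.2.1 = 1 ∧
  m.1 * m.2.1 + m.2.2.1 * m.2.2.2.1 = 0 ∧
  m.1 * m.2.2.2.1 - m.2.1 * m.2.2.1 = 1 ∧
  N.image (gridMap m.1 m.2.1 m.2.2.1 m.2.2.2.1 m.2.2.2.2.1 m.2.2.2.2.2) = Q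

instance (N Q : Finset Cell) (m : ℤ × ℤ × ℤ × ℤ × ℤ × ℤ) : Decidable (moveOK N Q m) := by
  unfold moveOK; infer_instance

lemma big_ok : CheckOK 4 2 big bigW := by decide +kernel

lemma small_ok : ∀ i, CheckOK 1 0 (small i) (smallW i) := by decide +kernel

lemma big_conn : connOK (big.map Entry.cell).reverse := by decide +kernel

lemma small_conn : ∀ i, connOK ((small i).map Entry.cell).reverse := by decide +kernel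

lemma big_card : (cells big).card = 6 * 20 := by decide +kernel

lemma small_disj : ∀ i j, i ≠ j → ∀ c ∈ (small i).map Entry.cell,
    c ∉ (small j).map Entry.cell := by decide +kernel

lemma small_sub : ∀ i, ∀ c ∈ (small i).map Entry.cell, c ∈ big.map Entry.cell := by
  decide +kernel

lemma small_sup : ∀ c ∈ big.map Entry.cell, ∃ i, c ∈ (small i).map Entry.cell := by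
  decide +kernel

lemma move_ok : ∀ t : Fin 20, moveOK (oneSidedNet t) (cells (small t)) (move t) := by
  decide +kernel

/-- The rep-cube of order 20. -/
theorem isRepCube : IsRepCube IsCubeNet 20 (cells big) (fun i => cells (small i)) :=
  isRepCube_of_check (a := 4) (b := 2) (by norm_num) (by norm_num) big_ok small_ok
    (by decide +kernel) (by decide +kernel) big_conn small_conn big_card small_disj small_sub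
    small_sup

/-- The pieces of the order `20` rep-cube are the twenty one-sided nets. -/
theorem oneSided (t : Fin 20) : ProperlyCongruent (oneSidedNet t) (cells (small t)) := by
  obtain ⟨h1, h2, h3, h4, h5⟩ := move_ok t
  exact ⟨_, _, _, _, _, _, h1, h2, h3, h4, h5⟩


lemma simple_ok : SimpleOK (big.map Entry.cell) (-7) (16) (-5) (6) outer := by decide +kernel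

/-- The polyomino is a simple polygon. -/
theorem isSimplePolygon : IsSimplePolygon (cells big) := isSimplePolygon_of_check simple_ok

end Pool.Agent.Lib.MP_a49afe_co.Order20
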