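import Mathlib

/-!
# Polyominoes, cube nets and rep-cubes: the definitions used in the statements
-/

open Set

namespace Pool.Agent.Lib.MP_a49afe_co

/-- The Euclidean plane. -/
abbrev Plane := EuclideanSpace ℝ (Fin 2)

/-- Euclidean three-space. -/
abbrev Space := EuclideanSpace ℝ (Fin 3)

/-! ### Polyominoes -/

/-- A cell of the unit square grid, named by its lower left corner. -/
abbrev Cell := ℤ × ℤ

/-- The closed unit square with lower left corner `c`. -/
def square (c : Cell) : Set Plane :=
  {x | (c.1 : ℝ) ≤ x 0 ∧ x 0 ≤ c.1 + 1 ∧ (c.2 : ℝ) ≤ x 1 ∧ x 1 ≤ c.2 + 1}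

/-- The planar region covered by a finite set of cells. -/
def region (P : Finset Cell) : Set Plane := ⋃ c ∈ P, square c

/-- Two cells are adjacent if they share an edge. -/
def Adj (c d : Cell) : Prop := |c.1 - d.1| + |c.2 - d.2| = 1

/-- A polyomino: a nonempty finite set of cells that is connected through shared edges. -/
def IsPolyomino (P : Finset Cell) : Prop :=
  P.Nonempty ∧ ∀ c ∈ P, ∀ d ∈ P, Relation.ReflTransGen (fun a b => b ∈ P ∧ Adj a b) c d

/-- The polyomino `P` is a simple polygon: it has no holes, that is, its complement is connected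
through shared edges, and no two of its cells touch only in a corner. -/
def IsSimplePolygon (P : Finset Cell) : Prop :=
  (∀ c ∉ P, ∀ d ∉ P, Relation.ReflTransGen (fun a b => b ∉ P ∧ Adj a b) c d) ∧
  ∀ c ∈ P, ∀ d ∈ P, |c.1 - d.1| = 1 → |c.2 - d.2| = 1 → (c.1, d.2) ∈ P ∨ (d.1, c.2) ∈ P

/-! ### Nets of the cube -/

/-- The surface of the cube `[0,ℓ]³`. -/
def cubeSurface (ℓ : ℝ) : Set Space :=
  {x | (∀ i, 0 ≤ x i ∧ x i ≤ ℓ) ∧ ∃ i, x i = 0 ∨ x i = ℓ}

/-- A convex polygon: a bounded intersection of finitely many closed half-planes. -/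
def IsConvexPolygon (T : Set Plane) : Prop :=
  Bornology.IsBounded T ∧
    ∃ (n : ℕ) (a b c : Fin n → ℝ), T = {x | ∀ i, a i * x 0 + b i * x 1 ≤ c i}

/-- `P` is a net of a cube of edge `ℓ`: there is a map `f` (the folding map) from the closed
region of `P` onto the surface of the cube `[0,ℓ]³` that is continuous, that is an isometry on
each of finitely many convex polygons into which the region is cut by the creases, and that is
injective on the interior of the region (no overlaps). -/
def IsCubeNet (P : Finset Cell) (ℓ : ℝ) : Prop :=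
  ∃ (f : Plane → Space) (𝒯 : Set (Set Plane)),
    𝒯.Finite ∧ (∀ T ∈ 𝒯, IsConvexPolygon T) ∧ ⋃₀ 𝒯 = region P ∧
    (∀ T ∈ 𝒯, ∀ x ∈ T, ∀ y ∈ T, dist (f x) (f y) = dist x y) ∧
    ContinuousOn f (region P) ∧ f '' region P = cubeSurface ℓ ∧
    InjOn f (interior (region P))

/-- `P` is a net of a cube of edge `ℓ` in the weak sense: there is a map `f` on the interior of
the region of `P` into the surface of the cube `[0,ℓ]³` that is continuous and injective, that is
an isometry on the part in the interior of each of finitely many convex polygons into which the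
region is cut by the creases, and whose image has the surface of the cube as its closure. -/
def IsOpenCubeNet (P : Finset Cell) (ℓ : ℝ) : Prop :=
  ∃ (f : Plane → Space) (𝒯 : Set (Set Plane)),
    𝒯.Finite ∧ (∀ T ∈ 𝒯, IsConvexPolygon T) ∧ ⋃₀ 𝒯 = region P ∧
    (∀ T ∈ 𝒯, ∀ x ∈ T ∩ interior (region P), ∀ y ∈ T ∩ interior (region P),
      dist (f x) (f y) = dist x y) ∧
    ContinuousOn f (interior (region P)) ∧
    closure (f '' interior (region P)) = cubeSurface ℓ ∧
    InjOn f (interior (region P))

/-! ### The eleven nets -/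

/-- The nets of type 1-4-1: a row of four cells, one cell below the column `i` and one cell above
the column `j`. -/
def net141 (i j : ℤ) : Finset Cell := {(0, 1), (1, 1), (2, 1), (3, 1), (i, 0), (j, 2)}

/-- The nets of type 2-3-1: rows `XX..`, `.XXX` and one cell below the column `j`. -/
def net231 (j : ℤ) : Finset Cell := {(0, 2), (1, 2), (1, 1), (2, 1), (3, 1), (j, 0)}

/-- The net of type 2-2-2: rows `XX..`, `.XX.`, `..XX`. -/
def net222 : Finset Cell := {(0, 2), (1, 2), (1, 1), (2, 1), (2, 0), (3, 0)}

/-- The net of type 3-3: rows `XXX..`, `..XXX`. -/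
def net33 : Finset Cell := {(0, 1), (1, 1), (2, 1), (2, 0), (3, 0), (4, 0)}

/-- The eleven edge-unfolding nets of the unit cube up to congruence; number `0` is the T-shaped
net and number `1` is the Latin cross. -/
def cubeNet : Fin 11 → Finset Cell :=
  ![net141 0 0, net141 1 1, net141 0 1, net141 0 2, net141 0 3, net141 1 2, net231 1, net231 2,
    net231 3, net222, net33]

/-- The mirror image in the diagonal `x = y`. -/
def mirror (P : Finset Cell) : Finset Cell := P.image Prod.swap

/-- The twenty one-sided nets: the eleven nets, and the mirror images of the nine nets other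
than the T-shaped net and the Latin cross. -/
def oneSidedNet : Fin 20 → Finset Cell :=
  ![cubeNet 0, cubeNet 1, cubeNet 2, cubeNet 3, cubeNet 4, cubeNet 5, cubeNet 6, cubeNet 7,
    cubeNet 8, cubeNet 9, cubeNet 10, mirror (cubeNet 2), mirror (cubeNet 3), mirror (cubeNet 4),
    mirror (cubeNet 5), mirror (cubeNet 6), mirror (cubeNet 7), mirror (cubeNet 8),
    mirror (cubeNet 9), mirror (cubeNet 10)]

/-! ### Congruence -/

/-- The lattice map `(x, y) ↦ (a x + b y + s, c x + d y + t)`. -/
def gridMap (a b c d s t : ℤ) (p : Cell) : Cell :=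
  (a * p.1 + b * p.2 + s, c * p.1 + d * p.2 + t)

/-- `P` and `Q` are congruent polyominoes: an isometry of the grid, possibly a reflection,
carries `P` to `Q`. -/
def Congruent (P Q : Finset Cell) : Prop :=
  ∃ a b c d s t : ℤ, a * a + c * c = 1 ∧ b * b + d * d = 1 ∧ a * b + c * d = 0 ∧
    P.image (gridMap a b c d s t) = Q

/-- `P` and `Q` are congruent by a rotation and a translation of the grid. -/
def ProperlyCongruent (P Q : Finset Cell) : Prop :=
  ∃ a b c d s t : ℤ, a * a + c * c = 1 ∧ b * b + d * d = 1 ∧ a * b + c * d = 0 ∧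
    a * d - b * c = 1 ∧ P.image (gridMap a b c d s t) = Q

/-! ### Rep-cubes -/

/-- The polyomino `P` is a rep-cube of order `k` with pieces `piece 0, …, piece (k-1)`, where
`Net Q ℓ` is the notion of `Q` being a net of a cube of edge `ℓ`: the polyomino `P` has area `6k`
and is a net of a cube of edge `√k`, and it is the disjoint union of the `k` pieces, each of which
is a polyomino and a net of a unit cube. -/
structure IsRepCube (Net : Finset Cell → ℝ → Prop) (k : ℕ) (P : Finset Cell)
    (piece : Fin k → Finset Cell) : Prop where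
  pos : 0 < k
  polyomino : IsPolyomino P
  area : P.card = 6 * k
  net : Net P (Real.sqrt k)
  disjoint : ∀ i j, i ≠ j → Disjoint (piece i) (piece j)
  union : Finset.univ.biUnion piece = P
  piece_polyomino : ∀ i, IsPolyomino (piece i)
  piece_net : ∀ i, Net (piece i) 1

/-- Each of the eleven nets is congruent to some piece. -/
def ContainsAllTypes {k : ℕ} (piece : Fin k → Finset Cell) : Prop :=
  ∀ t, ∃ i, Congruent (cubeNet t) (piece i)

end Pool.Agent.Lib.MP_a49afe_co
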