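import Pool.Agent.Lib.MP_a49afe_co.Region

/-!
# Boundary points of a polyomino region that are not lattice points
-/

open MeasureTheory Measure Metric Set
open scoped MeasureTheory ENNReal

namespace Pool.Agent.Lib.MP_a49afe_co

lemma half_vertical {P : Finset Cell} {x : Plane} (hx : x ∈ region P)
    (hxi : x ∉ interior (region P)) {a b : ℤ} (ha : x 0 = a) (hb : (b : ℝ) < x 1)
    (hb' : x 1 < b + 1) :
    ∃ δ : ℝ, 0 < δ ∧
      ((∀ r < δ, region P ∩ closedBall x r = closedBall x r ∩ {z | x 0 ≤ z 0}) ∨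
       (∀ r < δ, region P ∩ closedBall x r = closedBall x r ∩ {z | z 0 ≤ x 0})) := by
  have key : ∀ z : Plane, |z 0 - a| < 1 → (b : ℝ) < z 1 → z 1 < b + 1 →
      (z ∈ region P ↔ (z 0 ≤ a ∧ ((a - 1, b) : Cell) ∈ P) ∨
        ((a : ℝ) ≤ z 0 ∧ ((a, b) : Cell) ∈ P)) := by
    intro z hz0 hz1 hz1'
    rw [abs_lt] at hz0
    constructor
    · intro hz
      obtain ⟨c, hc, z1, z2, z3, z4⟩ := mem_iUnion₂.1 hz
      have e1 : c.2 = b := by
        have h1 : (c.2 : ℝ) < ((b + 1 : ℤ) : ℝ) := by push_cast; linarith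
        have h2 : (b : ℝ) < ((c.2 + 1 : ℤ) : ℝ) := by push_cast; linarith
        have h1' := Int.cast_lt.1 h1
        have h2' := Int.cast_lt.1 h2
        omega
      have e2 : c.1 = a - 1 ∨ c.1 = a := by
        have h1 : (c.1 : ℝ) < ((a + 1 : ℤ) : ℝ) := by push_cast; linarith
        have h2 : ((a - 1 : ℤ) : ℝ) < ((c.1 + 1 : ℤ) : ℝ) := by push_cast; linarith
        have h1' := Int.cast_lt.1 h1
        have h2' := Int.cast_lt.1 h2
        omega
      rcases e2 with e2 | e2
      · left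
        have : c = (a - 1, b) := Prod.ext e2 e1
        rw [this] at hc
        refine ⟨?_, hc⟩
        rw [e2] at z2; push_cast at z2; linarith
      · right
        have : c = (a, b) := Prod.ext e2 e1
        rw [this] at hc
        refine ⟨?_, hc⟩
        rw [e2] at z1; exact z1
    · rintro (⟨h, hc⟩ | ⟨h, hc⟩)
      · apply square_subset_region hc
        refine ⟨?_, ?_, hz1.le, hz1'.le⟩
        · push_cast; linarith
        · push_cast; linarith
      · apply square_subset_region hc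
        refine ⟨h, ?_, hz1.le, hz1'.le⟩
        linarith
  have hx' := (key x (by rw [ha]; simp) hb hb').1 hx
  have hboth : ¬ (((a - 1, b) : Cell) ∈ P ∧ ((a, b) : Cell) ∈ P) := by
    rintro ⟨h1, h2⟩
    apply hxi
    apply orect_subset_interior h1 h2 (Or.inr (by simp [Adj]))
    refine ⟨?_, ?_, ?_, ?_⟩
    · simp only []
      rw [min_eq_left (by omega), ha]; push_cast; linarith
    · simp only []
      rw [max_eq_right (by omega), ha]; linarith
    · simp only [min_self]; exact hb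
    · simp only [max_self]; exact hb'
  set δ := min (x 1 - b) (b + 1 - x 1) with hδ
  have hδ0 : 0 < δ := lt_min (by linarith) (by linarith)
  have hδ1 : δ ≤ x 1 - b := min_le_left _ _
  have hδ2 : δ ≤ b + 1 - x 1 := min_le_right _ _
  have hball : ∀ r < δ, ∀ z ∈ closedBall x r, |z 0 - a| < 1 ∧ (b : ℝ) < z 1 ∧ z 1 < b + 1 := by
    intro r hr z hz
    rw [mem_closedBall] at hz
    have h0 := (abs_coord_le_plane z x 0).trans hz
    have h1 := (abs_coord_le_plane z x 1).trans hz
    rw [ha] at h0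
    rw [abs_le] at h1
    refine ⟨by linarith, by linarith, by linarith⟩
  refine ⟨δ, hδ0, ?_⟩
  by_cases hL : ((a - 1, b) : Cell) ∈ P
  · have hR : ((a, b) : Cell) ∉ P := fun h => hboth ⟨hL, h⟩
    right
    intro r hr
    ext z
    constructor
    · rintro ⟨hz, hzb⟩
      obtain ⟨k1, k2, k3⟩ := hball r hr z hzb
      rcases (key z k1 k2 k3).1 hz with h | h
      · exact ⟨hzb, by rw [mem_ofPred_eq, ha]; exact h.1⟩
      · exact absurd h.2 hR
    · rintro ⟨hzb, hz⟩
      obtain ⟨k1, k2, k3⟩ := hball r hr z hzb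
      refine ⟨(key z k1 k2 k3).2 (Or.inl ⟨?_, hL⟩), hzb⟩
      rw [mem_ofPred_eq, ha] at hz; exact hz
  · have hR : ((a, b) : Cell) ∈ P := by
      rcases hx' with h | h
      · exact absurd h.2 hL
      · exact h.2
    left
    intro r hr
    ext z
    constructor
    · rintro ⟨hz, hzb⟩
      obtain ⟨k1, k2, k3⟩ := hball r hr z hzb
      rcases (key z k1 k2 k3).1 hz with h | h
      · exact absurd h.2 hL
      · exact ⟨hzb, by rw [mem_ofPred_eq, ha]; exact h.1⟩
    · rintro ⟨hzb, hz⟩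
      obtain ⟨k1, k2, k3⟩ := hball r hr z hzb
      refine ⟨(key z k1 k2 k3).2 (Or.inr ⟨?_, hR⟩), hzb⟩
      rw [mem_ofPred_eq, ha] at hz; exact hz

lemma half_horizontal {P : Finset Cell} {x : Plane} (hx : x ∈ region P)
    (hxi : x ∉ interior (region P)) {a b : ℤ} (ha : x 1 = a) (hb : (b : ℝ) < x 0)
    (hb' : x 0 < b + 1) :
    ∃ δ : ℝ, 0 < δ ∧
      ((∀ r < δ, region P ∩ closedBall x r = closedBall x r ∩ {z | x 1 ≤ z 1}) ∨
       (∀ r < δ, region P ∩ closedBall x r = closedBall x r ∩ {z | z 1 ≤ x 1})) := by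
  have key : ∀ z : Plane, |z 1 - a| < 1 → (b : ℝ) < z 0 → z 0 < b + 1 →
      (z ∈ region P ↔ (z 1 ≤ a ∧ ((b, a - 1) : Cell) ∈ P) ∨
        ((a : ℝ) ≤ z 1 ∧ ((b, a) : Cell) ∈ P)) := by
    intro z hz0 hz1 hz1'
    rw [abs_lt] at hz0
    constructor
    · intro hz
      obtain ⟨c, hc, z1, z2, z3, z4⟩ := mem_iUnion₂.1 hz
      have e1 : c.1 = b := by
        have h1 : (c.1 : ℝ) < ((b + 1 : ℤ) : ℝ) := by push_cast; linarith
        have h2 : (b : ℝ) < ((c.1 + 1 : ℤ) : ℝ) := by push_cast; linarith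
        have h1' := Int.cast_lt.1 h1
        have h2' := Int.cast_lt.1 h2
        omega
      have e2 : c.2 = a - 1 ∨ c.2 = a := by
        have h1 : (c.2 : ℝ) < ((a + 1 : ℤ) : ℝ) := by push_cast; linarith
        have h2 : ((a - 1 : ℤ) : ℝ) < ((c.2 + 1 : ℤ) : ℝ) := by push_cast; linarith
        have h1' := Int.cast_lt.1 h1
        have h2' := Int.cast_lt.1 h2
        omega
      rcases e2 with e2 | e2
      · left
        have : c = (b, a - 1) := Prod.ext e1 e2
        rw [this] at hc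
        refine ⟨?_, hc⟩
        rw [e2] at z4; push_cast at z4; linarith
      · right
        have : c = (b, a) := Prod.ext e1 e2
        rw [this] at hc
        refine ⟨?_, hc⟩
        rw [e2] at z3; exact z3
    · rintro (⟨h, hc⟩ | ⟨h, hc⟩)
      · apply square_subset_region hc
        refine ⟨hz1.le, hz1'.le, ?_, ?_⟩
        · push_cast; linarith
        · push_cast; linarith
      · apply square_subset_region hc
        refine ⟨hz1.le, hz1'.le, h, ?_⟩
        linarith
  have hx' := (key x (by rw [ha]; simp) hb hb').1 hx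
  have hboth : ¬ (((b, a - 1) : Cell) ∈ P ∧ ((b, a) : Cell) ∈ P) := by
    rintro ⟨h1, h2⟩
    apply hxi
    apply orect_subset_interior h1 h2 (Or.inr (by simp [Adj]))
    refine ⟨?_, ?_, ?_, ?_⟩
    · simp only [min_self]; exact hb
    · simp only [max_self]; exact hb'
    · simp only []
      rw [min_eq_left (by omega), ha]; push_cast; linarith
    · simp only []
      rw [max_eq_right (by omega), ha]; linarith
  set δ := min (x 0 - b) (b + 1 - x 0) with hδ
  have hδ0 : 0 < δ := lt_min (by linarith) (by linarith)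
  have hδ1 : δ ≤ x 0 - b := min_le_left _ _
  have hδ2 : δ ≤ b + 1 - x 0 := min_le_right _ _
  have hball : ∀ r < δ, ∀ z ∈ closedBall x r, |z 1 - a| < 1 ∧ (b : ℝ) < z 0 ∧ z 0 < b + 1 := by
    intro r hr z hz
    rw [mem_closedBall] at hz
    have h0 := (abs_coord_le_plane z x 1).trans hz
    have h1 := (abs_coord_le_plane z x 0).trans hz
    rw [ha] at h0
    rw [abs_le] at h1
    refine ⟨by linarith, by linarith, by linarith⟩
  refine ⟨δ, hδ0, ?_⟩
  by_cases hL : ((b, a - 1) : Cell) ∈ P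
  · have hR : ((b, a) : Cell) ∉ P := fun h => hboth ⟨hL, h⟩
    right
    intro r hr
    ext z
    constructor
    · rintro ⟨hz, hzb⟩
      obtain ⟨k1, k2, k3⟩ := hball r hr z hzb
      rcases (key z k1 k2 k3).1 hz with h | h
      · exact ⟨hzb, by rw [mem_ofPred_eq, ha]; exact h.1⟩
      · exact absurd h.2 hR
    · rintro ⟨hzb, hz⟩
      obtain ⟨k1, k2, k3⟩ := hball r hr z hzb
      refine ⟨(key z k1 k2 k3).2 (Or.inl ⟨?_, hL⟩), hzb⟩
      rw [mem_ofPred_eq, ha] at hz; exact hz
  · have hR : ((b, a) : Cell) ∈ P := by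
      rcases hx' with h | h
      · exact absurd h.2 hL
      · exact h.2
    left
    intro r hr
    ext z
    constructor
    · rintro ⟨hz, hzb⟩
      obtain ⟨k1, k2, k3⟩ := hball r hr z hzb
      rcases (key z k1 k2 k3).1 hz with h | h
      · exact absurd h.2 hL
      · exact ⟨hzb, by rw [mem_ofPred_eq, ha]; exact h.1⟩
    · rintro ⟨hzb, hz⟩
      obtain ⟨k1, k2, k3⟩ := hball r hr z hzb
      refine ⟨(key z k1 k2 k3).2 (Or.inr ⟨?_, hR⟩), hzb⟩
      rw [mem_ofPred_eq, ha] at hz; exact hz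

/-- Near a boundary point that is not a lattice point, the region is a half-disc: it is convex
and has half the area of the disc. -/
lemma half_boundary {P : Finset Cell} {x : Plane} (hx : x ∈ region P)
    (hxi : x ∉ interior (region P)) (hlat : ¬ ∃ a b : ℤ, x 0 = a ∧ x 1 = b) :
    ∃ δ : ℝ, 0 < δ ∧ ∀ r < δ, Convex ℝ (region P ∩ closedBall x r) ∧
      2 * volume (region P ∩ closedBall x r) = D r := by
  have aux : ∃ (i : Fin 2) (δ : ℝ), 0 < δ ∧
      ((∀ r < δ, region P ∩ closedBall x r = closedBall x r ∩ {z | x i ≤ z i}) ∨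
       (∀ r < δ, region P ∩ closedBall x r = closedBall x r ∩ {z | z i ≤ x i})) := by
    by_cases h0 : ∃ a : ℤ, x 0 = a
    · obtain ⟨a, ha⟩ := h0
      have h1 : ∀ b : ℤ, x 1 ≠ b := fun b hb => hlat ⟨a, b, ha, hb⟩
      obtain ⟨δ, hδ, h⟩ := half_vertical hx hxi ha
        (lt_of_le_of_ne (Int.floor_le (x 1)) (Ne.symm (h1 _))) (Int.lt_floor_add_one (x 1))
      exact ⟨0, δ, hδ, h⟩
    · by_cases h1 : ∃ a : ℤ, x 1 = a
      · obtain ⟨a, ha⟩ := h1
        have h1 : ∀ b : ℤ, x 0 ≠ b := fun b hb => h0 ⟨b, hb⟩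
        obtain ⟨δ, hδ, h⟩ := half_horizontal hx hxi ha
          (lt_of_le_of_ne (Int.floor_le (x 0)) (Ne.symm (h1 _))) (Int.lt_floor_add_one (x 0))
        exact ⟨1, δ, hδ, h⟩
      · exfalso
        obtain ⟨c, hc, x1, x2, x3, x4⟩ := mem_iUnion₂.1 hx
        apply hxi
        apply orect_subset_interior hc hc (Or.inl rfl)
        refine ⟨?_, ?_, ?_, ?_⟩ <;> simp only [min_self, max_self]
        · exact lt_of_le_of_ne x1 (fun h => h0 ⟨c.1, h.symm⟩)
        · exact lt_of_le_of_ne x2 (fun h => h0 ⟨c.1 + 1, by rw [h]; push_cast; rfl⟩)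
        · exact lt_of_le_of_ne x3 (fun h => h1 ⟨c.2, h.symm⟩)
        · exact lt_of_le_of_ne x4 (fun h => h1 ⟨c.2 + 1, by rw [h]; push_cast; rfl⟩)
  obtain ⟨i, δ, hδ, h⟩ := aux
  have hconv1 : Convex ℝ {z : Plane | x i ≤ z i} := by
    intro u hu v hv a b ha hb hab
    have hu' : x i ≤ u i := hu
    have hv' : x i ≤ v i := hv
    show x i ≤ (a • u + b • v) i
    simp only [PiLp.add_apply, PiLp.smul_apply, smul_eq_mul]
    have hl : a * x i + b * x i = x i := by rw [← add_mul, hab, one_mul]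
    linarith [mul_le_mul_of_nonneg_left hu' ha, mul_le_mul_of_nonneg_left hv' hb]
  have hconv2 : Convex ℝ {z : Plane | z i ≤ x i} := by
    intro u hu v hv a b ha hb hab
    have hu' : u i ≤ x i := hu
    have hv' : v i ≤ x i := hv
    show (a • u + b • v) i ≤ x i
    simp only [PiLp.add_apply, PiLp.smul_apply, smul_eq_mul]
    have hl : a * x i + b * x i = x i := by rw [← add_mul, hab, one_mul]
    linarith [mul_le_mul_of_nonneg_left hu' ha, mul_le_mul_of_nonneg_left hv' hb]
  refine ⟨δ, hδ, ?_⟩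
  intro r hr
  rcases h with h | h
  · rw [h r hr]
    exact ⟨(convex_closedBall x r).inter hconv1, (half_disc x r i).1⟩
  · rw [h r hr]
    exact ⟨(convex_closedBall x r).inter hconv2, (half_disc x r i).2⟩

end Pool.Agent.Lib.MP_a49afe_co
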