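import Pool.Agent.Lib.MP_a49afe_co.Lower

/-!
# A surjective piecewise isometry between equal areas is injective on the interior
-/

open MeasureTheory Measure Metric Set
open scoped MeasureTheory ENNReal

namespace Pool.Agent.Lib.MP_a49afe_co

/-- The open box `(0,ℓ)²`. -/
def obox (ℓ : ℝ) : Set Plane := {z | 0 < z 0 ∧ z 0 < ℓ ∧ 0 < z 1 ∧ z 1 < ℓ}

lemma measurableSet_obox (ℓ : ℝ) : MeasurableSet (obox ℓ) := by
  have : obox ℓ = {x : Plane | 0 < x 0} ∩ ({x | x 0 < ℓ} ∩ ({x | 0 < x 1} ∩ {x | x 1 < ℓ})) := by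
    ext x; simp [obox]
  rw [this]
  exact ((isOpen_lt continuous_const (cont_coord 0)).inter
    ((isOpen_lt (cont_coord 0) continuous_const).inter
    ((isOpen_lt continuous_const (cont_coord 1)).inter
    (isOpen_lt (cont_coord 1) continuous_const)))).measurableSet

lemma volume_obox (ℓ : ℝ) : volume (obox ℓ) = ENNReal.ofReal ℓ * ENNReal.ofReal ℓ := by
  have h := volume_box 0 ℓ 0 ℓ
  rw [sub_zero] at h
  rw [← h]
  apply le_antisymm
  · apply measure_mono
    rintro z ⟨h1, h2, h3, h4⟩
    exact ⟨h1.le, h2.le, h3.le, h4.le⟩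
  · calc volume {z : Plane | 0 ≤ z 0 ∧ z 0 ≤ ℓ ∧ 0 ≤ z 1 ∧ z 1 ≤ ℓ}
        ≤ volume (obox ℓ ∪ ({z : Plane | z 0 = 0} ∪ ({z | z 0 = ℓ} ∪ ({z | z 1 = 0} ∪
          {z | z 1 = ℓ})))) := by
          apply measure_mono
          rintro z ⟨h1, h2, h3, h4⟩
          by_contra hcon
          simp only [mem_union, mem_ofPred_eq, not_or] at hcon
          apply hcon.1
          exact ⟨lt_of_le_of_ne h1 (Ne.symm hcon.2.1), lt_of_le_of_ne h2 hcon.2.2.1,
            lt_of_le_of_ne h3 (Ne.symm hcon.2.2.2.1), lt_of_le_of_ne h4 hcon.2.2.2.2⟩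
      _ ≤ volume (obox ℓ) + volume ({z : Plane | z 0 = 0} ∪ ({z | z 0 = ℓ} ∪
          ({z | z 1 = 0} ∪ {z | z 1 = ℓ}))) := measure_union_le _ _
      _ = volume (obox ℓ) := by
          have : volume ({z : Plane | z 0 = 0} ∪ ({z | z 0 = ℓ} ∪
            ({z | z 1 = 0} ∪ {z | z 1 = ℓ}))) = 0 := by
            simp only [measure_union_null_iff]
            exact ⟨volume_line 0 _, volume_line 0 _, volume_line 1 _, volume_line 1 _⟩
          rw [this, add_zero]

/-- The area of the surface of the cube is at least `6ℓ²`. -/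
lemma area_cubeSurface_ge {ℓ : ℝ} (hℓ : 0 < ℓ) :
    6 * (ENNReal.ofReal ℓ * ENNReal.ofReal ℓ) ≤ μHE[2] (cubeSurface ℓ) := by
  classical
  -- the six open faces
  let t : Fin 3 × Bool → ℝ := fun p => if p.2 then ℓ else 0
  let v : Fin 3 × Bool → Space := fun p => EuclideanSpace.single p.1 (t p)
  let φ : Fin 3 × Bool → Plane → Space := fun p => phi (v p) (fun _ => 1) p.1 (p.1 + 1)
  have hne : ∀ m : Fin 3, m ≠ m + 1 := by decide
  have hne2 : ∀ m : Fin 3, m ≠ m + 2 := by decide
  have hne3 : ∀ m : Fin 3, m + 1 ≠ m + 2 := by decide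
  have hiso : ∀ p S, IsoOn (φ p) S := fun p S =>
    phi_isoOn (v p) (fun _ => Or.inl rfl) (hne p.1) S
  have c0 : ∀ p w, φ p w p.1 = t p := by
    intro p w
    simp only [φ]
    rw [phi_m]
    simp [v]
  have c1 : ∀ p w, φ p w (p.1 + 1) = w 0 := by
    intro p w
    simp only [φ]
    rw [phi_j _ _ (hne p.1)]
    simp [v, (hne p.1).symm]
  have c2 : ∀ p w, φ p w (p.1 + 2) = w 1 := by
    intro p w
    simp only [φ]
    rw [phi_k _ _ (hne2 p.1) (hne3 p.1)]
    simp [v, (hne2 p.1).symm]
  have ht : ∀ p, t p = 0 ∨ t p = ℓ := by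
    intro p
    by_cases h : p.2 = true
    · right; simp [t, h]
    · left; simp [t, h]
  have hcoord : ∀ p, ∀ x ∈ φ p '' obox ℓ, x p.1 = t p ∧ ∀ n, n ≠ p.1 → 0 < x n ∧ x n < ℓ := by
    rintro p _ ⟨w, hw, rfl⟩
    refine ⟨c0 p w, ?_⟩
    intro n hn
    rcases fin3_cases (hne p.1) (hne2 p.1) (hne3 p.1) n with h | h | h
    · exact absurd h hn
    · rw [h, c1]; exact ⟨hw.1, hw.2.1⟩
    · rw [h, c2]; exact ⟨hw.2.2.1, hw.2.2.2⟩
  have hmeas : ∀ p, MeasurableSet (φ p '' obox ℓ) := fun p =>
    (measurableSet_obox ℓ).image_of_continuousOn_injOn (hiso p _).continuousOn (hiso p _).injOn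
  have hdisj : Set.PairwiseDisjoint (↑(Finset.univ : Finset (Fin 3 × Bool)))
      (fun p => φ p '' obox ℓ) := by
    intro p _ p' _ hpp
    show Disjoint (φ p '' obox ℓ) (φ p' '' obox ℓ)
    rw [Set.disjoint_left]
    intro x hx hx'
    obtain ⟨h1, h2⟩ := hcoord p x hx
    obtain ⟨h1', h2'⟩ := hcoord p' x hx'
    by_cases h : p.1 = p'.1
    · have hb : p.2 ≠ p'.2 := fun hb => hpp (Prod.ext h hb)
      rw [h, h1'] at h1
      apply hb
      by_contra _
      cases hp2 : p.2 <;> cases hp2' : p'.2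
      · exact hb (hp2.trans hp2'.symm)
      · simp [t, hp2, hp2'] at h1; exact hℓ.ne' h1
      · simp [t, hp2, hp2'] at h1; exact hℓ.ne h1
      · exact hb (hp2.trans hp2'.symm)
    · have := h2' p.1 h
      rcases ht p with h0 | h0 <;> rw [h1, h0] at this
      · exact lt_irrefl _ this.1
      · exact lt_irrefl _ this.2
  have hsub : ⋃ p ∈ (Finset.univ : Finset (Fin 3 × Bool)), φ p '' obox ℓ ⊆ cubeSurface ℓ := by
    intro x hx
    obtain ⟨p, _, hxp⟩ := mem_iUnion₂.1 hx
    obtain ⟨h1, h2⟩ := hcoord p x hxp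
    refine ⟨?_, p.1, ?_⟩
    · intro n
      by_cases h : n = p.1
      · rw [h, h1]
        rcases ht p with h0 | h0 <;> rw [h0]
        · exact ⟨le_refl _, hℓ.le⟩
        · exact ⟨hℓ.le, le_refl _⟩
      · exact ⟨(h2 n h).1.le, (h2 n h).2.le⟩
    · rw [h1]; exact ht p
  have hvol : ∀ p, μHE[2] (φ p '' obox ℓ) = ENNReal.ofReal ℓ * ENNReal.ofReal ℓ := by
    intro p
    rw [(hiso p _).measure_image, EuclideanSpace.euclideanHausdorffMeasure_eq_volume, volume_obox]
  calc 6 * (ENNReal.ofReal ℓ * ENNReal.ofReal ℓ)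
      = ∑ p ∈ (Finset.univ : Finset (Fin 3 × Bool)), μHE[2] (φ p '' obox ℓ) := by
        rw [Finset.sum_congr rfl (fun p _ => hvol p), Finset.sum_const, Finset.card_univ]
        simp
    _ = μHE[2] (⋃ p ∈ (Finset.univ : Finset (Fin 3 × Bool)), φ p '' obox ℓ) :=
        (measure_biUnion_finset hdisj (fun p _ => hmeas p)).symm
    _ ≤ μHE[2] (cubeSurface ℓ) := measure_mono hsub

lemma volume_square (c : Cell) : volume (square c) = 1 := by
  have h : square c = {z : Plane | (c.1 : ℝ) ≤ z 0 ∧ z 0 ≤ c.1 + 1 ∧ (c.2 : ℝ) ≤ z 1 ∧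
    z 1 ≤ c.2 + 1} := rfl
  rw [h, volume_box]
  simp

lemma volume_region_le (P : Finset Cell) : volume (region P) ≤ P.card := by
  calc volume (region P) ≤ ∑ c ∈ P, volume (square c) := measure_biUnion_finset_le P _
    _ = P.card := by simp [volume_square]

/-- The data of a folding map, without injectivity. -/
structure PreFold (P : Finset Cell) (ℓ : ℝ) (f : Plane → Space) (𝒯 : Set (Set Plane)) : Prop where
  fin : 𝒯.Finite
  closed : ∀ T ∈ 𝒯, IsCompact T
  cover : ⋃₀ 𝒯 = region P
  iso : ∀ T ∈ 𝒯, IsoOn f T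
  image : f '' region P = cubeSurface ℓ

lemma PreFold.injOn {P : Finset Cell} {ℓ : ℝ} {f : Plane → Space} {𝒯 : Set (Set Plane)}
    (h : PreFold P ℓ f 𝒯) (hℓ : 0 < ℓ) (hcard : (P.card : ℝ) ≤ 6 * ℓ ^ 2) :
    InjOn f (interior (region P)) := by
  intro x hx y hy hxy
  by_contra hne
  have hq : f x ∈ cubeSurface ℓ := by
    rw [← h.image]; exact mem_image_of_mem f (interior_subset hx)
  obtain ⟨δ, hδ, hle⟩ := area_le hℓ hq
  obtain ⟨ε1, hε1, hb1⟩ := Metric.isOpen_iff.1 isOpen_interior x hx
  obtain ⟨ε2, hε2, hb2⟩ := Metric.isOpen_iff.1 isOpen_interior y hy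
  have hd : 0 < dist x y := dist_pos.2 hne
  set r := min (min ε1 ε2) (min δ (dist x y)) / 3 with hr
  have hm : 0 < min (min ε1 ε2) (min δ (dist x y)) := lt_min (lt_min hε1 hε2) (lt_min hδ hd)
  have hr0 : 0 < r := by positivity
  have b1 : min (min ε1 ε2) (min δ (dist x y)) ≤ ε1 := (min_le_left _ _).trans (min_le_left _ _)
  have b2 : min (min ε1 ε2) (min δ (dist x y)) ≤ ε2 := (min_le_left _ _).trans (min_le_right _ _)
  have b3 : min (min ε1 ε2) (min δ (dist x y)) ≤ δ := (min_le_right _ _).trans (min_le_left _ _)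
  have b4 : min (min ε1 ε2) (min δ (dist x y)) ≤ dist x y :=
    (min_le_right _ _).trans (min_le_right _ _)
  have hsx : closedBall x r ⊆ region P :=
    (closedBall_subset_ball (by linarith)).trans (hb1.trans interior_subset)
  have hsy : closedBall y r ⊆ region P :=
    (closedBall_subset_ball (by linarith)).trans (hb2.trans interior_subset)
  have hlip : ∀ (c : Plane), closedBall c r ⊆ region P → ∀ z ∈ closedBall c r,
      dist (f z) (f c) ≤ r := by
    intro c hc z hz
    have := lip_convex h.fin (fun T hT => (h.closed T hT).isClosed) (convex_closedBall c r)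
      (by rw [h.cover]; exact hc) (fun T hT => (h.iso T hT).mono inter_subset_left) hz
      (mem_closedBall_self hr0.le)
    exact this.trans hz
  set A := closedBall x r ∪ closedBall y r with hA
  have hAm : MeasurableSet A := measurableSet_closedBall.union measurableSet_closedBall
  have hAsub : A ⊆ region P := union_subset hsx hsy
  have hfA : f '' A ⊆ cubeSurface ℓ ∩ closedBall (f x) r := by
    rintro _ ⟨z, hz, rfl⟩
    refine ⟨by rw [← h.image]; exact mem_image_of_mem f (hAsub hz), ?_⟩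
    rw [mem_closedBall]
    rcases hz with hz | hz
    · exact hlip x hsx z hz
    · rw [hxy]; exact hlip y hsy z hz
  have hfAle : μHE[2] (f '' A) ≤ D r := (measure_mono hfA).trans (hle r hr0.le (by linarith))
  have hdisj : Disjoint (closedBall x r) (closedBall y r) := by
    rw [Set.disjoint_left]
    intro z hz1 hz2
    rw [mem_closedBall] at hz1 hz2
    have := dist_triangle x z y
    rw [dist_comm x z] at this
    linarith
  have hvA : volume A = D r + D r := by
    rw [hA, measure_union hdisj measurableSet_closedBall, volume_closedBall_eq,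
      volume_closedBall_eq]
  have hcomp : ∀ B : Set Plane, B ⊆ region P → μHE[2] (f '' B) ≤ volume B := by
    intro B hB
    rw [← EuclideanSpace.euclideanHausdorffMeasure_eq_volume]
    exact pw_measure_le h.fin (fun T hT => (h.closed T hT).isClosed.measurableSet)
      (by rw [h.cover]; exact hB) (fun T hT => (h.iso T hT).mono inter_subset_left)
  have h1 : μHE[2] (cubeSurface ℓ) ≤ D r + volume (region P \ A) := by
    rw [← h.image]
    calc μHE[2] (f '' region P) ≤ μHE[2] (f '' A ∪ f '' (region P \ A)) := by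
          apply measure_mono
          rw [← image_union]
          apply image_mono
          intro z hz
          by_cases hzA : z ∈ A
          · exact Or.inl hzA
          · exact Or.inr ⟨hz, hzA⟩
      _ ≤ μHE[2] (f '' A) + μHE[2] (f '' (region P \ A)) := measure_union_le _ _
      _ ≤ D r + volume (region P \ A) := add_le_add hfAle (hcomp _ sdiff_subset)
  have hRfin : volume (region P) ≠ ⊤ :=
    ((volume_region_le P).trans_lt (ENNReal.natCast_lt_top _)).ne
  have h2 : volume (region P \ A) + (D r + D r) = volume (region P) := by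
    rw [← hvA, add_comm]
    have := measure_inter_add_sdiff (μ := volume) (region P) hAm
    rwa [inter_eq_self_of_subset_right hAsub] at this
  have h3 : volume (region P) ≤ μHE[2] (cubeSurface ℓ) := by
    calc volume (region P) ≤ P.card := volume_region_le P
      _ = ENNReal.ofReal (P.card : ℝ) := (ENNReal.ofReal_natCast _).symm
      _ ≤ ENNReal.ofReal (6 * ℓ ^ 2) := ENNReal.ofReal_le_ofReal hcard
      _ = 6 * (ENNReal.ofReal ℓ * ENNReal.ofReal ℓ) := by
          rw [ENNReal.ofReal_mul (by norm_num), sq, ENNReal.ofReal_mul hℓ.le]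
          norm_num
      _ ≤ μHE[2] (cubeSurface ℓ) := area_cubeSurface_ge hℓ
  have h4 : volume (region P \ A) + (D r + D r) ≤ volume (region P \ A) + D r := by
    rw [h2, add_comm _ (D r)]
    exact h3.trans h1
  have hRA : volume (region P \ A) ≠ ⊤ :=
    ((measure_mono sdiff_subset).trans_lt (lt_top_iff_ne_top.2 hRfin)).ne
  have h5 := (ENNReal.add_le_add_iff_left hRA).1 h4
  have h6 : D r + D r ≤ D r + 0 := by rwa [add_zero]
  have h7 := (ENNReal.add_le_add_iff_left (D_ne_top r)).1 h6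
  exact absurd h7 (not_le.2 (D_pos hr0))

end Pool.Agent.Lib.MP_a49afe_co
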