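import Pool.Agent.Lib.MP_a49afe_co.Basic

/-!
# Injective piecewise isometries of planar discs are isometries
-/

open MeasureTheory Measure Metric Set
open scoped MeasureTheory ENNReal RealInnerProductSpace

namespace Pool.Agent.Lib.MP_a49afe_co

/-- An injective piecewise isometry of a disc into the plane is an isometry on a smaller disc. -/
lemma local_isometry {F : Plane → Plane} {p : Plane} {r : ℝ} (hinj : InjOn F (ball p r))
    {𝒯 : Set (Set Plane)} (hfin : 𝒯.Finite) (hcl : ∀ T ∈ 𝒯, IsClosed T)
    (hcov : ball p r ⊆ ⋃₀ 𝒯) (hiso : ∀ T ∈ 𝒯, IsoOn F (T ∩ ball p r)) :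
    IsoOn F (ball p (r / 4)) := by
  have lip : ∀ x ∈ ball p r, ∀ y ∈ ball p r, dist (F x) (F y) ≤ dist x y := fun x hx y hy =>
    lip_convex hfin hcl (convex_ball p r) hcov hiso hx hy
  have claim : ∀ (x : Plane) (s : ℝ), 0 ≤ s → closedBall x s ⊆ ball p r →
      ball (F x) s ⊆ F '' closedBall x s := by
    intro x s hs hsub
    have hx : x ∈ closedBall x s := mem_closedBall_self hs
    have hcont : ContinuousOn F (closedBall x s) := by
      have : LipschitzOnWith 1 F (closedBall x s) := by
        apply LipschitzOnWith.of_dist_le_mul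
        intro a ha b hb
        simpa using lip a (hsub ha) b (hsub hb)
      exact this.continuousOn
    have hK : IsCompact (F '' closedBall x s) := (isCompact_closedBall x s).image_of_continuousOn hcont
    have hKsub : F '' closedBall x s ⊆ closedBall (F x) s := by
      rintro _ ⟨a, ha, rfl⟩
      rw [mem_closedBall]
      exact (lip a (hsub ha) x (hsub hx)).trans ha
    have hm : μHE[2] (F '' closedBall x s) = μHE[2] (closedBall x s) := by
      apply pw_measure_eq hfin (fun T hT => (hcl T hT).measurableSet) measurableSet_closedBall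
        (hsub.trans hcov) (fun T hT => (hiso T hT).mono (inter_subset_inter_right _ hsub))
        (hinj.mono hsub)
    rw [EuclideanSpace.euclideanHausdorffMeasure_eq_volume] at hm
    have hm2 : volume (closedBall x s) = volume (closedBall (F x) s) := by
      rw [Measure.addHaar_closedBall_center, Measure.addHaar_closedBall_center volume (F x)]
    have hfinm : volume (F '' closedBall x s) ≠ ⊤ := hK.measure_lt_top.ne
    have h0 : volume (closedBall (F x) s \ F '' closedBall x s) = 0 := by
      rw [measure_sdiff hKsub hK.measurableSet.nullMeasurableSet hfinm, hm, hm2]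
      simp
    have hopen : IsOpen (ball (F x) s \ F '' closedBall x s) := isOpen_ball.sdiff hK.isClosed
    have h1 : volume (ball (F x) s \ F '' closedBall x s) = 0 :=
      measure_mono_null (sdiff_subset_sdiff_left ball_subset_closedBall) h0
    have h2 := (hopen.measure_eq_zero_iff volume).1 h1
    rwa [sdiff_eq_empty] at h2
  intro x hx y hy
  have hx' : dist x p < r / 4 := hx
  have hy' : dist y p < r / 4 := hy
  have hr : 0 < r := by linarith [dist_nonneg (x := x) (y := p)]
  have hxr : x ∈ ball p r := by rw [mem_ball]; linarith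
  have hyr : y ∈ ball p r := by rw [mem_ball]; linarith
  refine le_antisymm (lip x hxr y hyr) ?_
  by_contra hlt
  push Not at hlt
  have hd : dist x y < r / 2 := by
    calc dist x y ≤ dist x p + dist p y := dist_triangle _ _ _
      _ < r / 4 + r / 4 := by rw [dist_comm p y]; linarith
      _ = r / 2 := by ring
  obtain ⟨s, hs1, hs2⟩ := exists_between (show dist (F x) (F y) / 2 < dist x y / 2 by linarith)
  have hs0 : 0 ≤ s := by linarith [dist_nonneg (x := F x) (y := F y)]
  have hbx : closedBall x s ⊆ ball p r := by
    intro z hz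
    rw [mem_closedBall] at hz
    rw [mem_ball]
    linarith [dist_triangle z x p]
  have hby : closedBall y s ⊆ ball p r := by
    intro z hz
    rw [mem_closedBall] at hz
    rw [mem_ball]
    linarith [dist_triangle z y p]
  have hmx : midpoint ℝ (F x) (F y) ∈ ball (F x) s := by
    rw [mem_ball, dist_midpoint_left]
    simp only [Real.norm_ofNat]
    linarith
  have hmy : midpoint ℝ (F x) (F y) ∈ ball (F y) s := by
    rw [mem_ball, dist_midpoint_right]
    simp only [Real.norm_ofNat]
    linarith
  obtain ⟨a, ha, hFa⟩ := claim x s hs0 hbx hmx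
  obtain ⟨b, hb, hFb⟩ := claim y s hs0 hby hmy
  have hab : a = b := hinj (hbx ha) (hby hb) (hFa.trans hFb.symm)
  subst hab
  rw [mem_closedBall] at ha hb
  have := dist_triangle x a y
  rw [dist_comm x a] at this
  linarith

/-- An isometric map of a planar disc extends to a rigid motion. -/
lemma exists_affine {F : Plane → Plane} {p : Plane} {ρ : ℝ} (hρ : 0 < ρ)
    (h : IsoOn F (ball p ρ)) :
    ∃ L : Plane ≃ₗᵢ[ℝ] Plane, ∀ x ∈ ball p ρ, F x = F p + L (x - p) := by
  have hp : p ∈ ball p ρ := mem_ball_self hρ
  have key : ∀ x ∈ ball p ρ, ∀ y ∈ ball p ρ, ⟪F x - F p, F y - F p⟫ = ⟪x - p, y - p⟫ := by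
    intro x hx y hy
    have h1 : ‖F x - F p‖ = ‖x - p‖ := by
      rw [← dist_eq_norm, ← dist_eq_norm]; exact h x hx p hp
    have h2 : ‖F y - F p‖ = ‖y - p‖ := by
      rw [← dist_eq_norm, ← dist_eq_norm]; exact h y hy p hp
    have h3 : ‖(F x - F p) - (F y - F p)‖ = ‖(x - p) - (y - p)‖ := by
      rw [sub_sub_sub_cancel_right, sub_sub_sub_cancel_right, ← dist_eq_norm, ← dist_eq_norm]
      exact h x hx y hy
    have e1 := norm_sub_sq_real (F x - F p) (F y - F p)
    have e2 := norm_sub_sq_real (x - p) (y - p)
    rw [h3, h1, h2] at e1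
    linarith
  set s : ℝ := ρ / 2 with hs
  have hs0 : 0 < s := by positivity
  let e : Fin 2 → Plane := fun i => EuclideanSpace.single i (1 : ℝ)
  have hmem : ∀ i, p + s • e i ∈ ball p ρ := by
    intro i
    rw [mem_ball, dist_eq_norm, add_sub_cancel_left, norm_smul]
    simp only [e, PiLp.norm_single, Real.norm_eq_abs, abs_of_pos hs0]
    norm_num
    linarith
  let a : Fin 2 → Plane := fun i => s⁻¹ • (F (p + s • e i) - F p)
  have ha : Orthonormal ℝ a := by
    rw [orthonormal_iff_ite]
    intro i j
    simp only [a, inner_smul_left, inner_smul_right]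
    rw [key _ (hmem i) _ (hmem j), add_sub_cancel_left, add_sub_cancel_left, inner_smul_left,
      inner_smul_right]
    have : ⟪e i, e j⟫ = if i = j then (1 : ℝ) else 0 := by
      simp only [e, EuclideanSpace.inner_single_left, map_one, one_mul]
      rw [PiLp.single_apply]
    rw [this]
    simp only [conj_trivial]
    split_ifs
    · field_simp
    · simp
  let b : OrthonormalBasis (Fin 2) ℝ Plane :=
    (basisOfOrthonormalOfCardEqFinrank ha (by simp)).toOrthonormalBasis (by simpa using ha)
  have hb : ∀ i, b i = a i := by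
    intro i
    simp [b]
  refine ⟨b.repr.symm, ?_⟩
  intro x hx
  have : b.repr (F x - F p) = x - p := by
    ext i
    rw [OrthonormalBasis.repr_apply_apply, hb]
    simp only [a, inner_smul_left, conj_trivial]
    rw [key _ (hmem i) _ hx, add_sub_cancel_left, inner_smul_left]
    simp only [e, EuclideanSpace.inner_single_left, map_one, one_mul, conj_trivial]
    field_simp
  rw [← this, LinearIsometryEquiv.symm_apply_apply]
  abel

end Pool.Agent.Lib.MP_a49afe_co
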