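import Pool.Agent.Lib.MP_a49afe_co.Half

/-!
# A polyomino net of a cube of edge `√k` forces `k` to be a sum of two squares
-/

open MeasureTheory Measure Metric Set
open scoped MeasureTheory ENNReal

namespace Pool.Agent.Lib.MP_a49afe_co

/-- The data of a folding map. -/
structure Fold (P : Finset Cell) (ℓ : ℝ) (f : Plane → Space) (𝒯 : Set (Set Plane)) : Prop where
  fin : 𝒯.Finite
  closed : ∀ T ∈ 𝒯, IsCompact T
  cover : ⋃₀ 𝒯 = region P
  iso : ∀ T ∈ 𝒯, IsoOn f T
  cont : ContinuousOn f (region P)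
  image : f '' region P = cubeSurface ℓ
  inj : InjOn f (interior (region P))

lemma IsCubeNet.exists_fold {P : Finset Cell} {ℓ : ℝ} (h : IsCubeNet P ℓ) :
    ∃ f 𝒯, Fold P ℓ f 𝒯 := by
  obtain ⟨f, 𝒯, h1, h2, h3, h4, h5, h6, h7⟩ := h
  exact ⟨f, 𝒯, h1, fun T hT => (h2 T hT).isCompact, h3, h4, h5, h6, h7⟩

variable {P : Finset Cell} {ℓ : ℝ} {f : Plane → Space} {𝒯 : Set (Set Plane)}

lemma Fold.mem (h : Fold P ℓ f 𝒯) {x : Plane} (hx : x ∈ region P) : f x ∈ cubeSurface ℓ := by
  rw [← h.image]; exact mem_image_of_mem f hx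

lemma Fold.lip (h : Fold P ℓ f 𝒯) {S : Set Plane} (hS : Convex ℝ S) (hSP : S ⊆ region P)
    {x y : Plane} (hx : x ∈ S) (hy : y ∈ S) : dist (f x) (f y) ≤ dist x y :=
  lip_convex h.fin (fun T hT => (h.closed T hT).isClosed) hS (by rw [h.cover]; exact hSP)
    (fun T hT => (h.iso T hT).mono inter_subset_left) hx hy

lemma Fold.measure_le (h : Fold P ℓ f 𝒯) {A : Set Plane} (hA : A ⊆ region P) :
    μHE[2] (f '' A) ≤ volume A := by
  rw [← EuclideanSpace.euclideanHausdorffMeasure_eq_volume]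
  exact pw_measure_le h.fin (fun T hT => (h.closed T hT).isClosed.measurableSet)
    (by rw [h.cover]; exact hA) (fun T hT => (h.iso T hT).mono inter_subset_left)

lemma Fold.measure_eq (h : Fold P ℓ f 𝒯) {A : Set Plane} (hAm : MeasurableSet A)
    (hA : A ⊆ region P) (hinj : InjOn f A) : μHE[2] (f '' A) = volume A := by
  rw [← EuclideanSpace.euclideanHausdorffMeasure_eq_volume]
  exact pw_measure_eq h.fin (fun T hT => (h.closed T hT).isClosed.measurableSet) hAm
    (by rw [h.cover]; exact hA) (fun T hT => (h.iso T hT).mono inter_subset_left) hinj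

lemma three_lt_four {V D' : ℝ≥0∞} (h4 : 4 * V = D') (hD : 0 < D') (hD' : D' ≠ ⊤) :
    3 * V < D' := by
  have hV : V ≠ ⊤ := by
    rintro rfl
    apply hD'
    rw [← h4]
    exact ENNReal.mul_top (by norm_num)
  have hV0 : V ≠ 0 := by
    rintro rfl
    simp at h4
    exact hD.ne h4
  rw [← h4]
  rw [ENNReal.mul_lt_mul_iff_left hV0 hV]
  norm_num

/-- Interior points are not mapped to vertices. -/
lemma Fold.not_vertex (h : Fold P ℓ f 𝒯) {x : Plane} (hx : x ∈ interior (region P)) :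
    ¬ ∀ m, f x m = 0 ∨ f x m = ℓ := by
  intro hv
  obtain ⟨δ, hδ, hle⟩ := area_vertex_le hv
  obtain ⟨ε, hε, hball⟩ := Metric.isOpen_iff.1 isOpen_interior x hx
  set r := min δ ε / 2 with hr
  have hm : 0 < min δ ε := lt_min hδ hε
  have hr0 : 0 < r := by positivity
  have hrδ : r < δ := by linarith [min_le_left δ ε]
  have hrε : r < ε := by linarith [min_le_right δ ε]
  have hsub : closedBall x r ⊆ interior (region P) :=
    (closedBall_subset_ball hrε).trans hball
  have hsub' : closedBall x r ⊆ region P := hsub.trans interior_subset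
  have h1 : μHE[2] (f '' closedBall x r) = D r := by
    rw [h.measure_eq measurableSet_closedBall hsub' (h.inj.mono hsub), volume_closedBall_eq]
  have h2 : f '' closedBall x r ⊆ cubeSurface ℓ ∩ closedBall (f x) r := by
    rintro _ ⟨z, hz, rfl⟩
    refine ⟨h.mem (hsub' hz), ?_⟩
    rw [mem_closedBall]
    exact (h.lip (convex_closedBall x r) hsub' hz (mem_closedBall_self hr0.le)).trans hz
  have h3 := (measure_mono h2).trans (hle r hr0.le hrδ)
  rw [h1] at h3
  exact absurd h3 (not_le.2 (three_lt_four (four_K r) (D_pos hr0) (D_ne_top r)))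

/-- Local development. -/
lemma Fold.local_dev (h : Fold P ℓ f 𝒯) (hℓ : 0 < ℓ) {p : Plane}
    (hp : p ∈ interior (region P)) :
    ∃ (ρ : ℝ) (w : Plane) (L : Plane ≃ₗᵢ[ℝ] Plane), 0 < ρ ∧
      ∀ x ∈ ball p ρ, H3 ℓ (f x) = H2 ℓ (w + L (x - p)) := by
  have hv := h.not_vertex hp
  push Not at hv
  obtain ⟨k, hk0, hkl⟩ := hv
  obtain ⟨U, A, B, δ, hA, hB, iA, iB, inj, hδ, hcov, hH⟩ :=
    exists_unfold hℓ (h.mem (interior_subset hp)) hk0 hkl
  obtain ⟨ε, hε, hball⟩ := Metric.isOpen_iff.1 isOpen_interior p hp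
  set r := min δ ε with hr
  have hr0 : 0 < r := lt_min hδ hε
  have hsub : ball p r ⊆ interior (region P) := (ball_subset_ball (min_le_right _ _)).trans hball
  have hsub' : ball p r ⊆ region P := hsub.trans interior_subset
  have hAB : ∀ x ∈ ball p r, f x ∈ A ∪ B := by
    intro x hx
    have h1 : dist (f x) (f p) < δ := by
      calc dist (f x) (f p) ≤ dist x p := h.lip (convex_ball p r) hsub' hx (mem_ball_self hr0)
        _ < r := hx
        _ ≤ δ := min_le_left _ _
    rcases hcov (f x) (h.mem (hsub' hx)) h1 with h | h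
    · exact Or.inl h.1
    · exact Or.inr h.1
  have hiso : IsoOn (fun x => U (f x)) (ball p (r / 4)) := by
    apply local_isometry (𝒯 := (fun T => T ∩ f ⁻¹' A) '' 𝒯 ∪ (fun T => T ∩ f ⁻¹' B) '' 𝒯)
    · intro x hx y hy hxy
      exact h.inj (hsub hx) (hsub hy) (inj (hAB x hx) (hAB y hy) hxy)
    · exact (h.fin.image _).union (h.fin.image _)
    · rintro T (⟨T, hT, rfl⟩ | ⟨T, hT, rfl⟩)
      · exact (h.iso T hT).continuousOn.preimage_isClosed_of_isClosed (h.closed T hT).isClosed hA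
      · exact (h.iso T hT).continuousOn.preimage_isClosed_of_isClosed (h.closed T hT).isClosed hB
    · intro x hx
      have hxP := hsub' hx
      rw [← h.cover] at hxP
      obtain ⟨T, hT, hxT⟩ := hxP
      rcases hAB x hx with hx' | hx'
      · exact ⟨T ∩ f ⁻¹' A, Or.inl ⟨T, hT, rfl⟩, hxT, hx'⟩
      · exact ⟨T ∩ f ⁻¹' B, Or.inr ⟨T, hT, rfl⟩, hxT, hx'⟩
    · rintro T (⟨T, hT, rfl⟩ | ⟨T, hT, rfl⟩)
      · intro x hx y hy
        rw [← h.iso T hT x hx.1.1 y hy.1.1]
        exact iA _ hx.1.2 _ hy.1.2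
      · intro x hx y hy
        rw [← h.iso T hT x hx.1.1 y hy.1.1]
        exact iB _ hx.1.2 _ hy.1.2
  obtain ⟨L, hL⟩ := exists_affine (by positivity) hiso
  refine ⟨r / 4, U (f p), L, by positivity, ?_⟩
  intro x hx
  have hxr : x ∈ ball p r := by
    rw [mem_ball] at *
    linarith
  rw [← hL x hx]
  exact (hH (f x) (hAB x hxr)).symm

lemma analytic_H2 (ℓ : ℝ) (w p : Plane) (L : Plane ≃ₗᵢ[ℝ] Plane) :
    AnalyticOnNhd ℝ (fun x => H2 ℓ (w + L (x - p))) univ := by
  intro x _
  have hL : ∀ i : Fin 2, AnalyticAt ℝ (fun x : Plane => (w + L (x - p)) i) x := by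
    intro i
    have h1 : AnalyticAt ℝ (fun x : Plane => w + L (x - p)) x := by
      apply AnalyticAt.add analyticAt_const
      exact (L.toContinuousLinearEquiv.toContinuousLinearMap.analyticAt _).comp
        (analyticAt_id.sub analyticAt_const)
    exact ((EuclideanSpace.proj (𝕜 := ℝ) i).analyticAt _).comp h1
  unfold H2
  apply AnalyticAt.add
  · exact Real.analyticAt_cos.comp ((analyticAt_const).mul ((hL 0).div_const))
  · exact Real.analyticAt_cos.comp ((analyticAt_const).mul ((hL 1).div_const))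

lemma continuous_H2 (ℓ : ℝ) (w p : Plane) (L : Plane ≃ₗᵢ[ℝ] Plane) :
    Continuous (fun x => H2 ℓ (w + L (x - p))) := by
  rw [← continuousOn_univ]
  exact (analytic_H2 ℓ w p L).continuousOn

/-- Global development. -/
lemma Fold.global_dev (h : Fold P ℓ f 𝒯) (hℓ : 0 < ℓ) (hP : IsPolyomino P) :
    ∃ (w p : Plane) (L : Plane ≃ₗᵢ[ℝ] Plane),
      ∀ x ∈ region P, H3 ℓ (f x) = H2 ℓ (w + L (x - p)) := by
  obtain ⟨c, hc⟩ := hP.1
  have hp : centre c ∈ interior (region P) :=
    orect_subset_interior hc hc (Or.inl rfl) (centre_mem c c)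
  obtain ⟨ρ, w, L, hρ, hdev⟩ := h.local_dev hℓ hp
  refine ⟨w, centre c, L, ?_⟩
  have han : AnalyticOnNhd ℝ (fun x => H3 ℓ (f x)) (interior (region P)) := by
    intro q hq
    obtain ⟨ρ', w', L', hρ', hdev'⟩ := h.local_dev hℓ hq
    apply (analytic_H2 ℓ w' q L' q (mem_univ _)).congr
    filter_upwards [ball_mem_nhds q hρ'] with x hx
    exact (hdev' x hx).symm
  have heq : EqOn (fun x => H3 ℓ (f x)) (fun x => H2 ℓ (w + L (x - centre c)))
      (interior (region P)) := by
    apply han.eqOn_of_preconnected_of_eventuallyEq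
      ((analytic_H2 ℓ w (centre c) L).mono (subset_univ _)) (isPreconnected_interior hP) hp
    filter_upwards [ball_mem_nhds (centre c) hρ] with x hx
    exact hdev x hx
  have hcont3 : Continuous (H3 ℓ) := by
    unfold H3
    fun_prop
  have := heq.of_subset_closure (hcont3.comp_continuousOn h.cont)
    (continuous_H2 ℓ w (centre c) L).continuousOn interior_subset
    (region_subset_closure_interior P)
  exact this

/-- Every vertex of the cube is the image of a lattice point. -/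
lemma Fold.exists_lattice (h : Fold P ℓ f 𝒯) (hℓ : 0 < ℓ) {v : Space}
    (hv : ∀ m, v m = 0 ∨ v m = ℓ) :
    ∃ x ∈ region P, f x = v ∧ ∃ a b : ℤ, x 0 = a ∧ x 1 = b := by
  by_contra hcon
  push Not at hcon
  have hvs : v ∈ cubeSurface ℓ := by
    refine ⟨?_, 0, hv 0⟩
    intro i
    rcases hv i with h | h <;> rw [h]
    · exact ⟨le_refl _, hℓ.le⟩
    · exact ⟨hℓ.le, le_refl _⟩
  have hnl : ∀ x ∈ region P, f x = v → ¬ ∃ a b : ℤ, x 0 = a ∧ x 1 = b := by
    rintro x hx hfx ⟨a, b, ha, hb⟩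
    exact hcon x hx hfx a b ha hb
  have hni : ∀ x ∈ region P, f x = v → x ∉ interior (region P) := by
    intro x _ hfx hxi
    apply h.not_vertex hxi
    rw [hfx]
    exact hv
  obtain ⟨x, hx, hfx⟩ : ∃ x ∈ region P, f x = v := by
    rw [← h.image] at hvs
    exact hvs
  obtain ⟨δx, hδx, hhx⟩ := half_boundary hx (hni x hx hfx) (hnl x hx hfx)
  obtain ⟨δv, hδv, hle⟩ := area_vertex_le hv
  by_cases hex : ∃ y ∈ region P, f y = v ∧ y ≠ x
  · obtain ⟨y, hy, hfy, hyx⟩ := hex
    obtain ⟨δy, hδy, hhy⟩ := half_boundary hy (hni y hy hfy) (hnl y hy hfy)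
    have hd : 0 < dist y x := dist_pos.2 hyx
    set r := min (min δx δy) (min δv (dist y x)) / 3 with hr
    have hm : 0 < min (min δx δy) (min δv (dist y x)) :=
      lt_min (lt_min hδx hδy) (lt_min hδv hd)
    have hr0 : 0 < r := by positivity
    have b1 : min (min δx δy) (min δv (dist y x)) ≤ δx :=
      (min_le_left _ _).trans (min_le_left _ _)
    have b2 : min (min δx δy) (min δv (dist y x)) ≤ δy :=
      (min_le_left _ _).trans (min_le_right _ _)
    have b3 : min (min δx δy) (min δv (dist y x)) ≤ δv :=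
      (min_le_right _ _).trans (min_le_left _ _)
    have b4 : min (min δx δy) (min δv (dist y x)) ≤ dist y x :=
      (min_le_right _ _).trans (min_le_right _ _)
    obtain ⟨cx, vx⟩ := hhx r (by linarith)
    obtain ⟨cy, vy⟩ := hhy r (by linarith)
    set Ax := region P ∩ closedBall x r with hAx
    set Ay := region P ∩ closedBall y r with hAy
    have hmx : MeasurableSet Ax := (isClosed_region P).measurableSet.inter measurableSet_closedBall
    have hmy : MeasurableSet Ay := (isClosed_region P).measurableSet.inter measurableSet_closedBall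
    have hdisj : Disjoint Ax Ay := by
      rw [Set.disjoint_left]
      rintro z ⟨-, hzx⟩ ⟨-, hzy⟩
      rw [mem_closedBall] at hzx hzy
      have := dist_triangle y z x
      rw [dist_comm y z] at this
      linarith
    have hvol : volume (Ax ∪ Ay) = D r := by
      rw [measure_union hdisj hmy]
      have h2 : 2 * (volume Ax + volume Ay) = 2 * D r := by
        rw [mul_add, vx, vy, two_mul]
      exact (ENNReal.mul_right_inj (by norm_num) (by norm_num)).1 h2
    have hsubP : Ax ∪ Ay ⊆ region P := union_subset inter_subset_left inter_subset_left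
    have hvol2 : volume ((Ax ∪ Ay) ∩ interior (region P)) = D r := by
      rw [← hvol]
      apply le_antisymm (measure_mono inter_subset_left)
      calc volume (Ax ∪ Ay) ≤ volume (((Ax ∪ Ay) ∩ interior (region P)) ∪
            (region P \ interior (region P))) := by
            apply measure_mono
            intro z hz
            by_cases hzi : z ∈ interior (region P)
            · exact Or.inl ⟨hz, hzi⟩
            · exact Or.inr ⟨hsubP hz, hzi⟩
        _ ≤ volume ((Ax ∪ Ay) ∩ interior (region P)) +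
            volume (region P \ interior (region P)) := measure_union_le _ _
        _ = volume ((Ax ∪ Ay) ∩ interior (region P)) := by
            rw [volume_region_sdiff_interior, add_zero]
    have himg : μHE[2] (f '' ((Ax ∪ Ay) ∩ interior (region P))) = D r := by
      rw [h.measure_eq ((hmx.union hmy).inter isOpen_interior.measurableSet)
        (inter_subset_left.trans hsubP) (h.inj.mono inter_subset_right), hvol2]
    have hsub2 : f '' ((Ax ∪ Ay) ∩ interior (region P)) ⊆ cubeSurface ℓ ∩ closedBall v r := by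
      rintro _ ⟨z, ⟨hz, -⟩, rfl⟩
      refine ⟨h.mem (hsubP hz), ?_⟩
      rw [mem_closedBall]
      rcases hz with hz | hz
      · rw [← hfx]
        exact (h.lip cx inter_subset_left hz ⟨hx, mem_closedBall_self hr0.le⟩).trans hz.2
      · rw [← hfy]
        exact (h.lip cy inter_subset_left hz ⟨hy, mem_closedBall_self hr0.le⟩).trans hz.2
    have h3 := (measure_mono hsub2).trans (hle r hr0.le (by linarith))
    rw [himg] at h3
    exact absurd h3 (not_le.2 (three_lt_four (four_K r) (D_pos hr0) (D_ne_top r)))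
  · push Not at hex
    -- the preimage is unique
    have hC : IsClosed (⋃ T ∈ {T ∈ 𝒯 | x ∉ T}, f '' T) := by
      apply (h.fin.subset (fun T hT => hT.1)).isClosed_biUnion
      intro T hT
      exact ((h.closed T hT.1).image_of_continuousOn (h.iso T hT.1).continuousOn).isClosed
    have hvC : v ∉ ⋃ T ∈ {T ∈ 𝒯 | x ∉ T}, f '' T := by
      intro hmem
      obtain ⟨T, hT, z, hz, hfz⟩ := mem_iUnion₂.1 hmem
      have hzP : z ∈ region P := by
        rw [← h.cover]
        exact ⟨T, hT.1, hz⟩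
      have := hex z hzP hfz
      rw [this] at hz
      exact hT.2 hz
    obtain ⟨ε, hε, hεC⟩ := Metric.isOpen_iff.1 hC.isOpen_compl v hvC
    set r := min (min δx ε) (min ℓ δv) / 2 with hr
    have hm : 0 < min (min δx ε) (min ℓ δv) := lt_min (lt_min hδx hε) (lt_min hℓ hδv)
    have hr0 : 0 < r := by positivity
    have b1 : min (min δx ε) (min ℓ δv) ≤ δx := (min_le_left _ _).trans (min_le_left _ _)
    have b2 : min (min δx ε) (min ℓ δv) ≤ ε := (min_le_left _ _).trans (min_le_right _ _)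
    have b3 : min (min δx ε) (min ℓ δv) ≤ ℓ := (min_le_right _ _).trans (min_le_left _ _)
    obtain ⟨-, vx⟩ := hhx r (by linarith)
    have hsub : cubeSurface ℓ ∩ closedBall v r ⊆ f '' (region P ∩ closedBall x r) := by
      rintro q ⟨hq, hqr⟩
      rw [← h.image] at hq
      obtain ⟨z, hz, rfl⟩ := hq
      refine ⟨z, ⟨hz, ?_⟩, rfl⟩
      have hz' := hz
      rw [← h.cover] at hz'
      obtain ⟨T, hT, hzT⟩ := hz'
      by_cases hxT : x ∈ T
      · rw [mem_closedBall, ← h.iso T hT z hzT x hxT, hfx]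
        exact hqr
      · exfalso
        apply hεC (a := f z)
        · rw [mem_ball]
          rw [mem_closedBall] at hqr
          linarith
        · exact mem_biUnion (show T ∈ {T ∈ 𝒯 | x ∉ T} from ⟨hT, hxT⟩) ⟨z, hzT, rfl⟩
    have h1 := area_vertex_ge hℓ hv hr0.le (by linarith)
    have h2 := (measure_mono hsub).trans (h.measure_le inter_subset_left)
    have h3 := h1.trans h2
    -- `3 V' ≤ W`, `2 W = D = 4 V'`
    have h4 : 2 * (3 * volume (K' r)) ≤ D r := by
      rw [← vx]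
      gcongr
    have h5 : 2 * (3 * volume (K' r)) = 6 * volume (K' r) := by rw [← mul_assoc]; norm_num
    rw [h5, ← four_K' r] at h4
    have hV : volume (K' r) ≠ ⊤ := by
      intro htop
      apply D_ne_top r
      rw [← four_K' r, htop]
      exact ENNReal.mul_top (by norm_num)
    have hV0 : volume (K' r) ≠ 0 := by
      intro hz
      have := D_pos hr0
      rw [← four_K' r, hz] at this
      simp at this
    rw [ENNReal.mul_le_mul_iff_left hV0 hV] at h4
    norm_num at h4

lemma cos_sum_two {s t : ℝ} (h : Real.cos (2 * Real.pi * s) + Real.cos (2 * Real.pi * t) = 2) :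
    ∃ m n : ℤ, s = m ∧ t = n := by
  have h1 := Real.cos_le_one (2 * Real.pi * s)
  have h2 := Real.cos_le_one (2 * Real.pi * t)
  have e1 : Real.cos (2 * Real.pi * s) = 1 := by linarith
  have e2 : Real.cos (2 * Real.pi * t) = 1 := by linarith
  obtain ⟨m, hm⟩ := (Real.cos_eq_one_iff _).1 e1
  obtain ⟨n, hn⟩ := (Real.cos_eq_one_iff _).1 e2
  have hpi : (2 * Real.pi) ≠ 0 := by positivity
  refine ⟨m, n, ?_, ?_⟩
  · have : (2 * Real.pi) * s = (2 * Real.pi) * m := by rw [← hm]; ring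
    exact mul_left_cancel₀ hpi this
  · have : (2 * Real.pi) * t = (2 * Real.pi) * n := by rw [← hn]; ring
    exact mul_left_cancel₀ hpi this

/-- The arithmetic consequence. -/
lemma Fold.arith (h : Fold P ℓ f 𝒯) (hℓ : 0 < ℓ) (hP : IsPolyomino P) :
    ∃ a b c d : ℤ, ((c : ℝ) ^ 2 + (d : ℝ) ^ 2 = ℓ ^ 2 * ((a : ℝ) ^ 2 + (b : ℝ) ^ 2)) ∧
      c ^ 2 + d ^ 2 ≠ 0 := by
  obtain ⟨w, p, L, hdev⟩ := h.global_dev hℓ hP
  let v1 : Space := 0
  let v2 : Space := EuclideanSpace.single 0 ℓ
  have hv1 : ∀ m, v1 m = 0 ∨ v1 m = ℓ := fun m => Or.inl rfl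
  have hv2 : ∀ m, v2 m = 0 ∨ v2 m = ℓ := by
    intro m
    fin_cases m
    · right; simp [v2]
    · left; simp [v2]
    · left; simp [v2]
  have hH3 : ∀ v : Space, (∀ m, v m = 0 ∨ v m = ℓ) → H3 ℓ v = 2 := by
    intro v hv
    rw [H3, Fin.sum_univ_three, cos_end hℓ (hv 0), cos_end hℓ (hv 1), cos_end hℓ (hv 2)]
    norm_num
  obtain ⟨x, hx, hfx, x0, x1, hx0, hx1⟩ := h.exists_lattice hℓ hv1
  obtain ⟨y, hy, hfy, y0, y1, hy0, hy1⟩ := h.exists_lattice hℓ hv2
  have hxy : x ≠ y := by
    rintro rfl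
    rw [hfx] at hfy
    have : v1 0 = v2 0 := by rw [hfy]
    simp [v1, v2] at this
    exact hℓ.ne this
  have ex := hdev x hx
  have ey := hdev y hy
  rw [hfx, hH3 v1 hv1] at ex
  rw [hfy, hH3 v2 hv2] at ey
  obtain ⟨m, n, hm, hn⟩ := cos_sum_two ex.symm
  obtain ⟨m', n', hm', hn'⟩ := cos_sum_two ey.symm
  have hd : dist (w + L (x - p)) (w + L (y - p)) = dist x y := by
    rw [dist_add_left, L.dist_map, dist_sub_right]
  have hd2 : dist (w + L (x - p)) (w + L (y - p)) ^ 2 = dist x y ^ 2 := by rw [hd]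
  rw [dist_sq_plane, dist_sq_plane, hx0, hx1, hy0, hy1] at hd2
  have g0 : (w + L (x - p)) 0 = m * ℓ := by rw [← hm]; field_simp
  have g1 : (w + L (x - p)) 1 = n * ℓ := by rw [← hn]; field_simp
  have g0' : (w + L (y - p)) 0 = m' * ℓ := by rw [← hm']; field_simp
  have g1' : (w + L (y - p)) 1 = n' * ℓ := by rw [← hn']; field_simp
  rw [g0, g1, g0', g1'] at hd2
  refine ⟨m - m', n - n', x0 - y0, x1 - y1, ?_, ?_⟩
  · push_cast
    rw [← hd2]
    ring
  · intro hz
    apply hxy
    have hz' : ((x0 : ℝ) - y0) ^ 2 + ((x1 : ℝ) - y1) ^ 2 = 0 := by exact_mod_cast hz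
    have hdist : dist x y ^ 2 = 0 := by
      rw [dist_sq_plane, hx0, hx1, hy0, hy1]
      exact hz'
    exact dist_eq_zero.1 (pow_eq_zero_iff (by norm_num) |>.1 hdist)

/-- If `c² + d² = k (a² + b²)` is not zero, then `k` is a sum of two squares. -/
theorem sum_two_squares_of_eq {k : ℕ} (hk : 0 < k) {a b c d : ℤ}
    (h3 : c ^ 2 + d ^ 2 = (k : ℤ) * (a ^ 2 + b ^ 2)) (h2 : c ^ 2 + d ^ 2 ≠ 0) :
    ∃ a b : ℕ, k = a ^ 2 + b ^ 2 := by
  -- pass to natural numbers
  have h4 : c.natAbs ^ 2 + d.natAbs ^ 2 = k * (a.natAbs ^ 2 + b.natAbs ^ 2) := by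
    have : ((c.natAbs ^ 2 + d.natAbs ^ 2 : ℕ) : ℤ) =
        ((k * (a.natAbs ^ 2 + b.natAbs ^ 2) : ℕ) : ℤ) := by
      push_cast
      simp only [sq_abs]
      exact h3
    exact_mod_cast this
  have h5 : c.natAbs ^ 2 + d.natAbs ^ 2 ≠ 0 := by
    intro hz
    apply h2
    have : ((c.natAbs ^ 2 + d.natAbs ^ 2 : ℕ) : ℤ) = 0 := by rw [hz]; rfl
    push_cast at this
    simpa only [sq_abs] using this
  have h6 : a.natAbs ^ 2 + b.natAbs ^ 2 ≠ 0 := by
    intro hz
    rw [hz, mul_zero] at h4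
    exact h5 h4
  rw [Nat.eq_sq_add_sq_iff]
  intro q hq hq3
  have e1 : ∃ x y : ℕ, k * (a.natAbs ^ 2 + b.natAbs ^ 2) = x ^ 2 + y ^ 2 :=
    ⟨c.natAbs, d.natAbs, h4.symm⟩
  have e2 : ∃ x y : ℕ, a.natAbs ^ 2 + b.natAbs ^ 2 = x ^ 2 + y ^ 2 := ⟨_, _, rfl⟩
  have hqp : q.Prime := Nat.prime_of_mem_primeFactors hq
  have hqk : q ∣ k := Nat.dvd_of_mem_primeFactors hq
  have p1 := (Nat.eq_sq_add_sq_iff.1 e1) q
    (Nat.mem_primeFactors.2 ⟨hqp, hqk.mul_right _, mul_ne_zero hk.ne' h6⟩) hq3
  have p2 : Even (padicValNat q (a.natAbs ^ 2 + b.natAbs ^ 2)) := by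
    by_cases hqm : q ∣ a.natAbs ^ 2 + b.natAbs ^ 2
    · exact (Nat.eq_sq_add_sq_iff.1 e2) q (Nat.mem_primeFactors.2 ⟨hqp, hqm, h6⟩) hq3
    · rw [padicValNat.eq_zero_of_not_dvd hqm]
      exact Even.zero
  have : Fact q.Prime := ⟨hqp⟩
  rw [padicValNat.mul hk.ne' h6, Nat.even_add] at p1
  exact p1.2 p2

/-- **Theorem.** If a polyomino is a net of a cube of edge `√k` with `k ≥ 1`, then `k` is a sum
of two squares. -/
theorem sum_two_squares_of_net {P : Finset Cell} {k : ℕ} (hk : 0 < k) (hP : IsPolyomino P)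
    (h : IsCubeNet P (Real.sqrt k)) : ∃ a b : ℕ, k = a ^ 2 + b ^ 2 := by
  obtain ⟨f, 𝒯, hF⟩ := h.exists_fold
  have hk' : (0 : ℝ) < k := by exact_mod_cast hk
  obtain ⟨a, b, c, d, h1, h2⟩ := hF.arith (Real.sqrt_pos.2 hk') hP
  rw [Real.sq_sqrt hk'.le] at h1
  have h3 : c ^ 2 + d ^ 2 = (k : ℤ) * (a ^ 2 + b ^ 2) := by exact_mod_cast h1
  exact sum_two_squares_of_eq hk h3 h2

end Pool.Agent.Lib.MP_a49afe_co
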