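import Pool.Agent.Lib.MP_a49afe_co.Sound

/-!
# A checked certificate gives a net of the cube
-/

open MeasureTheory Measure Metric Set
open scoped MeasureTheory ENNReal

namespace Pool.Agent.Lib.MP_a49afe_co

/-- An affine function that is nonnegative at the four corners of a unit square is nonnegative
on the square. -/
lemma lin_square {α β γ X Y x y : ℝ} (h00 : 0 ≤ α * X + β * Y + γ)
    (h10 : 0 ≤ α * (X + 1) + β * Y + γ) (h01 : 0 ≤ α * X + β * (Y + 1) + γ)
    (h11 : 0 ≤ α * (X + 1) + β * (Y + 1) + γ) (hx : X ≤ x) (hx' : x ≤ X + 1) (hy : Y ≤ y)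
    (hy' : y ≤ Y + 1) : 0 ≤ α * x + β * y + γ := by
  rcases le_total 0 α with h | h <;> rcases le_total 0 β with h' | h'
  · nlinarith [mul_nonneg h (sub_nonneg.2 hx), mul_nonneg h' (sub_nonneg.2 hy)]
  · nlinarith [mul_nonneg h (sub_nonneg.2 hx), mul_nonneg (neg_nonneg.2 h') (sub_nonneg.2 hy')]
  · nlinarith [mul_nonneg (neg_nonneg.2 h) (sub_nonneg.2 hx'), mul_nonneg h' (sub_nonneg.2 hy)]
  · nlinarith [mul_nonneg (neg_nonneg.2 h) (sub_nonneg.2 hx'),
      mul_nonneg (neg_nonneg.2 h') (sub_nonneg.2 hy')]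

/-- Real version of the box conditions at a point. -/
def RBox (a b sx sy p q r s : ℤ) (x y : ℝ) : Prop :=
  0 ≤ (a : ℝ) * x + b * y + (-(((a : ℝ) * a + b * b) * sx) - p * ((a : ℝ) * a + b * b)) ∧
  0 ≤ (-a : ℝ) * x + (-b) * y + ((((a : ℝ) * a + b * b) * sx) + q * ((a : ℝ) * a + b * b)) ∧
  0 ≤ (-b : ℝ) * x + a * y + (-(((a : ℝ) * a + b * b) * sy) - r * ((a : ℝ) * a + b * b)) ∧
  0 ≤ (b : ℝ) * x + (-a) * y + ((((a : ℝ) * a + b * b) * sy) + s * ((a : ℝ) * a + b * b))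

lemma inBox_real {a b sx sy p q r s x y : ℤ} (h : inBox a b sx sy p q r s x y) :
    RBox a b sx sy p q r s x y := by
  obtain ⟨h1, h2, h3, h4⟩ := h
  unfold uu at h1 h2
  unfold vv at h3 h4
  have h1' : ((p * (a * a + b * b) : ℤ) : ℝ) ≤
      ((a * x + b * y - (a * a + b * b) * sx : ℤ) : ℝ) := by exact_mod_cast h1
  have h2' : ((a * x + b * y - (a * a + b * b) * sx : ℤ) : ℝ) ≤
      ((q * (a * a + b * b) : ℤ) : ℝ) := by exact_mod_cast h2
  have h3' : ((r * (a * a + b * b) : ℤ) : ℝ) ≤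
      ((-b * x + a * y - (a * a + b * b) * sy : ℤ) : ℝ) := by exact_mod_cast h3
  have h4' : ((-b * x + a * y - (a * a + b * b) * sy : ℤ) : ℝ) ≤
      ((s * (a * a + b * b) : ℤ) : ℝ) := by exact_mod_cast h4
  push_cast at h1' h2' h3' h4'
  refine ⟨?_, ?_, ?_, ?_⟩ <;> linarith

lemma RBox.bounds {a b sx sy p q r s : ℤ} {x : Plane} (ha : 0 < a)
    (h : RBox a b sx sy p q r s (x 0) (x 1)) :
    p ≤ zu a b x - sx ∧ zu a b x - sx ≤ q ∧ r ≤ zv a b x - sy ∧ zv a b x - sy ≤ s := by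
  have hk := kpos (b := b) ha
  obtain ⟨h1, h2, h3, h4⟩ := h
  unfold zu zv
  rw [le_sub_iff_add_le, le_div_iff₀ hk, _root_.sub_le_iff_le_add, div_le_iff₀ hk,
      le_sub_iff_add_le, le_div_iff₀ hk, _root_.sub_le_iff_le_add, div_le_iff₀ hk]
  refine ⟨?_, ?_, ?_, ?_⟩ <;> linarith

lemma cellInBox_real {a b p q r s : ℤ} {e : Entry} (h : cellInBox a b p q r s e) {x : Plane}
    (hx : x ∈ square e.cell) : RBox a b e.sx e.sy p q r s (x 0) (x 1) := by
  obtain ⟨h00, h10, h01, h11⟩ := h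
  have k00 := inBox_real h00
  have k10 := inBox_real h10
  have k01 := inBox_real h01
  have k11 := inBox_real h11
  obtain ⟨x1, x2, x3, x4⟩ := hx
  simp only [Entry.cell] at x1 x2 x3 x4
  unfold RBox at *
  push_cast at k10 k01 k11
  exact ⟨lin_square k00.1 k10.1 k01.1 k11.1 x1 x2 x3 x4,
    lin_square k00.2.1 k10.2.1 k01.2.1 k11.2.1 x1 x2 x3 x4,
    lin_square k00.2.2.1 k10.2.2.1 k01.2.2.1 k11.2.2.1 x1 x2 x3 x4,
    lin_square k00.2.2.2 k10.2.2.2 k01.2.2.2 k11.2.2.2 x1 x2 x3 x4⟩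

/-- Every point of the cell lies in one of the pieces. -/
lemma exists_piece {a b : ℤ} (ha : 0 < a) {e : Entry} (he : crossOK a b e) {x : Plane}
    (hx : x ∈ square e.cell) : ∃ m < 5, x ∈ piece a b e m := by
  rcases he with h | h | h | h
  · obtain ⟨h1, h2, h3, h4⟩ := (cellInBox_real h hx).bounds ha
    push_cast at h1 h2 h3 h4
    rcases le_total (zu a b x - e.sx) 1 with h | h
    · exact ⟨0, by norm_num, hx, by simp [offE]; linarith, by simp [offE]; linarith,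
        by simp [offE]; linarith, by simp [offE]; linarith⟩
    · exact ⟨1, by norm_num, hx, by simp [offE]; linarith, by simp [offE]; linarith,
        by simp [offE]; linarith, by simp [offE]; linarith⟩
  · obtain ⟨h1, h2, h3, h4⟩ := (cellInBox_real h hx).bounds ha
    push_cast at h1 h2 h3 h4
    rcases le_total 0 (zu a b x - e.sx) with h | h
    · exact ⟨0, by norm_num, hx, by simp [offE]; linarith, by simp [offE]; linarith,
        by simp [offE]; linarith, by simp [offE]; linarith⟩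
    · exact ⟨3, by norm_num, hx, by simp [offE]; linarith, by simp [offE]; linarith,
        by simp [offE]; linarith, by simp [offE]; linarith⟩
  · obtain ⟨h1, h2, h3, h4⟩ := (cellInBox_real h hx).bounds ha
    push_cast at h1 h2 h3 h4
    rcases le_total (zv a b x - e.sy) 1 with h | h
    · exact ⟨0, by norm_num, hx, by simp [offE]; linarith, by simp [offE]; linarith,
        by simp [offE]; linarith, by simp [offE]; linarith⟩
    · exact ⟨2, by norm_num, hx, by simp [offE]; linarith, by simp [offE]; linarith,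
        by simp [offE]; linarith, by simp [offE]; linarith⟩
  · obtain ⟨h1, h2, h3, h4⟩ := (cellInBox_real h hx).bounds ha
    push_cast at h1 h2 h3 h4
    rcases le_total 0 (zv a b x - e.sy) with h | h
    · exact ⟨0, by norm_num, hx, by simp [offE]; linarith, by simp [offE]; linarith,
        by simp [offE]; linarith, by simp [offE]; linarith⟩
    · exact ⟨4, by norm_num, hx, by simp [offE]; linarith, by simp [offE]; linarith,
        by simp [offE]; linarith, by simp [offE]; linarith⟩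

/-- Interpolation along an edge. -/
lemma lin_edge {A B t : ℝ} (h0 : 0 ≤ A) (h1 : 0 ≤ B) (ht : 0 ≤ t) (ht' : t ≤ 1) :
    0 ≤ (1 - t) * A + t * B := by
  have := mul_nonneg (sub_nonneg.2 ht') h0
  have := mul_nonneg ht h1
  linarith

lemma RBox.edge {a b sx sy p q r s : ℤ} {x0 y0 x1 y1 t : ℝ}
    (h0 : RBox a b sx sy p q r s x0 y0) (h1 : RBox a b sx sy p q r s x1 y1)
    (ht : 0 ≤ t) (ht' : t ≤ 1) :
    RBox a b sx sy p q r s ((1 - t) * x0 + t * x1) ((1 - t) * y0 + t * y1) := by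
  unfold RBox at *
  refine ⟨?_, ?_, ?_, ?_⟩
  · have := lin_edge h0.1 h1.1 ht ht'
    nlinarith
  · have := lin_edge h0.2.1 h1.2.1 ht ht'
    nlinarith
  · have := lin_edge h0.2.2.1 h1.2.2.1 ht ht'
    nlinarith
  · have := lin_edge h0.2.2.2 h1.2.2.2 ht ht'
    nlinarith

lemma rolledR_eq {a b : ℤ} (ha : 0 < a) {ℓ : ℝ} {e e' : Entry} {px py qx qy : ℤ}
    (h : rolledR a b e e' px py qx qy) {x : Plane} {t : ℝ} (ht : 0 ≤ t) (ht' : t ≤ 1)
    (hx0 : x 0 = (1 - t) * px + t * qx) (hx1 : x 1 = (1 - t) * py + t * qy) :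
    foldE a b ℓ e x = foldE a b ℓ e' x := by
  obtain ⟨h1, h2, h3, h4, h5, h6, h7⟩ := h
  have hb : RBox a b e.sx e.sy 0 2 0 1 (x 0) (x 1) := by
    rw [hx0, hx1]
    exact (inBox_real h6).edge (inBox_real h7) ht ht'
  obtain ⟨b1, b2, b3, b4⟩ := hb.bounds ha
  push_cast at b1 b2 b3 b4
  unfold foldE
  rw [h1, h2, h3, h4, h5]
  have hs : zu a b x - ((e.sx + 1 : ℤ) : ℝ) = (zu a b x - e.sx) - 1 := by push_cast; ring
  rw [hs, kap_rollR _ b1 b2 b3 b4, kap_rollR _ b1 b2 b3 b4, kap_rollR _ b1 b2 b3 b4]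

lemma rolledU_eq {a b : ℤ} (ha : 0 < a) {ℓ : ℝ} {e e' : Entry} {px py qx qy : ℤ}
    (h : rolledU a b e e' px py qx qy) {x : Plane} {t : ℝ} (ht : 0 ≤ t) (ht' : t ≤ 1)
    (hx0 : x 0 = (1 - t) * px + t * qx) (hx1 : x 1 = (1 - t) * py + t * qy) :
    foldE a b ℓ e x = foldE a b ℓ e' x := by
  obtain ⟨h1, h2, h3, h4, h5, h6, h7⟩ := h
  have hb : RBox a b e.sx e.sy 0 1 0 2 (x 0) (x 1) := by
    rw [hx0, hx1]
    exact (inBox_real h6).edge (inBox_real h7) ht ht'
  obtain ⟨b1, b2, b3, b4⟩ := hb.bounds ha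
  push_cast at b1 b2 b3 b4
  unfold foldE
  rw [h1, h2, h3, h4, h5]
  have hs : zv a b x - ((e.sy + 1 : ℤ) : ℝ) = (zv a b x - e.sy) - 1 := by push_cast; ring
  rw [hs, kap_rollU _ b1 b2 b3 b4, kap_rollU _ b1 b2 b3 b4, kap_rollU _ b1 b2 b3 b4]

lemma sameData_eq {a b : ℤ} {ℓ : ℝ} {e e' : Entry} (h : sameData e e') (x : Plane) :
    foldE a b ℓ e x = foldE a b ℓ e' x := by
  obtain ⟨h1, h2, h3, h4, h5⟩ := h
  unfold foldE
  rw [h1, h2, h3, h4, h5]

lemma compat_eq {a b : ℤ} (ha : 0 < a) {ℓ : ℝ} {e e' : Entry} {px py qx qy : ℤ}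
    (h : compat a b e e' px py qx qy) {x : Plane} {t : ℝ} (ht : 0 ≤ t) (ht' : t ≤ 1)
    (hx0 : x 0 = (1 - t) * px + t * qx) (hx1 : x 1 = (1 - t) * py + t * qy) :
    foldE a b ℓ e x = foldE a b ℓ e' x := by
  rcases h with h | h | h | h | h
  · exact sameData_eq h x
  · exact rolledR_eq ha h ht ht' hx0 hx1
  · exact (rolledR_eq ha h ht ht' hx0 hx1).symm
  · exact rolledU_eq ha h ht ht' hx0 hx1
  · exact (rolledU_eq ha h ht ht' hx0 hx1).symm

section wd

variable {a b : ℤ} {L : List Entry} {ℓ : ℝ}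

/-- Two horizontally adjacent cells. -/
lemma wd_right (ha : 0 < a) (hp : ∀ e ∈ L, ∀ e' ∈ L, pairOK a b L e e') {e e' : Entry}
    (he : e ∈ L) (he' : e' ∈ L) (hx : e'.x = e.x + 1) (hy : e'.y = e.y) {x : Plane}
    (h1 : x ∈ square e.cell) (h2 : x ∈ square e'.cell) :
    foldE a b ℓ e x = foldE a b ℓ e' x := by
  have hc := (hp e he e' he').2.1 hx hy
  obtain ⟨p1, p2, p3, p4⟩ := h1
  obtain ⟨q1, q2, q3, q4⟩ := h2
  simp only [Entry.cell] at p1 p2 p3 p4 q1 q2 q3 q4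
  rw [hx] at q1 q2
  push_cast at q1 q2
  apply compat_eq ha hc (t := x 1 - e.y) (by linarith) (by linarith)
  · push_cast
    have : x 0 = e.x + 1 := by linarith
    rw [this]; ring
  · push_cast; ring

/-- Two vertically adjacent cells. -/
lemma wd_up (ha : 0 < a) (hp : ∀ e ∈ L, ∀ e' ∈ L, pairOK a b L e e') {e e' : Entry}
    (he : e ∈ L) (he' : e' ∈ L) (hx : e'.x = e.x) (hy : e'.y = e.y + 1) {x : Plane}
    (h1 : x ∈ square e.cell) (h2 : x ∈ square e'.cell) :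
    foldE a b ℓ e x = foldE a b ℓ e' x := by
  have hc := (hp e he e' he').2.2.1 hx hy
  obtain ⟨p1, p2, p3, p4⟩ := h1
  obtain ⟨q1, q2, q3, q4⟩ := h2
  simp only [Entry.cell] at p1 p2 p3 p4 q1 q2 q3 q4
  rw [hy] at q3 q4
  push_cast at q3 q4
  apply compat_eq ha hc (t := x 0 - e.x) (by linarith) (by linarith)
  · push_cast; ring
  · push_cast
    have : x 1 = e.y + 1 := by linarith
    rw [this]; ring

/-- Two cells meeting diagonally (upwards). -/
lemma wd_diag (ha : 0 < a) (hp : ∀ e ∈ L, ∀ e' ∈ L, pairOK a b L e e') {e e' : Entry}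
    (he : e ∈ L) (he' : e' ∈ L) (hx : e'.x = e.x + 1) (hy : e'.y = e.y + 1) {x : Plane}
    (h1 : x ∈ square e.cell) (h2 : x ∈ square e'.cell) :
    foldE a b ℓ e x = foldE a b ℓ e' x := by
  have hc := (hp e he e' he').2.2.2.1 hx hy
  have h1' := h1
  have h2' := h2
  obtain ⟨p1, p2, p3, p4⟩ := h1'
  obtain ⟨q1, q2, q3, q4⟩ := h2'
  simp only [Entry.cell] at p1 p2 p3 p4 q1 q2 q3 q4
  rw [hx] at q1 q2
  rw [hy] at q3 q4
  push_cast at q1 q2 q3 q4
  rcases hc with ⟨m, hm, mx, my⟩ | ⟨m, hm, mx, my⟩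
  · have hxm : x ∈ square m.cell := by
      refine ⟨?_, ?_, ?_, ?_⟩ <;> simp only [Entry.cell, mx, my] <;> push_cast <;> linarith
    rw [wd_right ha hp he hm mx my h1 hxm]
    exact wd_up ha hp hm he' (by omega) (by omega) hxm h2
  · have hxm : x ∈ square m.cell := by
      refine ⟨?_, ?_, ?_, ?_⟩ <;> simp only [Entry.cell, mx, my] <;> push_cast <;> linarith
    rw [wd_up ha hp he hm mx my h1 hxm]
    exact wd_right ha hp hm he' (by omega) (by omega) hxm h2

/-- Two cells meeting diagonally (downwards). -/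
lemma wd_diag' (ha : 0 < a) (hp : ∀ e ∈ L, ∀ e' ∈ L, pairOK a b L e e') {e e' : Entry}
    (he : e ∈ L) (he' : e' ∈ L) (hx : e'.x = e.x + 1) (hy : e'.y = e.y - 1) {x : Plane}
    (h1 : x ∈ square e.cell) (h2 : x ∈ square e'.cell) :
    foldE a b ℓ e x = foldE a b ℓ e' x := by
  have hc := (hp e he e' he').2.2.2.2 hx hy
  have h1' := h1
  have h2' := h2
  obtain ⟨p1, p2, p3, p4⟩ := h1'
  obtain ⟨q1, q2, q3, q4⟩ := h2'
  simp only [Entry.cell] at p1 p2 p3 p4 q1 q2 q3 q4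
  rw [hx] at q1 q2
  rw [hy] at q3 q4
  push_cast at q1 q2 q3 q4
  rcases hc with ⟨m, hm, mx, my⟩ | ⟨m, hm, mx, my⟩
  · have hxm : x ∈ square m.cell := by
      refine ⟨?_, ?_, ?_, ?_⟩ <;> simp only [Entry.cell, mx, my] <;> push_cast <;> linarith
    rw [wd_right ha hp he hm mx my h1 hxm]
    exact (wd_up ha hp he' hm (by omega) (by omega) h2 hxm).symm
  · have hxm : x ∈ square m.cell := by
      refine ⟨?_, ?_, ?_, ?_⟩ <;> simp only [Entry.cell, mx, my] <;> push_cast <;> linarith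
    rw [← wd_up ha hp hm he (by omega) (by omega) hxm h1]
    exact wd_right ha hp hm he' (by omega) (by omega) hxm h2

/-- The local folding maps agree wherever two cells meet. -/
lemma wd (ha : 0 < a) (hp : ∀ e ∈ L, ∀ e' ∈ L, pairOK a b L e e') {e e' : Entry}
    (he : e ∈ L) (he' : e' ∈ L) {x : Plane} (h1 : x ∈ square e.cell) (h2 : x ∈ square e'.cell) :
    foldE a b ℓ e x = foldE a b ℓ e' x := by
  have h1' := h1
  have h2' := h2
  obtain ⟨p1, p2, p3, p4⟩ := h1'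
  obtain ⟨q1, q2, q3, q4⟩ := h2'
  simp only [Entry.cell] at p1 p2 p3 p4 q1 q2 q3 q4
  have a1 : (e'.x : ℝ) ≤ ((e.x + 1 : ℤ) : ℝ) := by push_cast; linarith
  have a2 : (e.x : ℝ) ≤ ((e'.x + 1 : ℤ) : ℝ) := by push_cast; linarith
  have a3 : (e'.y : ℝ) ≤ ((e.y + 1 : ℤ) : ℝ) := by push_cast; linarith
  have a4 : (e.y : ℝ) ≤ ((e'.y + 1 : ℤ) : ℝ) := by push_cast; linarith
  rw [Int.cast_le] at a1 a2 a3 a4
  have cx : e'.x = e.x ∨ e'.x = e.x + 1 ∨ e.x = e'.x + 1 := by omega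
  have cy : e'.y = e.y ∨ e'.y = e.y + 1 ∨ e.y = e'.y + 1 := by omega
  rcases cx with hx | hx | hx <;> rcases cy with hy | hy | hy
  · exact sameData_eq ((hp e he e' he').1 hx hy) x
  · exact wd_up ha hp he he' hx hy h1 h2
  · exact (wd_up ha hp he' he hx.symm hy h2 h1).symm
  · exact wd_right ha hp he he' hx hy h1 h2
  · exact wd_diag ha hp he he' hx hy h1 h2
  · exact wd_diag' ha hp he he' hx (by omega) h1 h2
  · exact (wd_right ha hp he' he hx hy.symm h2 h1).symm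
  · exact (wd_diag' ha hp he' he hx (by omega) h2 h1).symm
  · exact (wd_diag ha hp he' he hx hy h2 h1).symm

end wd

open Classical in
/-- The folding map of a certificate. -/
noncomputable def foldL (a b : ℤ) (ℓ : ℝ) (L : List Entry) (x : Plane) : Space :=
  if h : ∃ e, e ∈ L ∧ x ∈ square e.cell then foldE a b ℓ h.choose x else 0

lemma foldL_eq {a b : ℤ} {L : List Entry} {ℓ : ℝ} (ha : 0 < a)
    (hp : ∀ e ∈ L, ∀ e' ∈ L, pairOK a b L e e') {e : Entry} (he : e ∈ L) {x : Plane}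
    (hx : x ∈ square e.cell) : foldL a b ℓ L x = foldE a b ℓ e x := by
  have h : ∃ e, e ∈ L ∧ x ∈ square e.cell := ⟨e, he, hx⟩
  rw [foldL, dif_pos h]
  exact wd ha hp h.choose_spec.1 he h.choose_spec.2 hx

lemma mem_region_cells {L : List Entry} {x : Plane} :
    x ∈ region (cells L) ↔ ∃ e ∈ L, x ∈ square e.cell := by
  unfold region cells
  simp only [mem_iUnion, List.mem_toFinset, List.mem_map, exists_prop]
  constructor
  · rintro ⟨c, ⟨e, he, rfl⟩, hx⟩
    exact ⟨e, he, hx⟩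
  · rintro ⟨e, he, hx⟩
    exact ⟨_, ⟨e, he, rfl⟩, hx⟩

/-- A map that is continuous on each of finitely many closed sets is continuous on their union. -/
lemma continuousOn_sUnion {X Y : Type*} [TopologicalSpace X] [TopologicalSpace Y] {f : X → Y}
    {𝒯 : Set (Set X)} (hfin : 𝒯.Finite) (hcl : ∀ T ∈ 𝒯, IsClosed T)
    (hc : ∀ T ∈ 𝒯, ContinuousOn f T) : ContinuousOn f (⋃₀ 𝒯) := by
  induction 𝒯, hfin using Set.Finite.induction_on with
  | empty => simp
  | @insert T 𝒯' _ hfin' ih =>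
    rw [sUnion_insert]
    have hU : IsClosed (⋃₀ 𝒯') := by
      rw [sUnion_eq_biUnion]
      exact hfin'.isClosed_biUnion (fun D hD => hcl D (mem_insert_of_mem _ hD))
    exact (hc T (mem_insert _ _)).union_of_isClosed
      (ih (fun D hD => hcl D (mem_insert_of_mem _ hD))
        (fun D hD => hc D (mem_insert_of_mem _ hD))) (hcl T (mem_insert _ _)) hU

/-- Coordinates of a rotated point. -/
noncomputable def rotPt : ℕ → Plane → ℝ × ℝ
  | 0, X => (X 0, X 1)
  | 1, X => (-X 1, X 0)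
  | 2, X => (-X 0, -X 1)
  | _, X => (X 1, -X 0)

/-- Rotation of the unit square. -/
def rotSq : ℕ → ℝ → ℝ → ℝ × ℝ
  | 0, u, v => (u, v)
  | 1, u, v => (1 - v, u)
  | 2, u, v => (1 - u, 1 - v)
  | _, u, v => (v, 1 - u)

lemma val_subRot (r g : ℕ) (u v : ℝ) :
    val g (rotSq r u v).1 (rotSq r u v).2 0 = val (subRot r g) u v 0 := by
  match r with
  | 0 => simp [rotSq, subRot]
  | 1 =>
    match g with
    | 0 => simp [rotSq, subRot, val]
    | 1 => simp [rotSq, subRot, val]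
    | 2 => simp [rotSq, subRot, val]
    | 3 => simp [rotSq, subRot, val]
    | 4 => simp [rotSq, subRot, val]
    | n + 5 => simp [rotSq, subRot, val]
  | 2 =>
    match g with
    | 0 => simp [rotSq, subRot, val]
    | 1 => simp [rotSq, subRot, val]
    | 2 => simp [rotSq, subRot, val]
    | 3 => simp [rotSq, subRot, val]
    | 4 => simp [rotSq, subRot, val]
    | n + 5 => simp [rotSq, subRot, val]
  | n + 3 =>
    match g with
    | 0 => simp [rotSq, subRot, val]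
    | 1 => simp [rotSq, subRot, val]
    | 2 => simp [rotSq, subRot, val]
    | 3 => simp [rotSq, subRot, val]
    | 4 => simp [rotSq, subRot, val]
    | n + 5 => simp [rotSq, subRot, val]

lemma rotSq_mem (r : ℕ) {u v : ℝ} (hu : 0 ≤ u ∧ u ≤ 1) (hv : 0 ≤ v ∧ v ≤ 1) :
    (0 ≤ (rotSq r u v).1 ∧ (rotSq r u v).1 ≤ 1) ∧ (0 ≤ (rotSq r u v).2 ∧ (rotSq r u v).2 ≤ 1) := by
  match r with
  | 0 => exact ⟨hu, hv⟩
  | 1 => exact ⟨⟨by simp [rotSq]; linarith, by simp [rotSq]; linarith⟩, hu⟩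
  | 2 => exact ⟨⟨by simp [rotSq]; linarith, by simp [rotSq]; linarith⟩,
      ⟨by simp [rotSq]; linarith, by simp [rotSq]; linarith⟩⟩
  | n + 3 => exact ⟨hv, ⟨by simp [rotSq]; linarith, by simp [rotSq]; linarith⟩⟩

lemma rotPt_lattice {a b : ℤ} (ha : 0 < a) (r : ℕ) (X : Plane) :
    (a * (rotPt r X).1 + b * (rotPt r X).2) / ((a : ℝ) * a + b * b) + (offRot r).1 =
      (rotSq r (zu a b X) (zv a b X)).1 ∧
    (-b * (rotPt r X).1 + a * (rotPt r X).2) / ((a : ℝ) * a + b * b) + (offRot r).2 =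
      (rotSq r (zu a b X) (zv a b X)).2 := by
  have hk := (kpos (b := b) ha).ne'
  match r with
  | 0 => simp [rotPt, rotSq, offRot, zu, zv]
  | 1 =>
    simp only [rotPt, rotSq, offRot, zu, zv]
    constructor
    · field_simp; push_cast; ring
    · field_simp; push_cast; ring
  | 2 =>
    simp only [rotPt, rotSq, offRot, zu, zv]
    constructor
    · field_simp; push_cast; ring
    · field_simp; push_cast; ring
  | n + 3 =>
    simp only [rotPt, rotSq, offRot, zu, zv]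
    constructor
    · field_simp; push_cast; ring
    · field_simp; push_cast; ring

lemma rotPt_cell (r : ℕ) {i j : ℤ} {X : Plane} (h1 : (i : ℝ) ≤ X 0) (h2 : X 0 ≤ i + 1)
    (h3 : (j : ℝ) ≤ X 1) (h4 : X 1 ≤ j + 1) :
    ((rotCell r i j).1 : ℝ) ≤ (rotPt r X).1 ∧ (rotPt r X).1 ≤ (rotCell r i j).1 + 1 ∧
    ((rotCell r i j).2 : ℝ) ≤ (rotPt r X).2 ∧ (rotPt r X).2 ≤ (rotCell r i j).2 + 1 := by
  match r with
  | 0 => exact ⟨h1, h2, h3, h4⟩
  | 1 => refine ⟨?_, ?_, ?_, ?_⟩ <;> simp only [rotPt, rotCell] <;> push_cast <;> linarith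
  | 2 => refine ⟨?_, ?_, ?_, ?_⟩ <;> simp only [rotPt, rotCell] <;> push_cast <;> linarith
  | n + 3 => refine ⟨?_, ?_, ?_, ?_⟩ <;> simp only [rotPt, rotCell] <;> push_cast <;> linarith

/-- A covered cell of a face is in the image. -/
lemma covered_mem {a b : ℤ} {L : List Entry} {ℓ : ℝ} (ha : 0 < a)
    (hp : ∀ e ∈ L, ∀ e' ∈ L, pairOK a b L e e') {F : ℕ × ℕ × ℕ} {i j : ℤ}
    (hc : covered a b L F i j) {X : Plane} (h1 : (i : ℝ) ≤ X 0) (h2 : X 0 ≤ i + 1)
    (h3 : (j : ℝ) ≤ X 1) (h4 : X 1 ≤ j + 1) (hu : 0 ≤ zu a b X ∧ zu a b X ≤ 1)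
    (hv : 0 ≤ zv a b X ∧ zv a b X ≤ 1) :
    pt ℓ F.1 F.2.1 F.2.2 (zu a b X) (zv a b X) ∈ foldL a b ℓ L '' region (cells L) := by
  obtain ⟨e, he, m, r, g0, g1, g2, ex, ey⟩ := hc
  have hk := (kpos (b := b) ha).ne'
  set T1 : ℝ := ((trans a b e m r).1 : ℝ) with hT1
  set T2 : ℝ := ((trans a b e m r).2 : ℝ) with hT2
  let x : Plane := !₂[(rotPt r X).1 + T1, (rotPt r X).2 + T2]
  have x0 : x 0 = (rotPt r X).1 + T1 := rfl
  have x1 : x 1 = (rotPt r X).2 + T2 := rfl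
  obtain ⟨c1, c2, c3, c4⟩ := rotPt_cell r h1 h2 h3 h4
  have ex' : ((rotCell r i j).1 : ℝ) + T1 = e.x := by rw [hT1]; exact_mod_cast ex
  have ey' : ((rotCell r i j).2 : ℝ) + T2 = e.y := by rw [hT2]; exact_mod_cast ey
  have hx : x ∈ square e.cell := by
    refine ⟨?_, ?_, ?_, ?_⟩ <;> simp only [Entry.cell, x0, x1] <;> linarith
  refine ⟨x, mem_region_cells.2 ⟨e, he, hx⟩, ?_⟩
  rw [foldL_eq ha hp he hx]
  obtain ⟨l1, l2⟩ := rotPt_lattice (b := b) ha r X
  obtain ⟨m1, m2⟩ := rotSq_mem r hu hv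
  have eT1 : T1 = a * (e.sx + (offE m).1 + (offRot r).1) -
      b * (e.sy + (offE m).2 + (offRot r).2) := by rw [hT1]; simp only [trans]; push_cast; ring
  have eT2 : T2 = b * (e.sx + (offE m).1 + (offRot r).1) +
      a * (e.sy + (offE m).2 + (offRot r).2) := by rw [hT2]; simp only [trans]; push_cast; ring
  rw [foldE_eq_pt m m1 m2]
  · unfold pt
    rw [val_subRot, val_subRot, val_subRot, g0, g1, g2]
  · rw [← l1]
    simp only [zu, x0, x1]
    rw [eT1, eT2]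
    field_simp
    ring
  · rw [← l2]
    simp only [zv, x0, x1]
    rw [eT1, eT2]
    field_simp
    ring

end Pool.Agent.Lib.MP_a49afe_co
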