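import Pool.Agent.Lib.MP_a49afe_co.Main

/-!
# A checked certificate gives a net of the cube: final assembly
-/

open MeasureTheory Measure Metric Set
open scoped MeasureTheory ENNReal

namespace Pool.Agent.Lib.MP_a49afe_co

/-- Every point of the cube surface lies on one of the six framed faces. -/
lemma exists_face {ℓ : ℝ} (hℓ : 0 < ℓ) {q : Space} (hq : q ∈ cubeSurface ℓ) :
    ∃ F ∈ faceFrames, ∃ u v : ℝ, (0 ≤ u ∧ u ≤ 1) ∧ (0 ≤ v ∧ v ≤ 1) ∧
      pt ℓ F.1 F.2.1 F.2.2 u v = q := by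
  obtain ⟨hbox, i, hi⟩ := hq
  have hb : ∀ n, 0 ≤ q n / ℓ ∧ q n / ℓ ≤ 1 := fun n =>
    ⟨div_nonneg (hbox n).1 hℓ.le, (div_le_one hℓ).2 (hbox n).2⟩
  have hb' : ∀ n, 0 ≤ 1 - q n / ℓ ∧ 1 - q n / ℓ ≤ 1 := fun n =>
    ⟨by linarith [(hb n).2], by linarith [(hb n).1]⟩
  have hm : ∀ n, ℓ * (q n / ℓ) = q n := fun n => by field_simp
  have hm' : ∀ n, ℓ * (1 - (1 - q n / ℓ)) = q n := fun n => by
    rw [sub_sub_cancel]; exact hm n
  have h01 : (0 : Fin 3) ≠ 1 := by decide
  have h02 : (0 : Fin 3) ≠ 2 := by decide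
  have h12 : (1 : Fin 3) ≠ 2 := by decide
  rcases hi with h | h <;> fin_cases i
  · -- x₀ = 0
    refine ⟨(2, 1, 3), by simp [faceFrames], 1 - q 2 / ℓ, q 1 / ℓ, hb' 2, hb 1, ?_⟩
    apply space_ext h01 h02 h12
    · show ℓ * val 2 _ _ 0 = q 0
      simp only [val, mul_zero]; exact h.symm
    · show ℓ * val 1 _ _ 0 = q 1
      simp only [val]; exact hm 1
    · show ℓ * val 3 _ _ 0 = q 2
      simp only [val]; exact hm' 2
  · -- x₁ = 0
    refine ⟨(0, 2, 4), by simp [faceFrames], q 0 / ℓ, 1 - q 2 / ℓ, hb 0, hb' 2, ?_⟩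
    apply space_ext h01 h02 h12
    · show ℓ * val 0 _ _ 0 = q 0
      simp only [val]; exact hm 0
    · show ℓ * val 2 _ _ 0 = q 1
      simp only [val, mul_zero]; exact h.symm
    · show ℓ * val 4 _ _ 0 = q 2
      simp only [val]; exact hm' 2
  · -- x₂ = 0
    refine ⟨(0, 1, 2), by simp [faceFrames], q 0 / ℓ, q 1 / ℓ, hb 0, hb 1, ?_⟩
    apply space_ext h01 h02 h12
    · show ℓ * val 0 _ _ 0 = q 0
      simp only [val]; exact hm 0
    · show ℓ * val 1 _ _ 0 = q 1
      simp only [val]; exact hm 1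
    · show ℓ * val 2 _ _ 0 = q 2
      simp only [val, mul_zero]; exact h.symm
  · -- x₀ = ℓ
    refine ⟨(5, 1, 0), by simp [faceFrames], q 2 / ℓ, q 1 / ℓ, hb 2, hb 1, ?_⟩
    apply space_ext h01 h02 h12
    · show ℓ * val 5 _ _ 0 = q 0
      simp only [val, sub_zero, mul_one]; exact h.symm
    · show ℓ * val 1 _ _ 0 = q 1
      simp only [val]; exact hm 1
    · show ℓ * val 0 _ _ 0 = q 2
      simp only [val]; exact hm 2
  · -- x₁ = ℓ
    refine ⟨(0, 5, 1), by simp [faceFrames], q 0 / ℓ, q 2 / ℓ, hb 0, hb 2, ?_⟩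
    apply space_ext h01 h02 h12
    · show ℓ * val 0 _ _ 0 = q 0
      simp only [val]; exact hm 0
    · show ℓ * val 5 _ _ 0 = q 1
      simp only [val, sub_zero, mul_one]; exact h.symm
    · show ℓ * val 1 _ _ 0 = q 2
      simp only [val]; exact hm 2
  · -- x₂ = ℓ
    refine ⟨(3, 1, 5), by simp [faceFrames], 1 - q 0 / ℓ, q 1 / ℓ, hb' 0, hb 1, ?_⟩
    apply space_ext h01 h02 h12
    · show ℓ * val 3 _ _ 0 = q 0
      simp only [val]; exact hm' 0
    · show ℓ * val 1 _ _ 0 = q 1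
      simp only [val]; exact hm 1
    · show ℓ * val 5 _ _ 0 = q 2
      simp only [val, sub_zero, mul_one]; exact h.symm

/-- An affine function that is at most `0` at the corners of a unit square is at most `0` on it. -/
lemma lin_square_nonpos {α β γ X Y x y : ℝ} (h00 : α * X + β * Y + γ ≤ 0)
    (h10 : α * (X + 1) + β * Y + γ ≤ 0) (h01 : α * X + β * (Y + 1) + γ ≤ 0)
    (h11 : α * (X + 1) + β * (Y + 1) + γ ≤ 0) (hx : X ≤ x) (hx' : x ≤ X + 1) (hy : Y ≤ y)
    (hy' : y ≤ Y + 1) : α * x + β * y + γ ≤ 0 := by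
  have := lin_square (α := -α) (β := -β) (γ := -γ) (by linarith) (by linarith) (by linarith)
    (by linarith) hx hx' hy hy'
  linarith

/-- A separated cell contains no point over the open lattice square. -/
lemma separated_false {a b i j : ℤ} (ha : 0 < a) (hs : separated a b i j) {X : Plane}
    (h1 : (i : ℝ) ≤ X 0) (h2 : X 0 ≤ i + 1) (h3 : (j : ℝ) ≤ X 1) (h4 : X 1 ≤ j + 1)
    (hu : 0 < zu a b X ∧ zu a b X < 1) (hv : 0 < zv a b X ∧ zv a b X < 1) : False := by
  have hk := kpos (b := b) ha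
  obtain ⟨u0, u1⟩ := hu
  obtain ⟨v0, v1⟩ := hv
  unfold zu at u0 u1
  unfold zv at v0 v1
  rw [lt_div_iff₀ hk] at u0 v0
  rw [div_lt_iff₀ hk] at u1 v1
  unfold separated uu vv at hs
  simp only [mul_zero, sub_zero] at hs
  rcases hs with ⟨s1, s2, s3, s4⟩ | ⟨s1, s2, s3, s4⟩ | ⟨s1, s2, s3, s4⟩ | ⟨s1, s2, s3, s4⟩
  · have t1 : ((a * i + b * j : ℤ) : ℝ) ≤ 0 := by exact_mod_cast s1
    have t2 : ((a * (i + 1) + b * j : ℤ) : ℝ) ≤ 0 := by exact_mod_cast s2
    have t3 : ((a * i + b * (j + 1) : ℤ) : ℝ) ≤ 0 := by exact_mod_cast s3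
    have t4 : ((a * (i + 1) + b * (j + 1) : ℤ) : ℝ) ≤ 0 := by exact_mod_cast s4
    push_cast at t1 t2 t3 t4
    have := lin_square_nonpos (α := a) (β := b) (γ := 0) (by linarith) (by linarith)
      (by linarith) (by linarith) h1 h2 h3 h4
    linarith
  · have t1 : ((a * a + b * b : ℤ) : ℝ) ≤ ((a * i + b * j : ℤ) : ℝ) := by exact_mod_cast s1
    have t2 : ((a * a + b * b : ℤ) : ℝ) ≤ ((a * (i + 1) + b * j : ℤ) : ℝ) := by
      exact_mod_cast s2
    have t3 : ((a * a + b * b : ℤ) : ℝ) ≤ ((a * i + b * (j + 1) : ℤ) : ℝ) := by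
      exact_mod_cast s3
    have t4 : ((a * a + b * b : ℤ) : ℝ) ≤ ((a * (i + 1) + b * (j + 1) : ℤ) : ℝ) := by
      exact_mod_cast s4
    push_cast at t1 t2 t3 t4
    have := lin_square (α := a) (β := b) (γ := -(a * a + b * b)) (by linarith) (by linarith)
      (by linarith) (by linarith) h1 h2 h3 h4
    linarith
  · have t1 : ((-b * i + a * j : ℤ) : ℝ) ≤ 0 := by exact_mod_cast s1
    have t2 : ((-b * (i + 1) + a * j : ℤ) : ℝ) ≤ 0 := by exact_mod_cast s2
    have t3 : ((-b * i + a * (j + 1) : ℤ) : ℝ) ≤ 0 := by exact_mod_cast s3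
    have t4 : ((-b * (i + 1) + a * (j + 1) : ℤ) : ℝ) ≤ 0 := by exact_mod_cast s4
    push_cast at t1 t2 t3 t4
    have := lin_square_nonpos (α := -b) (β := a) (γ := 0) (by linarith) (by linarith)
      (by linarith) (by linarith) h1 h2 h3 h4
    linarith
  · have t1 : ((a * a + b * b : ℤ) : ℝ) ≤ ((-b * i + a * j : ℤ) : ℝ) := by exact_mod_cast s1
    have t2 : ((a * a + b * b : ℤ) : ℝ) ≤ ((-b * (i + 1) + a * j : ℤ) : ℝ) := by
      exact_mod_cast s2
    have t3 : ((a * a + b * b : ℤ) : ℝ) ≤ ((-b * i + a * (j + 1) : ℤ) : ℝ) := by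
      exact_mod_cast s3
    have t4 : ((a * a + b * b : ℤ) : ℝ) ≤ ((-b * (i + 1) + a * (j + 1) : ℤ) : ℝ) := by
      exact_mod_cast s4
    push_cast at t1 t2 t3 t4
    have := lin_square (α := -b) (β := a) (γ := -(a * a + b * b)) (by linarith) (by linarith)
      (by linarith) (by linarith) h1 h2 h3 h4
    linarith

/-- The generic points of a face are in the image. -/
lemma generic_mem {a b : ℤ} {L : List Entry} {W : List (ℕ × ℕ × ℕ)} {ℓ : ℝ}
    (h : CheckOK a b L W) {F : ℕ × ℕ × ℕ} (hF : F ∈ faceFrames) {X : Plane}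
    (hu : 0 < zu a b X ∧ zu a b X < 1) (hv : 0 < zv a b X ∧ zv a b X < 1) :
    pt ℓ F.1 F.2.1 F.2.2 (zu a b X) (zv a b X) ∈ foldL a b ℓ L '' region (cells L) := by
  obtain ⟨ha, hb, -, -, hp, hcov⟩ := h
  have hk := kpos (b := b) ha
  have ha' : (0 : ℝ) < a := by exact_mod_cast ha
  have hb' : (0 : ℝ) ≤ b := by exact_mod_cast hb
  set i := ⌊X 0⌋ with hi
  set j := ⌊X 1⌋ with hj
  have i1 : (i : ℝ) ≤ X 0 := Int.floor_le _
  have i2 : X 0 < i + 1 := Int.lt_floor_add_one _
  have j1 : (j : ℝ) ≤ X 1 := Int.floor_le _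
  have j2 : X 1 < j + 1 := Int.lt_floor_add_one _
  have e0 : X 0 = a * zu a b X - b * zv a b X := by
    unfold zu zv; field_simp; ring
  have e1 : X 1 = b * zu a b X + a * zv a b X := by
    unfold zu zv; field_simp; ring
  have bi1 : -b ≤ i := by
    have : (((-b - 1 : ℤ)) : ℝ) < (i : ℝ) := by
      push_cast
      nlinarith [mul_pos ha' hu.1, mul_nonneg hb' (sub_nonneg.2 hv.2.le)]
    have := Int.cast_lt.1 this
    omega
  have bi2 : i < a := by
    have : (i : ℝ) < (a : ℝ) := by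
      nlinarith [mul_pos ha' (sub_pos.2 hu.2), mul_nonneg hb' hv.1.le]
    exact Int.cast_lt.1 this
  have bj1 : 0 ≤ j := by
    have : (((-1 : ℤ)) : ℝ) < (j : ℝ) := by
      push_cast
      nlinarith [mul_pos ha' hv.1, mul_nonneg hb' hu.1.le]
    have := Int.cast_lt.1 this
    omega
  have bj2 : j < a + b := by
    have : (j : ℝ) < ((a + b : ℤ) : ℝ) := by
      push_cast
      nlinarith [mul_pos ha' (sub_pos.2 hv.2), mul_nonneg hb' (sub_nonneg.2 hu.2.le)]
    exact Int.cast_lt.1 this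
  have ht : (F, i, j) ∈ targets a b := by
    unfold targets
    rw [List.mem_flatMap]
    refine ⟨F, hF, ?_⟩
    rw [List.mem_flatMap]
    have r1 : (i + b).toNat ∈ List.range (a + b).toNat := by
      rw [List.mem_range]; omega
    have r2 : j.toNat ∈ List.range (a + b).toNat := by
      rw [List.mem_range]; omega
    refine ⟨(i + b).toNat, r1, ?_⟩
    rw [List.mem_map]
    refine ⟨j.toNat, r2, ?_⟩
    simp only [Prod.mk.injEq, true_and]
    constructor <;> omega
  rcases coverAll_spec hcov _ ht with hs | hc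
  · exact (separated_false ha hs i1 i2.le j1 j2.le hu hv).elim
  · exact covered_mem ha hp hc i1 i2.le j1 j2.le ⟨hu.1.le, hu.2.le⟩ ⟨hv.1.le, hv.2.le⟩

lemma continuous_pt (ℓ : ℝ) (g0 g1 g2 : ℕ) :
    Continuous (fun w : Plane => pt ℓ g0 g1 g2 (w 0) (w 1)) := by
  have h : ∀ g : ℕ, Continuous (fun w : Plane => ℓ * val g (w 0) (w 1) 0) := fun g =>
    continuous_const.mul (continuous_val g (cont_coord 0) (cont_coord 1) continuous_const)
  unfold pt
  apply (PiLp.continuous_toLp 2 _).comp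
  apply continuous_pi
  intro i
  fin_cases i
  · exact h g0
  · exact h g1
  · exact h g2

/-- **Soundness.** A checked certificate gives a net of the cube of edge `√(a² + b²)`. -/
theorem net_of_check {a b : ℤ} {L : List Entry} {W : List (ℕ × ℕ × ℕ)} {ℓ : ℝ} (hℓ : 0 < ℓ)
    (hℓ2 : ℓ ^ 2 = a * a + b * b) (h : CheckOK a b L W) : IsCubeNet (cells L) ℓ := by
  obtain ⟨ha, hb, hlen, hv, hp, hcov⟩ := id h
  let 𝒯 : Set (Set Plane) := Set.image2 (piece a b) {e | e ∈ L} {m | m < 5}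
  have hfin : 𝒯.Finite := Set.Finite.image2 _ (List.finite_toSet L) (Set.finite_lt_nat 5)
  have hpoly : ∀ T ∈ 𝒯, IsConvexPolygon T := by
    rintro _ ⟨e, he, m, hm, rfl⟩
    exact piece_polygon ha e m
  have hcover : ⋃₀ 𝒯 = region (cells L) := by
    apply subset_antisymm
    · rintro x ⟨_, ⟨e, he, m, hm, rfl⟩, hx⟩
      exact mem_region_cells.2 ⟨e, he, hx.1⟩
    · intro x hx
      obtain ⟨e, he, hxe⟩ := mem_region_cells.1 hx
      obtain ⟨m, hm, hxm⟩ := exists_piece ha (hv e he).2 hxe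
      exact ⟨_, ⟨e, he, m, hm, rfl⟩, hxm⟩
  have hiso : ∀ T ∈ 𝒯, IsoOn (foldL a b ℓ L) T := by
    rintro _ ⟨e, he, m, hm, rfl⟩ x hx y hy
    rw [foldL_eq ha hp he hx.1, foldL_eq ha hp he hy.1]
    exact foldE_isoOn ha hℓ2 (hv e he).1 m x hx y hy
  have hcont : ContinuousOn (foldL a b ℓ L) (region (cells L)) := by
    rw [← hcover]
    exact continuousOn_sUnion hfin (fun T hT => (hpoly T hT).isClosed)
      (fun T hT => (hiso T hT).continuousOn)
  have hcompact : IsCompact (region (cells L)) := by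
    rw [← hcover, sUnion_eq_biUnion]
    exact hfin.isCompact_biUnion (fun T hT => (hpoly T hT).isCompact)
  have himage : foldL a b ℓ L '' region (cells L) = cubeSurface ℓ := by
    apply subset_antisymm
    · rintro _ ⟨x, hx, rfl⟩
      obtain ⟨e, he, hxe⟩ := mem_region_cells.1 hx
      rw [foldL_eq ha hp he hxe]
      obtain ⟨m, -, -, b1, b2, b3, b4⟩ := exists_piece ha (hv e he).2 hxe
      rw [foldE_eq_pt m (u := zu a b x - e.sx - (offE m).1)
        (v := zv a b x - e.sy - (offE m).2) ⟨by linarith, by linarith⟩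
        ⟨by linarith, by linarith⟩ (by ring) (by ring)]
      exact pt_mem hℓ (valid3_subE m (hv e he).1) ⟨by linarith, by linarith⟩
        ⟨by linarith, by linarith⟩
    · intro q hq
      obtain ⟨F, hF, u, v, hu, hv', rfl⟩ := exists_face hℓ hq
      set K := foldL a b ℓ L '' region (cells L) with hK
      have hKc : IsClosed K := (hcompact.image_of_continuousOn hcont).isClosed
      by_contra hnot
      let Q : Plane → Space := fun w => pt ℓ F.1 F.2.1 F.2.2 (w 0) (w 1)
      have hQ : Continuous Q := continuous_pt ℓ _ _ _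
      let w0 : Plane := !₂[u, v]
      have hw0 : w0 ∈ square (0, 0) := by
        refine ⟨?_, ?_, ?_, ?_⟩
        · simpa [w0] using hu.1
        · simpa [w0] using hu.2
        · simpa [w0] using hv'.1
        · simpa [w0] using hv'.2
      have hV : IsOpen (Q ⁻¹' Kᶜ) := hKc.isOpen_compl.preimage hQ
      obtain ⟨w, hwV, hwO⟩ := mem_closure_iff.1 (square_subset_closure _ hw0) _ hV hnot
      -- the open set of points in the plane of the polyomino
      let ζ : Plane → Plane := fun X => !₂[zu a b X, zv a b X]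
      have hζ : Continuous ζ := by
        apply (PiLp.continuous_toLp 2 _).comp
        apply continuous_pi
        intro i
        fin_cases i
        · exact continuous_zu a b
        · exact continuous_zv a b
      let O : Set Plane := ζ ⁻¹' (Q ⁻¹' Kᶜ ∩ orect (0, 0) (0, 0))
      have hO : IsOpen O := (hV.inter (isOpen_orect _ _)).preimage hζ
      have hk := kpos (b := b) ha
      have hOne : O.Nonempty := by
        refine ⟨!₂[a * w 0 - b * w 1, b * w 0 + a * w 1], ?_⟩
        have : ζ (!₂[a * w 0 - b * w 1, b * w 0 + a * w 1]) = w := by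
          ext i
          fin_cases i
          · show zu a b _ = w 0
            simp [zu]
            field_simp
            ring
          · show zv a b _ = w 1
            simp [zv]
            field_simp
            ring
        show ζ (!₂[a * w 0 - b * w 1, b * w 0 + a * w 1]) ∈ Q ⁻¹' Kᶜ ∩ orect (0, 0) (0, 0)
        rw [this]
        exact ⟨hwV, hwO⟩
      obtain ⟨X, hX⟩ := hOne
      obtain ⟨hXV, x1, x2, x3, x4⟩ := hX
      simp only [min_self, max_self, Int.cast_zero, zero_add] at x1 x2 x3 x4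
      apply hXV
      exact generic_mem h hF ⟨x1, x2⟩ ⟨x3, x4⟩
  refine ⟨foldL a b ℓ L, 𝒯, hfin, hpoly, hcover, hiso, hcont, himage, ?_⟩
  have hpre : PreFold (cells L) ℓ (foldL a b ℓ L) 𝒯 :=
    ⟨hfin, fun T hT => (hpoly T hT).isCompact, hcover, hiso, himage⟩
  apply hpre.injOn hℓ
  have h1 : (cells L).card ≤ L.length := by
    unfold cells
    exact (List.toFinset_card_le _).trans (by simp)
  have h2 : ((cells L).card : ℝ) ≤ L.length := by exact_mod_cast h1
  have h3 : ((L.length : ℤ) : ℝ) ≤ ((6 * (a * a + b * b) : ℤ) : ℝ) := by exact_mod_cast hlen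
  push_cast at h3
  rw [hℓ2]
  linarith

end Pool.Agent.Lib.MP_a49afe_co
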