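import Pool.Agent.Lib.MP_a49afe_co.Lower

/-!
# Folding the open polyomino

A weaker notion of net: the folding map is only required on the interior of the polyomino, and
the closure of its image is the surface of the cube.  In particular two cells that touch only in
a corner may come apart at that corner.
-/

open MeasureTheory Measure Metric Set Filter
open scoped MeasureTheory ENNReal Topology

namespace Pool.Agent.Lib.MP_a49afe_co

lemma isCompact_square (c : Cell) : IsCompact (square c) := by
  apply Metric.isCompact_of_isClosed_isBounded (isClosed_square c)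
  rw [isBounded_iff_forall_norm_le]
  refine ⟨|(c.1 : ℝ)| + 1 + (|(c.2 : ℝ)| + 1), ?_⟩
  rintro x ⟨x1, x2, x3, x4⟩
  have h0 : |x 0| ≤ |(c.1 : ℝ)| + 1 := by
    rw [abs_le]
    constructor
    · linarith [neg_abs_le (c.1 : ℝ)]
    · linarith [le_abs_self (c.1 : ℝ)]
  have h1 : |x 1| ≤ |(c.2 : ℝ)| + 1 := by
    rw [abs_le]
    constructor
    · linarith [neg_abs_le (c.2 : ℝ)]
    · linarith [le_abs_self (c.2 : ℝ)]
  have hn : ‖x‖ ^ 2 ≤ (|x 0| + |x 1|) ^ 2 := by
    rw [EuclideanSpace.norm_sq_eq, Fin.sum_univ_two, Real.norm_eq_abs, Real.norm_eq_abs]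
    nlinarith [abs_nonneg (x 0), abs_nonneg (x 1)]
  have := (sq_le_sq₀ (norm_nonneg x) (by positivity)).1 hn
  linarith

lemma isCompact_region (P : Finset Cell) : IsCompact (region P) := by
  unfold region
  exact P.finite_toSet.isCompact_biUnion (fun c _ => isCompact_square c)

lemma isCompact_cubeSurface (ℓ : ℝ) : IsCompact (cubeSurface ℓ) := by
  apply Metric.isCompact_of_isClosed_isBounded (isClosed_cubeSurface ℓ)
  rw [isBounded_iff_forall_norm_le]
  refine ⟨3 * |ℓ|, ?_⟩
  rintro x ⟨hx, -⟩
  have h : ∀ i, |x i| ≤ |ℓ| := by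
    intro i
    rw [abs_of_nonneg (hx i).1]
    exact (hx i).2.trans (le_abs_self ℓ)
  have hn : ‖x‖ ^ 2 ≤ (|x 0| + |x 1| + |x 2|) ^ 2 := by
    rw [EuclideanSpace.norm_sq_eq, Fin.sum_univ_three, Real.norm_eq_abs, Real.norm_eq_abs,
      Real.norm_eq_abs]
    nlinarith [abs_nonneg (x 0), abs_nonneg (x 1), abs_nonneg (x 2),
      mul_nonneg (abs_nonneg (x 0)) (abs_nonneg (x 1)),
      mul_nonneg (abs_nonneg (x 0)) (abs_nonneg (x 2)),
      mul_nonneg (abs_nonneg (x 1)) (abs_nonneg (x 2))]
  have := (sq_le_sq₀ (norm_nonneg x) (by positivity)).1 hn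
  linarith [h 0, h 1, h 2]

/-- A net is a net in the weak sense. -/
lemma IsCubeNet.isOpenCubeNet {P : Finset Cell} {ℓ : ℝ} (h : IsCubeNet P ℓ) :
    IsOpenCubeNet P ℓ := by
  obtain ⟨f, 𝒯, h1, h2, h3, h4, h5, h6, h7⟩ := h
  refine ⟨f, 𝒯, h1, h2, h3, ?_, h5.mono interior_subset, ?_, h7⟩
  · intro T hT x hx y hy
    exact h4 T hT x hx.1 y hy.1
  · apply subset_antisymm
    · apply closure_minimal _ (isClosed_cubeSurface ℓ)
      rw [← h6]
      exact image_mono interior_subset
    · rw [← h6]
      rintro _ ⟨x, hx, rfl⟩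
      have hx' : x ∈ closure (interior (region P)) := region_subset_closure_interior P hx
      exact ((h5 x hx).mono interior_subset).mem_closure_image hx'

/-- The data of a weak folding map. -/
structure OFold (P : Finset Cell) (ℓ : ℝ) (f : Plane → Space) (𝒯 : Set (Set Plane)) : Prop where
  fin : 𝒯.Finite
  closed : ∀ T ∈ 𝒯, IsCompact T
  cover : ⋃₀ 𝒯 = region P
  iso : ∀ T ∈ 𝒯, IsoOn f (T ∩ interior (region P))
  cont : ContinuousOn f (interior (region P))
  image : closure (f '' interior (region P)) = cubeSurface ℓ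
  inj : InjOn f (interior (region P))

lemma IsOpenCubeNet.exists_fold {P : Finset Cell} {ℓ : ℝ} (h : IsOpenCubeNet P ℓ) :
    ∃ f 𝒯, OFold P ℓ f 𝒯 := by
  obtain ⟨f, 𝒯, h1, h2, h3, h4, h5, h6, h7⟩ := h
  exact ⟨f, 𝒯, h1, fun T hT => (h2 T hT).isCompact, h3, h4, h5, h6, h7⟩

variable {P : Finset Cell} {ℓ : ℝ} {f : Plane → Space} {𝒯 : Set (Set Plane)}

lemma OFold.mem (h : OFold P ℓ f 𝒯) {x : Plane} (hx : x ∈ interior (region P)) :
    f x ∈ cubeSurface ℓ := by
  rw [← h.image]; exact subset_closure (mem_image_of_mem f hx)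

lemma OFold.subset (h : OFold P ℓ f 𝒯) : interior (region P) ⊆ ⋃₀ 𝒯 := by
  rw [h.cover]; exact interior_subset

lemma OFold.lip (h : OFold P ℓ f 𝒯) {S : Set Plane} (hS : Convex ℝ S)
    (hSP : S ⊆ interior (region P)) {x y : Plane} (hx : x ∈ S) (hy : y ∈ S) :
    dist (f x) (f y) ≤ dist x y :=
  lip_convex h.fin (fun T hT => (h.closed T hT).isClosed) hS (hSP.trans h.subset)
    (fun T hT => (h.iso T hT).mono (inter_subset_inter_right T hSP)) hx hy

lemma OFold.measure_le (h : OFold P ℓ f 𝒯) {A : Set Plane} (hA : A ⊆ interior (region P)) :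
    μHE[2] (f '' A) ≤ volume A := by
  rw [← EuclideanSpace.euclideanHausdorffMeasure_eq_volume]
  exact pw_measure_le h.fin (fun T hT => (h.closed T hT).isClosed.measurableSet)
    (hA.trans h.subset) (fun T hT => (h.iso T hT).mono (inter_subset_inter_right T hA))

lemma OFold.measure_eq (h : OFold P ℓ f 𝒯) {A : Set Plane} (hAm : MeasurableSet A)
    (hA : A ⊆ interior (region P)) : μHE[2] (f '' A) = volume A := by
  rw [← EuclideanSpace.euclideanHausdorffMeasure_eq_volume]
  exact pw_measure_eq h.fin (fun T hT => (h.closed T hT).isClosed.measurableSet) hAm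
    (hA.trans h.subset) (fun T hT => (h.iso T hT).mono (inter_subset_inter_right T hA))
    (h.inj.mono hA)

/-- Interior points are not mapped to vertices. -/
lemma OFold.not_vertex (h : OFold P ℓ f 𝒯) {x : Plane} (hx : x ∈ interior (region P)) :
    ¬ ∀ m, f x m = 0 ∨ f x m = ℓ := by
  intro hv
  obtain ⟨δ, hδ, hle⟩ := area_vertex_le hv
  obtain ⟨ε, hε, hball⟩ := Metric.isOpen_iff.1 isOpen_interior x hx
  set r := min δ ε / 2 with hr
  have hm : 0 < min δ ε := lt_min hδ hε
  have hr0 : 0 < r := by positivity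
  have hrδ : r < δ := by linarith [min_le_left δ ε]
  have hrε : r < ε := by linarith [min_le_right δ ε]
  have hsub : closedBall x r ⊆ interior (region P) :=
    (closedBall_subset_ball hrε).trans hball
  have h1 : μHE[2] (f '' closedBall x r) = D r := by
    rw [h.measure_eq measurableSet_closedBall hsub, volume_closedBall_eq]
  have h2 : f '' closedBall x r ⊆ cubeSurface ℓ ∩ closedBall (f x) r := by
    rintro _ ⟨z, hz, rfl⟩
    refine ⟨h.mem (hsub hz), ?_⟩
    rw [mem_closedBall]
    exact (h.lip (convex_closedBall x r) hsub hz (mem_closedBall_self hr0.le)).trans hz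
  have h3 := (measure_mono h2).trans (hle r hr0.le hrδ)
  rw [h1] at h3
  exact absurd h3 (not_le.2 (three_lt_four (four_K r) (D_pos hr0) (D_ne_top r)))

/-- Local development. -/
lemma OFold.local_dev (h : OFold P ℓ f 𝒯) (hℓ : 0 < ℓ) {p : Plane}
    (hp : p ∈ interior (region P)) :
    ∃ (ρ : ℝ) (w : Plane) (L : Plane ≃ₗᵢ[ℝ] Plane), 0 < ρ ∧
      ∀ x ∈ ball p ρ, H3 ℓ (f x) = H2 ℓ (w + L (x - p)) := by
  have hv := h.not_vertex hp
  push Not at hv
  obtain ⟨k, hk0, hkl⟩ := hv
  obtain ⟨U, A, B, δ, hA, hB, iA, iB, inj, hδ, hcov, hH⟩ :=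
    exists_unfold hℓ (h.mem hp) hk0 hkl
  obtain ⟨ε, hε, hball⟩ := Metric.isOpen_iff.1 isOpen_interior p hp
  set r := min δ ε / 2 with hr
  have hm : 0 < min δ ε := lt_min hδ hε
  have hr0 : 0 < r := by positivity
  have hrδ : r < δ := by linarith [min_le_left δ ε]
  have hrε : r < ε := by linarith [min_le_right δ ε]
  have hcsub : closedBall p r ⊆ interior (region P) := (closedBall_subset_ball hrε).trans hball
  have hsub : ball p r ⊆ interior (region P) := ball_subset_closedBall.trans hcsub
  have hAB : ∀ x ∈ ball p r, f x ∈ A ∪ B := by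
    intro x hx
    have h1 : dist (f x) (f p) < δ := by
      calc dist (f x) (f p) ≤ dist x p := h.lip (convex_ball p r) hsub hx (mem_ball_self hr0)
        _ < r := hx
        _ ≤ δ := hrδ.le
    rcases hcov (f x) (h.mem (hsub hx)) h1 with h | h
    · exact Or.inl h.1
    · exact Or.inr h.1
  have hcl : ∀ T ∈ 𝒯, ∀ C : Set Space, IsClosed C →
      IsClosed ((T ∩ closedBall p r) ∩ f ⁻¹' C) := by
    intro T hT C hC
    have hTi : IsoOn f (T ∩ closedBall p r) :=
      (h.iso T hT).mono (inter_subset_inter_right T hcsub)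
    exact hTi.continuousOn.preimage_isClosed_of_isClosed
      ((h.closed T hT).isClosed.inter isClosed_closedBall) hC
  have hiso : IsoOn (fun x => U (f x)) (ball p (r / 4)) := by
    apply local_isometry (𝒯 := (fun T => (T ∩ closedBall p r) ∩ f ⁻¹' A) '' 𝒯 ∪
      (fun T => (T ∩ closedBall p r) ∩ f ⁻¹' B) '' 𝒯)
    · intro x hx y hy hxy
      exact h.inj (hsub hx) (hsub hy) (inj (hAB x hx) (hAB y hy) hxy)
    · exact (h.fin.image _).union (h.fin.image _)
    · rintro T (⟨T, hT, rfl⟩ | ⟨T, hT, rfl⟩)
      · exact hcl T hT A hA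
      · exact hcl T hT B hB
    · intro x hx
      have hxP := interior_subset (hsub hx)
      rw [← h.cover] at hxP
      obtain ⟨T, hT, hxT⟩ := hxP
      rcases hAB x hx with hx' | hx'
      · exact ⟨_, Or.inl ⟨T, hT, rfl⟩, ⟨hxT, ball_subset_closedBall hx⟩, hx'⟩
      · exact ⟨_, Or.inr ⟨T, hT, rfl⟩, ⟨hxT, ball_subset_closedBall hx⟩, hx'⟩
    · rintro T (⟨T, hT, rfl⟩ | ⟨T, hT, rfl⟩)
      · intro x hx y hy
        rw [← h.iso T hT x ⟨hx.1.1.1, hsub hx.2⟩ y ⟨hy.1.1.1, hsub hy.2⟩]
        exact iA _ hx.1.2 _ hy.1.2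
      · intro x hx y hy
        rw [← h.iso T hT x ⟨hx.1.1.1, hsub hx.2⟩ y ⟨hy.1.1.1, hsub hy.2⟩]
        exact iB _ hx.1.2 _ hy.1.2
  obtain ⟨L, hL⟩ := exists_affine (by positivity) hiso
  refine ⟨r / 4, U (f p), L, by positivity, ?_⟩
  intro x hx
  have hxr : x ∈ ball p r := by
    rw [mem_ball] at *
    linarith
  rw [← hL x hx]
  exact (hH (f x) (hAB x hxr)).symm

/-! ### The closed graph -/

/-- The graph of `f` over `S`. -/
def graph (f : Plane → Space) (S : Set Plane) : Set (Plane × Space) := (fun x => (x, f x)) '' S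

lemma isClosed_of_graph {S : Set Plane} {C : Set (Plane × Space)} (hC : IsClosed C)
    (h : ∀ x ∈ S, (x, f x) ∈ C) : closure (graph f S) ⊆ C := by
  apply closure_minimal _ hC
  rintro _ ⟨x, hx, rfl⟩
  exact h x hx

lemma graph_mono {S S' : Set Plane} (h : S ⊆ S') : closure (graph f S) ⊆ closure (graph f S') :=
  closure_mono (image_mono h)

lemma graph_fst {S : Set Plane} {x : Plane} {v : Space} (h : (x, v) ∈ closure (graph f S)) :
    x ∈ closure S := by
  have := isClosed_of_graph (f := f) (S := S) (C := Prod.fst ⁻¹' closure S)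
    (isClosed_closure.preimage continuous_fst) (fun x hx => subset_closure hx)
  exact this h

lemma graph_pair {S : Set Plane} (K : ℝ → ℝ → Prop)
    (hK : IsClosed {z : ℝ × ℝ | K z.1 z.2})
    (h : ∀ x ∈ S, ∀ y ∈ S, K (dist (f x) (f y)) (dist x y)) {x y : Plane} {v w : Space}
    (hx : (x, v) ∈ closure (graph f S)) (hy : (y, w) ∈ closure (graph f S)) :
    K (dist v w) (dist x y) := by
  have h1 : ∀ z ∈ S, K (dist (f z) w) (dist z y) := by
    intro z hz
    have hcl : IsClosed {q : Plane × Space | K (dist (f z) q.2) (dist z q.1)} :=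
      hK.preimage (f := fun q : Plane × Space => (dist (f z) q.2, dist z q.1))
        ((continuous_const.dist continuous_snd).prodMk (continuous_const.dist continuous_fst))
    have h2 := isClosed_of_graph (f := f) (S := S) hcl
      (fun t ht => by rw [mem_ofPred_eq]; exact h z hz t ht)
    have h3 := h2 hy
    rw [mem_ofPred_eq] at h3
    exact h3
  have hcl : IsClosed {q : Plane × Space | K (dist q.2 w) (dist q.1 y)} :=
    hK.preimage (f := fun q : Plane × Space => (dist q.2 w, dist q.1 y))
      ((continuous_snd.dist continuous_const).prodMk (continuous_fst.dist continuous_const))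
  have h2 := isClosed_of_graph (f := f) (S := S) hcl
    (fun t ht => by rw [mem_ofPred_eq]; exact h1 t ht)
  have h3 := h2 hx
  rw [mem_ofPred_eq] at h3
  exact h3

lemma graph_iso {S : Set Plane} (h : IsoOn f S) {x y : Plane} {v w : Space}
    (hx : (x, v) ∈ closure (graph f S)) (hy : (y, w) ∈ closure (graph f S)) :
    dist v w = dist x y :=
  graph_pair (f := f) (S := S) (fun a b => a = b)
    (isClosed_eq continuous_fst continuous_snd) h hx hy

lemma graph_lip {S : Set Plane} (h : ∀ x ∈ S, ∀ y ∈ S, dist (f x) (f y) ≤ dist x y)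
    {x y : Plane} {v w : Space}
    (hx : (x, v) ∈ closure (graph f S)) (hy : (y, w) ∈ closure (graph f S)) :
    dist v w ≤ dist x y :=
  graph_pair (f := f) (S := S) (fun a b => a ≤ b)
    (isClosed_le continuous_fst continuous_snd) h hx hy

/-- Localisation of the closed graph. -/
lemma graph_local {S U : Set Plane} (hU : IsOpen U) {x : Plane} (hx : x ∈ U) {v : Space}
    (h : (x, v) ∈ closure (graph f S)) : (x, v) ∈ closure (graph f (S ∩ U)) := by
  rw [_root_.mem_closure_iff] at h ⊢
  intro o ho hxo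
  obtain ⟨z, ⟨hz1, hz2⟩, hz3⟩ := h (o ∩ Prod.fst ⁻¹' U)
    (ho.inter (hU.preimage continuous_fst)) ⟨hxo, hx⟩
  obtain ⟨y, hy, rfl⟩ := hz3
  exact ⟨_, hz1, y, ⟨hy, hz2⟩, rfl⟩

lemma OFold.graph_subset (h : OFold P ℓ f 𝒯) :
    closure (graph f (interior (region P))) ⊆ region P ×ˢ cubeSurface ℓ :=
  isClosed_of_graph ((isClosed_region P).prod (isClosed_cubeSurface ℓ))
    (fun _ hx => ⟨interior_subset hx, h.mem hx⟩)

lemma OFold.isCompact_graph (h : OFold P ℓ f 𝒯) {S : Set Plane}
    (hS : S ⊆ interior (region P)) : IsCompact (closure (graph f S)) :=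
  ((isCompact_region P).prod (isCompact_cubeSurface ℓ)).of_isClosed_subset isClosed_closure
    ((graph_mono hS).trans h.graph_subset)

lemma OFold.exists_fst (h : OFold P ℓ f 𝒯) {v : Space} (hv : v ∈ cubeSurface ℓ) :
    ∃ x, (x, v) ∈ closure (graph f (interior (region P))) := by
  have hc : IsClosed (Prod.snd '' closure (graph f (interior (region P)))) :=
    ((h.isCompact_graph subset_rfl).image continuous_snd).isClosed
  rw [← h.image] at hv
  have : f '' interior (region P) ⊆ Prod.snd '' closure (graph f (interior (region P))) := by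
    rintro _ ⟨x, hx, rfl⟩
    exact ⟨(x, f x), subset_closure ⟨x, hx, rfl⟩, rfl⟩
  obtain ⟨⟨x, w⟩, hx, hw⟩ := closure_minimal this hc hv
  obtain rfl : w = v := hw
  exact ⟨x, hx⟩

lemma OFold.exists_snd (h : OFold P ℓ f 𝒯) {S : Set Plane} (hS : S ⊆ interior (region P))
    {x : Plane} (hx : x ∈ closure S) : ∃ v, (x, v) ∈ closure (graph f S) := by
  have hc : IsClosed (Prod.fst '' closure (graph f S)) :=
    ((h.isCompact_graph hS).image continuous_fst).isClosed
  have : S ⊆ Prod.fst '' closure (graph f S) := by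
    intro y hy
    exact ⟨(y, f y), subset_closure ⟨y, hy, rfl⟩, rfl⟩
  obtain ⟨⟨y, w⟩, hy, hw⟩ := closure_minimal this hc hx
  obtain rfl : y = x := hw
  exact ⟨w, hy⟩

/-- Over interior points the closed graph is the graph. -/
lemma OFold.graph_interior (h : OFold P ℓ f 𝒯) {x : Plane} (hx : x ∈ interior (region P))
    {v : Space} (hv : (x, v) ∈ closure (graph f (interior (region P)))) : v = f x := by
  obtain ⟨ε, hε, hball⟩ := Metric.isOpen_iff.1 isOpen_interior x hx
  have h1 := graph_local isOpen_ball (mem_ball_self hε) hv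
  have h2 : (x, f x) ∈ closure (graph f (interior (region P) ∩ ball x ε)) :=
    subset_closure ⟨x, ⟨hx, mem_ball_self hε⟩, rfl⟩
  have h3 : ∀ y ∈ interior (region P) ∩ ball x ε, ∀ z ∈ interior (region P) ∩ ball x ε,
      dist (f y) (f z) ≤ dist y z := fun y hy z hz =>
    h.lip (convex_ball x ε) hball hy.2 hz.2
  have := graph_lip h3 h1 h2
  rw [dist_self] at this
  exact dist_le_zero.1 this

/-- Global development. -/
lemma OFold.global_dev (h : OFold P ℓ f 𝒯) (hℓ : 0 < ℓ) (hP : IsPolyomino P) :
    ∃ (w p : Plane) (L : Plane ≃ₗᵢ[ℝ] Plane),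
      ∀ x v, (x, v) ∈ closure (graph f (interior (region P))) →
        H3 ℓ v = H2 ℓ (w + L (x - p)) := by
  obtain ⟨c, hc⟩ := hP.1
  have hp : centre c ∈ interior (region P) :=
    orect_subset_interior hc hc (Or.inl rfl) (centre_mem c c)
  obtain ⟨ρ, w, L, hρ, hdev⟩ := h.local_dev hℓ hp
  refine ⟨w, centre c, L, ?_⟩
  have han : AnalyticOnNhd ℝ (fun x => H3 ℓ (f x)) (interior (region P)) := by
    intro q hq
    obtain ⟨ρ', w', L', hρ', hdev'⟩ := h.local_dev hℓ hq
    apply (analytic_H2 ℓ w' q L' q (mem_univ _)).congr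
    filter_upwards [ball_mem_nhds q hρ'] with x hx
    exact (hdev' x hx).symm
  have heq : EqOn (fun x => H3 ℓ (f x)) (fun x => H2 ℓ (w + L (x - centre c)))
      (interior (region P)) := by
    apply han.eqOn_of_preconnected_of_eventuallyEq
      ((analytic_H2 ℓ w (centre c) L).mono (subset_univ _)) (isPreconnected_interior hP) hp
    filter_upwards [ball_mem_nhds (centre c) hρ] with x hx
    exact hdev x hx
  have hcont3 : Continuous (H3 ℓ) := by
    unfold H3
    fun_prop
  have hcl : IsClosed {z : Plane × Space | H3 ℓ z.2 = H2 ℓ (w + L (z.1 - centre c))} :=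
    isClosed_eq (hcont3.comp continuous_snd) ((continuous_H2 ℓ w (centre c) L).comp continuous_fst)
  intro x v hxv
  have h1 := isClosed_of_graph (f := f) (S := interior (region P)) hcl
    (fun y hy => by rw [mem_ofPred_eq]; exact heq hy)
  have h2 := h1 hxv
  rw [mem_ofPred_eq] at h2
  exact h2

/-- The closed graph over the boundary has an image of area zero. -/
lemma OFold.boundary_null (h : OFold P ℓ f 𝒯) :
    μHE[2] {q : Space | ∃ z, z ∉ interior (region P) ∧
      (z, q) ∈ closure (graph f (interior (region P)))} = 0 := by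
  classical
  have hsub : {q : Space | ∃ z, z ∉ interior (region P) ∧
      (z, q) ∈ closure (graph f (interior (region P)))} ⊆
      ⋃ T ∈ 𝒯, {q : Space | ∃ z, z ∉ interior (region P) ∧
        (z, q) ∈ closure (graph f (T ∩ interior (region P)))} := by
    rintro q ⟨z, hz, hzq⟩
    have h1 : graph f (interior (region P)) ⊆ ⋃ T ∈ 𝒯, graph f (T ∩ interior (region P)) := by
      rintro _ ⟨x, hx, rfl⟩
      obtain ⟨T, hT, hxT⟩ := h.subset hx
      exact mem_biUnion hT ⟨x, ⟨hxT, hx⟩, rfl⟩
    have h2 := closure_mono h1 hzq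
    rw [h.fin.closure_biUnion] at h2
    obtain ⟨T, hT, hzT⟩ := mem_iUnion₂.1 h2
    exact mem_biUnion hT ⟨z, hz, hzT⟩
  apply measure_mono_null hsub
  rw [measure_biUnion_null_iff h.fin.countable]
  intro T hT
  set G := closure (graph f (T ∩ interior (region P))) with hG
  let g : Plane → Space := fun z => if hz : ∃ q, (z, q) ∈ G then hz.choose else 0
  have hg : ∀ z, (∃ q, (z, q) ∈ G) → (z, g z) ∈ G := by
    intro z hz
    simp only [g, dif_pos hz]
    exact hz.choose_spec
  let E : Set Plane := {z | z ∉ interior (region P) ∧ ∃ q, (z, q) ∈ G}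
  have hE : E ⊆ region P \ interior (region P) := by
    rintro z ⟨hz, q, hq⟩
    exact ⟨(h.graph_subset (graph_mono inter_subset_right hq)).1, hz⟩
  have himg : {q : Space | ∃ z, z ∉ interior (region P) ∧ (z, q) ∈ G} ⊆ g '' E := by
    rintro q ⟨z, hz, hzq⟩
    refine ⟨z, ⟨hz, q, hzq⟩, ?_⟩
    have := graph_iso (h.iso T hT) (hg z ⟨q, hzq⟩) hzq
    rw [dist_self] at this
    exact dist_eq_zero.1 this
  apply measure_mono_null himg
  have hiso : IsoOn g E := by
    rintro z ⟨-, hz⟩ z' ⟨-, hz'⟩
    exact graph_iso (h.iso T hT) (hg z hz) (hg z' hz')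
  rw [hiso.measure_image, EuclideanSpace.euclideanHausdorffMeasure_eq_volume]
  exact measure_mono_null hE (volume_region_sdiff_interior P)

/-- Every vertex of the cube is a limit value at a lattice point. -/
lemma OFold.exists_lattice (h : OFold P ℓ f 𝒯) (hℓ : 0 < ℓ) {v : Space}
    (hv : ∀ m, v m = 0 ∨ v m = ℓ) :
    ∃ x, (x, v) ∈ closure (graph f (interior (region P))) ∧ ∃ a b : ℤ, x 0 = a ∧ x 1 = b := by
  by_contra hcon
  push Not at hcon
  have hvs : v ∈ cubeSurface ℓ := by
    refine ⟨?_, 0, hv 0⟩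
    intro i
    rcases hv i with h | h <;> rw [h]
    · exact ⟨le_refl _, hℓ.le⟩
    · exact ⟨hℓ.le, le_refl _⟩
  -- properties of the points in the fibre
  have hfib : ∀ x, (x, v) ∈ closure (graph f (interior (region P))) →
      ∃ δ : ℝ, 0 < δ ∧ ∀ r < δ, Convex ℝ (region P ∩ closedBall x r) ∧
        2 * volume (region P ∩ closedBall x r) = D r := by
    intro x hx
    apply half_boundary (h.graph_subset hx).1
    · intro hxi
      apply h.not_vertex hxi
      rw [← h.graph_interior hxi hx]
      exact hv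
    · rintro ⟨a, b, ha, hb⟩
      exact hcon x hx a b ha hb
  have hlip : ∀ x r, Convex ℝ (region P ∩ closedBall x r) → 0 < r →
      ∀ y z w w', y ∈ ball x r → z ∈ ball x r →
        (y, w) ∈ closure (graph f (interior (region P))) →
        (z, w') ∈ closure (graph f (interior (region P))) → dist w w' ≤ dist y z := by
    intro x r hc hr y z w w' hy hz hyw hzw
    have h1 := graph_local isOpen_ball hy hyw
    have h2 := graph_local isOpen_ball hz hzw
    have e : interior (region P) ∩ ball x r = interior (region P ∩ closedBall x r) := by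
      rw [interior_inter, interior_closedBall x hr.ne']
    have hci : Convex ℝ (interior (region P) ∩ ball x r) := by
      rw [e]; exact hc.interior
    exact graph_lip (fun a ha b hb => h.lip hci inter_subset_left ha hb) h1 h2
  obtain ⟨x, hx⟩ := h.exists_fst hvs
  obtain ⟨δx, hδx, hhx⟩ := hfib x hx
  obtain ⟨δv, hδv, hle⟩ := area_vertex_le hv
  by_cases hex : ∃ y, (y, v) ∈ closure (graph f (interior (region P))) ∧ y ≠ x
  · obtain ⟨y, hy, hyx⟩ := hex
    obtain ⟨δy, hδy, hhy⟩ := hfib y hy
    have hd : 0 < dist y x := dist_pos.2 hyx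
    set r := min (min δx δy) (min δv (dist y x)) / 3 with hr
    have hm : 0 < min (min δx δy) (min δv (dist y x)) :=
      lt_min (lt_min hδx hδy) (lt_min hδv hd)
    have hr0 : 0 < r := by positivity
    have b1 : min (min δx δy) (min δv (dist y x)) ≤ δx :=
      (min_le_left _ _).trans (min_le_left _ _)
    have b2 : min (min δx δy) (min δv (dist y x)) ≤ δy :=
      (min_le_left _ _).trans (min_le_right _ _)
    have b3 : min (min δx δy) (min δv (dist y x)) ≤ δv :=
      (min_le_right _ _).trans (min_le_left _ _)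
    have b4 : min (min δx δy) (min δv (dist y x)) ≤ dist y x :=
      (min_le_right _ _).trans (min_le_right _ _)
    obtain ⟨cx, -⟩ := hhx (2 * r) (by linarith)
    obtain ⟨cy, -⟩ := hhy (2 * r) (by linarith)
    obtain ⟨-, vx⟩ := hhx r (by linarith)
    obtain ⟨-, vy⟩ := hhy r (by linarith)
    set Ax := region P ∩ closedBall x r with hAx
    set Ay := region P ∩ closedBall y r with hAy
    have hmx : MeasurableSet Ax := (isClosed_region P).measurableSet.inter measurableSet_closedBall
    have hmy : MeasurableSet Ay := (isClosed_region P).measurableSet.inter measurableSet_closedBall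
    have hdisj : Disjoint Ax Ay := by
      rw [Set.disjoint_left]
      rintro z ⟨-, hzx⟩ ⟨-, hzy⟩
      rw [mem_closedBall] at hzx hzy
      have := dist_triangle y z x
      rw [dist_comm y z] at this
      linarith
    have hvol : volume (Ax ∪ Ay) = D r := by
      rw [measure_union hdisj hmy]
      have h2 : 2 * (volume Ax + volume Ay) = 2 * D r := by
        rw [mul_add, vx, vy, two_mul]
      exact (ENNReal.mul_right_inj (by norm_num) (by norm_num)).1 h2
    have hsubP : Ax ∪ Ay ⊆ region P := union_subset inter_subset_left inter_subset_left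
    have hvol2 : volume ((Ax ∪ Ay) ∩ interior (region P)) = D r := by
      rw [← hvol]
      apply le_antisymm (measure_mono inter_subset_left)
      calc volume (Ax ∪ Ay) ≤ volume (((Ax ∪ Ay) ∩ interior (region P)) ∪
            (region P \ interior (region P))) := by
            apply measure_mono
            intro z hz
            by_cases hzi : z ∈ interior (region P)
            · exact Or.inl ⟨hz, hzi⟩
            · exact Or.inr ⟨hsubP hz, hzi⟩
        _ ≤ volume ((Ax ∪ Ay) ∩ interior (region P)) +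
            volume (region P \ interior (region P)) := measure_union_le _ _
        _ = volume ((Ax ∪ Ay) ∩ interior (region P)) := by
            rw [volume_region_sdiff_interior, add_zero]
    have himg : μHE[2] (f '' ((Ax ∪ Ay) ∩ interior (region P))) = D r := by
      rw [h.measure_eq ((hmx.union hmy).inter isOpen_interior.measurableSet)
        inter_subset_right, hvol2]
    have hsub2 : f '' ((Ax ∪ Ay) ∩ interior (region P)) ⊆ cubeSurface ℓ ∩ closedBall v r := by
      rintro _ ⟨z, ⟨hz, hzi⟩, rfl⟩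
      refine ⟨h.mem hzi, ?_⟩
      rw [mem_closedBall]
      have hzg : (z, f z) ∈ closure (graph f (interior (region P))) :=
        subset_closure ⟨z, hzi, rfl⟩
      rcases hz with hz | hz
      · have hzr : dist z x ≤ r := mem_closedBall.1 hz.2
        refine (hlip x (2 * r) cx (by linarith) z x (f z) v ?_
          (mem_ball_self (by linarith)) hzg hx).trans hzr
        rw [mem_ball]
        linarith
      · have hzr : dist z y ≤ r := mem_closedBall.1 hz.2
        refine (hlip y (2 * r) cy (by linarith) z y (f z) v ?_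
          (mem_ball_self (by linarith)) hzg hy).trans hzr
        rw [mem_ball]
        linarith
    have h3 := (measure_mono hsub2).trans (hle r hr0.le (by linarith))
    rw [himg] at h3
    exact absurd h3 (not_le.2 (three_lt_four (four_K r) (D_pos hr0) (D_ne_top r)))
  · push Not at hex
    -- the fibre is a single point
    have hval : ∀ w, (x, w) ∈ closure (graph f (interior (region P))) → w = v := by
      intro w hw
      obtain ⟨cx, -⟩ := hhx (δx / 2) (by linarith)
      have := hlip x (δx / 2) cx (by linarith) x x w v (mem_ball_self (by linarith))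
        (mem_ball_self (by linarith)) hw hx
      rw [dist_self] at this
      exact dist_le_zero.1 this
    set bad : Set (Set Plane) := {T ∈ 𝒯 | x ∉ closure (T ∩ interior (region P))} with hbad
    have hC : IsClosed (⋃ T ∈ bad, Prod.snd '' closure (graph f (T ∩ interior (region P)))) := by
      apply (h.fin.subset (fun T hT => hT.1)).isClosed_biUnion
      intro T hT
      exact ((h.isCompact_graph inter_subset_right).image continuous_snd).isClosed
    have hvC : v ∉ ⋃ T ∈ bad, Prod.snd '' closure (graph f (T ∩ interior (region P))) := by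
      intro hmem
      obtain ⟨T, hT, ⟨z, w⟩, hz, hzw⟩ := mem_iUnion₂.1 hmem
      obtain rfl : w = v := hzw
      have := hex z (graph_mono inter_subset_right hz)
      subst this
      exact hT.2 (graph_fst hz)
    obtain ⟨ε, hε, hεC⟩ := Metric.isOpen_iff.1 hC.isOpen_compl v hvC
    set r := min (min δx ε) (min ℓ δv) / 2 with hr
    have hm : 0 < min (min δx ε) (min ℓ δv) := lt_min (lt_min hδx hε) (lt_min hℓ hδv)
    have hr0 : 0 < r := by positivity
    have b1 : min (min δx ε) (min ℓ δv) ≤ δx := (min_le_left _ _).trans (min_le_left _ _)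
    have b2 : min (min δx ε) (min ℓ δv) ≤ ε := (min_le_left _ _).trans (min_le_right _ _)
    have b3 : min (min δx ε) (min ℓ δv) ≤ ℓ := (min_le_right _ _).trans (min_le_left _ _)
    obtain ⟨-, vx⟩ := hhx r (by linarith)
    have hsub : cubeSurface ℓ ∩ closedBall v r ⊆
        f '' (interior (region P) ∩ closedBall x r) ∪
        {q : Space | ∃ z, z ∉ interior (region P) ∧
          (z, q) ∈ closure (graph f (interior (region P)))} := by
      rintro q ⟨hq, hqr⟩
      obtain ⟨z, hz⟩ := h.exists_fst hq
      by_cases hzi : z ∈ interior (region P)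
      · left
        have hqz := h.graph_interior hzi hz
        subst hqz
        refine ⟨z, ⟨hzi, ?_⟩, rfl⟩
        obtain ⟨T, hT, hzT⟩ := h.subset hzi
        have hzG : (z, f z) ∈ closure (graph f (T ∩ interior (region P))) :=
          subset_closure ⟨z, ⟨hzT, hzi⟩, rfl⟩
        by_cases hxT : x ∈ closure (T ∩ interior (region P))
        · obtain ⟨w, hw⟩ := h.exists_snd inter_subset_right hxT
          obtain rfl : w = v := hval w (graph_mono inter_subset_right hw)
          rw [mem_closedBall, ← graph_iso (h.iso T hT) hzG hw]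
          exact hqr
        · exfalso
          apply hεC (a := f z)
          · rw [mem_ball]
            rw [mem_closedBall] at hqr
            linarith
          · exact mem_biUnion (show T ∈ bad from ⟨hT, hxT⟩) ⟨_, hzG, rfl⟩
      · right
        exact ⟨z, hzi, hz⟩
    have h1 := area_vertex_ge hℓ hv hr0.le (by linarith)
    have h2 : μHE[2] (cubeSurface ℓ ∩ closedBall v r) ≤ volume (region P ∩ closedBall x r) := by
      calc μHE[2] (cubeSurface ℓ ∩ closedBall v r)
          ≤ μHE[2] (f '' (interior (region P) ∩ closedBall x r)) +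
            μHE[2] {q : Space | ∃ z, z ∉ interior (region P) ∧
              (z, q) ∈ closure (graph f (interior (region P)))} :=
            (measure_mono hsub).trans (measure_union_le _ _)
        _ = μHE[2] (f '' (interior (region P) ∩ closedBall x r)) := by
            rw [h.boundary_null, add_zero]
        _ ≤ volume (interior (region P) ∩ closedBall x r) := h.measure_le inter_subset_left
        _ ≤ volume (region P ∩ closedBall x r) :=
            measure_mono (inter_subset_inter_left _ interior_subset)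
    have h3 := h1.trans h2
    have h4 : 2 * (3 * volume (K' r)) ≤ D r := by
      rw [← vx]
      gcongr
    have h5 : 2 * (3 * volume (K' r)) = 6 * volume (K' r) := by rw [← mul_assoc]; norm_num
    rw [h5, ← four_K' r] at h4
    have hV : volume (K' r) ≠ ⊤ := by
      intro htop
      apply D_ne_top r
      rw [← four_K' r, htop]
      exact ENNReal.mul_top (by norm_num)
    have hV0 : volume (K' r) ≠ 0 := by
      intro hz
      have := D_pos hr0
      rw [← four_K' r, hz] at this
      simp at this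
    rw [ENNReal.mul_le_mul_iff_left hV0 hV] at h4
    norm_num at h4

/-! ### Two vertices over different lattice points -/

/-- The limit values at a point come from the cells that contain it. -/
lemma OFold.exists_cell (h : OFold P ℓ f 𝒯) {x : Plane} {v : Space}
    (hx : (x, v) ∈ closure (graph f (interior (region P)))) :
    ∃ c ∈ P, x ∈ square c ∧ (x, v) ∈ closure (graph f (orect c c)) := by
  have h1 : graph f (interior (region P)) ⊆ ⋃ c ∈ (P : Set Cell), closure (graph f (orect c c)) := by
    rintro _ ⟨y, hy, rfl⟩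
    obtain ⟨c, hc, hyc⟩ := mem_iUnion₂.1 (interior_subset hy)
    refine mem_biUnion (show c ∈ (P : Set Cell) from hc) ?_
    have hcont : ContinuousAt (fun z : Plane => (z, f z)) y :=
      continuousAt_id.prodMk (h.cont.continuousAt (isOpen_interior.mem_nhds hy))
    exact hcont.continuousWithinAt.mem_closure_image (square_subset_closure c hyc)
  have hcl : IsClosed (⋃ c ∈ (P : Set Cell), closure (graph f (orect c c))) :=
    P.finite_toSet.isClosed_biUnion (fun c _ => isClosed_closure)
  obtain ⟨c, hc, hxc⟩ := mem_iUnion₂.1 (closure_minimal h1 hcl hx)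
  refine ⟨c, hc, ?_, hxc⟩
  have h2 : orect c c ⊆ square c := by
    rintro z ⟨z1, z2, z3, z4⟩
    simp only [min_self, max_self] at z1 z2 z3 z4
    exact ⟨z1.le, z2.le, z3.le, z4.le⟩
  exact closure_minimal h2 (isClosed_square c) (graph_fst hxc)

lemma OFold.cell_unique (h : OFold P ℓ f 𝒯) {c : Cell} (hc : c ∈ P) {x : Plane} {v w : Space}
    (hv : (x, v) ∈ closure (graph f (orect c c))) (hw : (x, w) ∈ closure (graph f (orect c c))) :
    v = w := by
  have hsub : orect c c ⊆ interior (region P) := orect_subset_interior hc hc (Or.inl rfl)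
  have := graph_lip (fun a ha b hb => h.lip (convex_orect c c) hsub ha hb) hv hw
  rw [dist_self] at this
  exact dist_le_zero.1 this

/-- The vertex of the cube with the given coordinate pattern. -/
noncomputable def vertex (ℓ : ℝ) (s : Fin 3 → Bool) : Space :=
  WithLp.toLp 2 (fun i => if s i then ℓ else 0)

lemma vertex_apply (ℓ : ℝ) (s : Fin 3 → Bool) (i : Fin 3) :
    vertex ℓ s i = if s i then ℓ else 0 := rfl

lemma vertex_spec (ℓ : ℝ) (s : Fin 3 → Bool) : ∀ m, vertex ℓ s m = 0 ∨ vertex ℓ s m = ℓ := by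
  intro m
  rw [vertex_apply]
  cases s m
  · left; simp
  · right; simp

lemma vertex_injective {ℓ : ℝ} (hℓ : 0 < ℓ) : Function.Injective (vertex ℓ) := by
  intro s t hst
  funext i
  have h1 : vertex ℓ s i = vertex ℓ t i := by rw [hst]
  rw [vertex_apply, vertex_apply] at h1
  cases hs : s i <;> cases ht : t i <;> rw [hs, ht] at h1
  · simp at h1
    exact absurd h1.symm hℓ.ne'
  · simp at h1
    exact absurd h1 hℓ.ne'

/-- Two vertices of the cube are limit values at two different lattice points. -/
lemma OFold.exists_two (h : OFold P ℓ f 𝒯) (hℓ : 0 < ℓ) :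
    ∃ (x y : Plane) (v w : Space), x ≠ y ∧ (∀ m, v m = 0 ∨ v m = ℓ) ∧
      (∀ m, w m = 0 ∨ w m = ℓ) ∧ (x, v) ∈ closure (graph f (interior (region P))) ∧
      (y, w) ∈ closure (graph f (interior (region P))) ∧
      (∃ a b : ℤ, x 0 = a ∧ x 1 = b) ∧ ∃ a b : ℤ, y 0 = a ∧ y 1 = b := by
  choose X hX a b ha hb using fun s : Fin 3 → Bool =>
    h.exists_lattice hℓ (vertex_spec ℓ s)
  by_contra hcon
  have hall : ∀ s t, X s = X t := by
    intro s t
    by_contra hne
    exact hcon ⟨X s, X t, vertex ℓ s, vertex ℓ t, hne, vertex_spec ℓ s, vertex_spec ℓ t,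
      hX s, hX t, ⟨_, _, ha s, hb s⟩, ⟨_, _, ha t, hb t⟩⟩
  choose c hc hxc hgc using fun s => h.exists_cell (hX s)
  have hcinj : Function.Injective c := by
    intro s t hst
    apply vertex_injective hℓ
    have h1 := hgc s
    have h2 := hgc t
    rw [← hst, ← hall s t] at h2
    exact h.cell_unique (hc s) h1 h2
  -- all the cells contain the same lattice point
  let s0 : Fin 3 → Bool := fun _ => false
  have hmaps : ∀ s, c s ∈ ({(a s0, b s0), (a s0 - 1, b s0), (a s0, b s0 - 1),
      (a s0 - 1, b s0 - 1)} : Finset Cell) := by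
    intro s
    obtain ⟨x1, x2, x3, x4⟩ := hxc s
    rw [hall s s0, ha s0] at x1 x2
    rw [hall s s0, hb s0] at x3 x4
    have y1 : (c s).1 ≤ a s0 := by exact_mod_cast x1
    have y2 : a s0 ≤ (c s).1 + 1 := by
      have : ((a s0 : ℤ) : ℝ) ≤ (((c s).1 + 1 : ℤ) : ℝ) := by push_cast; linarith
      exact Int.cast_le.1 this
    have y3 : (c s).2 ≤ b s0 := by exact_mod_cast x3
    have y4 : b s0 ≤ (c s).2 + 1 := by
      have : ((b s0 : ℤ) : ℝ) ≤ (((c s).2 + 1 : ℤ) : ℝ) := by push_cast; linarith
      exact Int.cast_le.1 this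
    simp only [Finset.mem_insert, Finset.mem_singleton, Prod.ext_iff]
    omega
  have hcard : (Finset.univ.image c).card ≤ 4 := by
    refine (Finset.card_le_card (t := ({(a s0, b s0), (a s0 - 1, b s0), (a s0, b s0 - 1),
      (a s0 - 1, b s0 - 1)} : Finset Cell)) ?_).trans Finset.card_le_four
    intro d hd
    obtain ⟨s, -, rfl⟩ := Finset.mem_image.1 hd
    exact hmaps s
  rw [Finset.card_image_of_injective _ hcinj] at hcard
  simp at hcard

/-- The arithmetic consequence. -/
lemma OFold.arith (h : OFold P ℓ f 𝒯) (hℓ : 0 < ℓ) (hP : IsPolyomino P) :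
    ∃ a b c d : ℤ, ((c : ℝ) ^ 2 + (d : ℝ) ^ 2 = ℓ ^ 2 * ((a : ℝ) ^ 2 + (b : ℝ) ^ 2)) ∧
      c ^ 2 + d ^ 2 ≠ 0 := by
  obtain ⟨w, p, L, hdev⟩ := h.global_dev hℓ hP
  have hH3 : ∀ v : Space, (∀ m, v m = 0 ∨ v m = ℓ) → H3 ℓ v = 2 := by
    intro v hv
    rw [H3, Fin.sum_univ_three, cos_end hℓ (hv 0), cos_end hℓ (hv 1), cos_end hℓ (hv 2)]
    norm_num
  obtain ⟨x, y, v1, v2, hxy, hv1, hv2, hx, hy, ⟨x0, x1, hx0, hx1⟩, ⟨y0, y1, hy0, hy1⟩⟩ :=
    h.exists_two hℓ
  have ex := hdev x v1 hx
  have ey := hdev y v2 hy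
  rw [hH3 v1 hv1] at ex
  rw [hH3 v2 hv2] at ey
  obtain ⟨m, n, hm, hn⟩ := cos_sum_two ex.symm
  obtain ⟨m', n', hm', hn'⟩ := cos_sum_two ey.symm
  have hd : dist (w + L (x - p)) (w + L (y - p)) = dist x y := by
    rw [dist_add_left, L.dist_map, dist_sub_right]
  have hd2 : dist (w + L (x - p)) (w + L (y - p)) ^ 2 = dist x y ^ 2 := by rw [hd]
  rw [dist_sq_plane, dist_sq_plane, hx0, hx1, hy0, hy1] at hd2
  have g0 : (w + L (x - p)) 0 = m * ℓ := by rw [← hm]; field_simp
  have g1 : (w + L (x - p)) 1 = n * ℓ := by rw [← hn]; field_simp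
  have g0' : (w + L (y - p)) 0 = m' * ℓ := by rw [← hm']; field_simp
  have g1' : (w + L (y - p)) 1 = n' * ℓ := by rw [← hn']; field_simp
  rw [g0, g1, g0', g1'] at hd2
  refine ⟨m - m', n - n', x0 - y0, x1 - y1, ?_, ?_⟩
  · push_cast
    rw [← hd2]
    ring
  · intro hz
    apply hxy
    have hz' : ((x0 : ℝ) - y0) ^ 2 + ((x1 : ℝ) - y1) ^ 2 = 0 := by exact_mod_cast hz
    have hdist : dist x y ^ 2 = 0 := by
      rw [dist_sq_plane, hx0, hx1, hy0, hy1]
      exact hz'
    exact dist_eq_zero.1 (pow_eq_zero_iff (by norm_num) |>.1 hdist)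

/-- **Theorem.** If a polyomino is a net, in the weak sense, of a cube of edge `√k` with `k ≥ 1`,
then `k` is a sum of two squares. -/
theorem sum_two_squares_of_openNet {P : Finset Cell} {k : ℕ} (hk : 0 < k) (hP : IsPolyomino P)
    (h : IsOpenCubeNet P (Real.sqrt k)) : ∃ a b : ℕ, k = a ^ 2 + b ^ 2 := by
  obtain ⟨f, 𝒯, hF⟩ := h.exists_fold
  have hk' : (0 : ℝ) < k := by exact_mod_cast hk
  obtain ⟨a, b, c, d, h1, h2⟩ := hF.arith (Real.sqrt_pos.2 hk') hP
  rw [Real.sq_sqrt hk'.le] at h1
  have h3 : c ^ 2 + d ^ 2 = (k : ℤ) * (a ^ 2 + b ^ 2) := by exact_mod_cast h1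
  exact sum_two_squares_of_eq hk h3 h2

end Pool.Agent.Lib.MP_a49afe_co
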