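import Pool.Agent.Lib.MP_a49afe_co.SurfArea

/-!
# Topology and measure of polyomino regions
-/

open MeasureTheory Measure Metric Set
open scoped MeasureTheory ENNReal

namespace Pool.Agent.Lib.MP_a49afe_co

lemma cont_coord (i : Fin 2) : Continuous (fun x : Plane => x i) := by fun_prop

lemma isClosed_square (c : Cell) : IsClosed (square c) := by
  have : square c = {x : Plane | (c.1 : ℝ) ≤ x 0} ∩ ({x | x 0 ≤ c.1 + 1} ∩
      ({x | (c.2 : ℝ) ≤ x 1} ∩ {x | x 1 ≤ c.2 + 1})) := by
    ext x; simp [square]
  rw [this]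
  exact (isClosed_le continuous_const (cont_coord 0)).inter
    ((isClosed_le (cont_coord 0) continuous_const).inter
    ((isClosed_le continuous_const (cont_coord 1)).inter
    (isClosed_le (cont_coord 1) continuous_const)))

lemma isClosed_region (P : Finset Cell) : IsClosed (region P) := by
  unfold region
  exact P.finite_toSet.isClosed_biUnion (fun c _ => isClosed_square c)

lemma IsConvexPolygon.isClosed {T : Set Plane} (h : IsConvexPolygon T) : IsClosed T := by
  obtain ⟨-, n, a, b, c, rfl⟩ := h
  have : {x : Plane | ∀ i, a i * x 0 + b i * x 1 ≤ c i} =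
      ⋂ i, {x : Plane | a i * x 0 + b i * x 1 ≤ c i} := by
    ext x; simp
  rw [this]
  apply isClosed_iInter
  intro i
  exact isClosed_le (((cont_coord 0).const_mul _ |>.add ((cont_coord 1).const_mul _)))
    continuous_const

lemma IsConvexPolygon.isCompact {T : Set Plane} (h : IsConvexPolygon T) : IsCompact T :=
  Metric.isCompact_of_isClosed_isBounded h.isClosed h.1

lemma square_subset_region {P : Finset Cell} {c : Cell} (hc : c ∈ P) : square c ⊆ region P :=
  fun _ hx => mem_biUnion hc hx

/-- The open rectangle spanned by two cells. -/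
def orect (c d : Cell) : Set Plane :=
  {x | ((min c.1 d.1 : ℤ) : ℝ) < x 0 ∧ x 0 < ((max c.1 d.1 : ℤ) : ℝ) + 1 ∧
    ((min c.2 d.2 : ℤ) : ℝ) < x 1 ∧ x 1 < ((max c.2 d.2 : ℤ) : ℝ) + 1}

lemma isOpen_orect (c d : Cell) : IsOpen (orect c d) := by
  have : orect c d = {x : Plane | ((min c.1 d.1 : ℤ) : ℝ) < x 0} ∩
      ({x | x 0 < ((max c.1 d.1 : ℤ) : ℝ) + 1} ∩
      ({x | ((min c.2 d.2 : ℤ) : ℝ) < x 1} ∩ {x | x 1 < ((max c.2 d.2 : ℤ) : ℝ) + 1})) := by
    ext x; simp [orect]
  rw [this]
  exact (isOpen_lt continuous_const (cont_coord 0)).inter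
    ((isOpen_lt (cont_coord 0) continuous_const).inter
    ((isOpen_lt continuous_const (cont_coord 1)).inter
    (isOpen_lt (cont_coord 1) continuous_const)))

lemma convex_orect (c d : Cell) : Convex ℝ (orect c d) := by
  intro x hx y hy a b ha hb hab
  obtain ⟨x1, x2, x3, x4⟩ := hx
  obtain ⟨y1, y2, y3, y4⟩ := hy
  have key : ∀ (l u v : ℝ), l < u → l < v → l < a * u + b * v := by
    intro l u v hu hv
    rcases eq_or_lt_of_le ha with h | h
    · have hb1 : b = 1 := by linarith
      rw [← h, hb1]; linarith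
    · have hl : a * l + b * l = l := by rw [← add_mul, hab, one_mul]
      linarith [mul_lt_mul_of_pos_left hu h, mul_le_mul_of_nonneg_left hv.le hb]
  have key2 : ∀ (l u v : ℝ), u < l → v < l → a * u + b * v < l := by
    intro l u v hu hv
    have := key (-l) (-u) (-v) (by linarith) (by linarith)
    linarith
  refine ⟨?_, ?_, ?_, ?_⟩ <;> simp only [PiLp.add_apply, PiLp.smul_apply, smul_eq_mul]
  · exact key _ _ _ x1 y1
  · exact key2 _ _ _ x2 y2
  · exact key _ _ _ x3 y3
  · exact key2 _ _ _ x4 y4

lemma adj_cases {c d : Cell} (h : Adj c d) :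
    (d = (c.1 + 1, c.2)) ∨ (d = (c.1 - 1, c.2)) ∨ (d = (c.1, c.2 + 1)) ∨ (d = (c.1, c.2 - 1)) := by
  obtain ⟨c1, c2⟩ := c
  obtain ⟨d1, d2⟩ := d
  simp only [Adj] at h
  simp only [Prod.mk.injEq]
  have : |c1 - d1| = 0 ∧ |c2 - d2| = 1 ∨ |c1 - d1| = 1 ∧ |c2 - d2| = 0 := by
    have h1 := abs_nonneg (c1 - d1)
    have h2 := abs_nonneg (c2 - d2)
    omega
  rcases this with ⟨h1, h2⟩ | ⟨h1, h2⟩
  · rw [abs_eq_zero] at h1
    rcases (abs_eq (by norm_num)).1 h2 with h | h <;> omega
  · rw [abs_eq_zero] at h2
    rcases (abs_eq (by norm_num)).1 h1 with h | h <;> omega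

lemma orect_subset {P : Finset Cell} {c d : Cell} (hc : c ∈ P) (hd : d ∈ P)
    (h : c = d ∨ Adj c d) : orect c d ⊆ region P := by
  intro x hx
  obtain ⟨x1, x2, x3, x4⟩ := hx
  have aux : x ∈ square c ∨ x ∈ square d := by
    rcases h with rfl | h
    · left
      simp only [min_self, max_self] at x1 x2 x3 x4
      exact ⟨x1.le, x2.le, x3.le, x4.le⟩
    · rcases adj_cases h with rfl | rfl | rfl | rfl
      · simp only [min_self, max_self] at x3 x4
        rw [min_eq_left (by omega)] at x1
        rw [max_eq_right (by omega)] at x2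
        push_cast at x2
        rcases le_total (x 0) (c.1 + 1) with h | h
        · left; exact ⟨x1.le, h, x3.le, x4.le⟩
        · right; exact ⟨by push_cast; exact h, by push_cast; exact x2.le, x3.le, x4.le⟩
      · simp only [min_self, max_self] at x3 x4
        rw [min_eq_right (by omega)] at x1
        rw [max_eq_left (by omega)] at x2
        push_cast at x1
        rcases le_total (x 0) c.1 with h | h
        · right; exact ⟨by push_cast; exact x1.le, by push_cast; linarith, x3.le, x4.le⟩
        · left; exact ⟨h, x2.le, x3.le, x4.le⟩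
      · simp only [min_self, max_self] at x1 x2
        rw [min_eq_left (by omega)] at x3
        rw [max_eq_right (by omega)] at x4
        push_cast at x4
        rcases le_total (x 1) (c.2 + 1) with h | h
        · left; exact ⟨x1.le, x2.le, x3.le, h⟩
        · right; exact ⟨x1.le, x2.le, by push_cast; exact h, by push_cast; exact x4.le⟩
      · simp only [min_self, max_self] at x1 x2
        rw [min_eq_right (by omega)] at x3
        rw [max_eq_left (by omega)] at x4
        push_cast at x3
        rcases le_total (x 1) c.2 with h | h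
        · right; exact ⟨x1.le, x2.le, by push_cast; exact x3.le, by push_cast; linarith⟩
        · left; exact ⟨x1.le, x2.le, h, x4.le⟩
  rcases aux with h | h
  · exact square_subset_region hc h
  · exact square_subset_region hd h

/-- Centre of a cell. -/
noncomputable def centre (c : Cell) : Plane := !₂[(c.1 : ℝ) + 1 / 2, (c.2 : ℝ) + 1 / 2]

lemma centre_mem (c d : Cell) : centre c ∈ orect c d := by
  have e0 : centre c 0 = (c.1 : ℝ) + 1 / 2 := rfl
  have e1 : centre c 1 = (c.2 : ℝ) + 1 / 2 := rfl
  refine ⟨?_, ?_, ?_, ?_⟩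
  · rw [e0]
    have : ((min c.1 d.1 : ℤ) : ℝ) ≤ c.1 := by exact_mod_cast min_le_left _ _
    linarith
  · rw [e0]
    have : (c.1 : ℝ) ≤ ((max c.1 d.1 : ℤ) : ℝ) := by exact_mod_cast le_max_left _ _
    linarith
  · rw [e1]
    have : ((min c.2 d.2 : ℤ) : ℝ) ≤ c.2 := by exact_mod_cast min_le_left _ _
    linarith
  · rw [e1]
    have : (c.2 : ℝ) ≤ ((max c.2 d.2 : ℤ) : ℝ) := by exact_mod_cast le_max_left _ _
    linarith

lemma square_subset_closure (c : Cell) : square c ⊆ closure (orect c c) := by
  intro x hx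
  obtain ⟨x1, x2, x3, x4⟩ := hx
  have hseg : openSegment ℝ x (centre c) ⊆ orect c c := by
    rintro y ⟨a, b, ha, hb, hab, rfl⟩
    have e0 : centre c 0 = (c.1 : ℝ) + 1 / 2 := rfl
    have e1 : centre c 1 = (c.2 : ℝ) + 1 / 2 := rfl
    have hl : ∀ l : ℝ, a * l + b * l = l := fun l => by rw [← add_mul, hab, one_mul]
    have h1 := hl c.1
    have h2 := hl c.2
    refine ⟨?_, ?_, ?_, ?_⟩ <;>
      simp only [PiLp.add_apply, PiLp.smul_apply, smul_eq_mul, e0, e1, min_self, max_self]
    · linarith [mul_le_mul_of_nonneg_left x1 ha.le]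
    · linarith [mul_le_mul_of_nonneg_left x2 ha.le]
    · linarith [mul_le_mul_of_nonneg_left x3 ha.le]
    · linarith [mul_le_mul_of_nonneg_left x4 ha.le]
  apply closure_mono hseg
  rw [closure_openSegment]
  exact left_mem_segment ℝ _ _

lemma orect_subset_interior {P : Finset Cell} {c d : Cell} (hc : c ∈ P) (hd : d ∈ P)
    (h : c = d ∨ Adj c d) : orect c d ⊆ interior (region P) :=
  interior_maximal (orect_subset hc hd h) (isOpen_orect c d)

lemma region_subset_closure_interior (P : Finset Cell) :
    region P ⊆ closure (interior (region P)) := by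
  intro x hx
  obtain ⟨c, hc, hxc⟩ := mem_iUnion₂.1 hx
  exact closure_mono (orect_subset_interior hc hc (Or.inl rfl)) (square_subset_closure c hxc)

/-- The interior of a polyomino is connected. -/
lemma isPreconnected_interior {P : Finset Cell} (hP : IsPolyomino P) :
    IsPreconnected (interior (region P)) := by
  classical
  let s : Cell → Set Plane := fun c => ⋃₀ {r | ∃ d ∈ P, (c = d ∨ Adj c d) ∧ r = orect c d}
  have hs : ∀ c ∈ P, IsPreconnected (s c) := by
    intro c _
    apply isPreconnected_sUnion (centre c)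
    · rintro r ⟨d, _, _, rfl⟩
      exact centre_mem c d
    · rintro r ⟨d, _, _, rfl⟩
      exact (convex_orect c d).isPreconnected
  have hU : IsPreconnected (⋃ c ∈ (P : Set Cell), s c) := by
    apply IsPreconnected.biUnion_of_reflTransGen (fun c hc => hs c hc)
    intro c hc d hd
    have h := hP.2 c hc d hd
    induction h with
    | refl => exact Relation.ReflTransGen.refl
    | @tail a b hab hb ih =>
      have ha : a ∈ P := by
        rcases Relation.ReflTransGen.cases_tail hab with h | ⟨e, _, he⟩
        · rw [h]; exact hc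
        · exact he.1
      refine (ih ha).tail ⟨⟨centre a, ?_, ?_⟩, ha⟩
      · exact mem_sUnion.2 ⟨orect a a, ⟨a, ha, Or.inl rfl, rfl⟩, centre_mem a a⟩
      · have hba : Adj b a := by
          have := hb.2
          unfold Adj at *
          rw [abs_sub_comm b.1, abs_sub_comm b.2]
          exact this
        refine mem_sUnion.2 ⟨orect b a, ⟨a, ha, Or.inr hba, rfl⟩, ?_⟩
        have h1 := centre_mem a b
        have h2 : orect a b = orect b a := by
          unfold orect
          rw [min_comm a.1, max_comm a.1, min_comm a.2, max_comm a.2]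
        rwa [h2] at h1
  apply hU.subset_closure
  · intro x hx
    obtain ⟨c, hc, hx⟩ := mem_iUnion₂.1 hx
    obtain ⟨r, ⟨d, hd, h, rfl⟩, hxr⟩ := mem_sUnion.1 hx
    exact orect_subset_interior hc hd h hxr
  · intro x hx
    obtain ⟨c, hc, hxc⟩ := mem_iUnion₂.1 (interior_subset hx)
    apply closure_mono _ (square_subset_closure c hxc)
    intro y hy
    exact mem_iUnion₂.2 ⟨c, hc, mem_sUnion.2 ⟨orect c c, ⟨c, hc, Or.inl rfl, rfl⟩, hy⟩⟩

/-- The boundary of a polyomino region has area zero. -/
lemma volume_region_sdiff_interior (P : Finset Cell) :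
    volume (region P \ interior (region P)) = 0 := by
  have hsub : region P \ interior (region P) ⊆ ⋃ c ∈ P,
      ({z : Plane | z 0 = c.1} ∪ ({z | z 0 = c.1 + 1} ∪ ({z | z 1 = c.2} ∪
        {z | z 1 = c.2 + 1}))) := by
    rintro x ⟨hx, hxi⟩
    obtain ⟨c, hc, hxc⟩ := mem_iUnion₂.1 hx
    refine mem_iUnion₂.2 ⟨c, hc, ?_⟩
    obtain ⟨x1, x2, x3, x4⟩ := hxc
    by_contra hcon
    simp only [mem_union, mem_ofPred_eq, not_or] at hcon
    apply hxi
    apply orect_subset_interior hc hc (Or.inl rfl)
    refine ⟨?_, ?_, ?_, ?_⟩ <;> simp only [min_self, max_self]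
    · exact lt_of_le_of_ne x1 (Ne.symm hcon.1)
    · exact lt_of_le_of_ne x2 hcon.2.1
    · exact lt_of_le_of_ne x3 (Ne.symm hcon.2.2.1)
    · exact lt_of_le_of_ne x4 hcon.2.2.2
  apply measure_mono_null hsub
  rw [← Finset.set_biUnion_coe, measure_biUnion_null_iff P.countable_toSet]
  intro c _
  simp only [measure_union_null_iff]
  exact ⟨volume_line 0 _, volume_line 0 _, volume_line 1 _, volume_line 1 _⟩

end Pool.Agent.Lib.MP_a49afe_co
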