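import Pool.Agent.Lib.MP_a49afe_co.Net

/-!
# The cube nets, congruence, and rep-cubes
-/

open Set

namespace Pool.Agent.Lib.MP_a49afe_co

/-! ### Connectedness of an ordered list of cells -/

instance (c d : Cell) : Decidable (Adj c d) := by
  unfold Adj; infer_instance

/-- Every cell but the last one is adjacent to a later one. -/
def connOK : List Cell → Prop
  | [] => True
  | c :: l => (l = [] ∨ ∃ d ∈ l, Adj c d) ∧ connOK l

instance decConnOK : ∀ l : List Cell, Decidable (connOK l)
  | [] => isTrue trivial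
  | c :: l => by
    unfold connOK
    have := decConnOK l
    infer_instance

lemma Adj.symm {c d : Cell} (h : Adj c d) : Adj d c := by
  unfold Adj at *
  rw [abs_sub_comm d.1, abs_sub_comm d.2]
  exact h

lemma isPolyomino_of_connOK : ∀ l : List Cell, l ≠ [] → connOK l → IsPolyomino l.toFinset
  | [], h, _ => absurd rfl h
  | [c], _, _ => by
    refine ⟨⟨c, by simp⟩, ?_⟩
    intro x hx y hy
    simp only [List.toFinset_cons, List.toFinset_nil, insert_empty_eq,
      Finset.mem_singleton] at hx hy
    rw [hx, hy]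
  | c :: d :: l, _, h => by
    obtain ⟨h1, h2⟩ := h
    obtain ⟨-, ih⟩ := isPolyomino_of_connOK (d :: l) (by simp) h2
    have mono : ∀ x y, Relation.ReflTransGen (fun a b => b ∈ (d :: l).toFinset ∧ Adj a b) x y →
        Relation.ReflTransGen (fun a b => b ∈ (c :: d :: l).toFinset ∧ Adj a b) x y := by
      intro x y hxy
      refine Relation.ReflTransGen.mono (fun a b hab => ⟨?_, hab.2⟩) _ _ hxy
      rw [List.toFinset_cons]
      exact Finset.mem_insert_of_mem hab.1
    rcases h1 with h1 | ⟨e, he, hce⟩
    · simp at h1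
    · refine ⟨⟨c, by simp⟩, ?_⟩
      have he' : e ∈ (d :: l).toFinset := List.mem_toFinset.2 he
      have hc' : c ∈ (c :: d :: l).toFinset := by simp
      intro x hx y hy
      rw [List.toFinset_cons, Finset.mem_insert] at hx hy
      rcases hx with rfl | hx <;> rcases hy with rfl | hy
      · exact Relation.ReflTransGen.refl
      · refine Relation.ReflTransGen.head ⟨?_, hce⟩ (mono _ _ (ih e he' y hy))
        rw [List.toFinset_cons]
        exact Finset.mem_insert_of_mem he'
      · exact Relation.ReflTransGen.tail (mono _ _ (ih x hx e he')) ⟨hc', hce.symm⟩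
      · exact mono _ _ (ih x hx y hy)

lemma isPolyomino_cells {L : List Entry} (h0 : L ≠ [])
    (h : connOK (L.map Entry.cell).reverse) : IsPolyomino (cells L) := by
  have := isPolyomino_of_connOK _ (by simpa using h0) h
  rwa [List.toFinset_reverse] at this

/-! ### Assembling a rep-cube from certificates -/

/-- A rep-cube from certificates. -/
lemma isRepCube_of_check {k : ℕ} {a b : ℤ} (hab : (k : ℤ) = a * a + b * b) (hk : 0 < k)
    {L : List Entry} {W : List (ℕ × ℕ × ℕ)} {Ls : Fin k → List Entry}
    {Ws : Fin k → List (ℕ × ℕ × ℕ)} (hL : CheckOK a b L W)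
    (hLs : ∀ i, CheckOK 1 0 (Ls i) (Ws i)) (hne : L ≠ []) (hnes : ∀ i, Ls i ≠ [])
    (hc : connOK (L.map Entry.cell).reverse) (hcs : ∀ i, connOK ((Ls i).map Entry.cell).reverse)
    (harea : (cells L).card = 6 * k)
    (hdisj : ∀ i j, i ≠ j → ∀ c ∈ (Ls i).map Entry.cell, c ∉ (Ls j).map Entry.cell)
    (hsub : ∀ i, ∀ c ∈ (Ls i).map Entry.cell, c ∈ L.map Entry.cell)
    (hsup : ∀ c ∈ L.map Entry.cell, ∃ i, c ∈ (Ls i).map Entry.cell) :
    IsRepCube IsCubeNet k (cells L) (fun i => cells (Ls i)) where
  pos := hk
  polyomino := isPolyomino_cells hne hc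
  area := harea
  net := by
    have hk' : (0 : ℝ) < k := by exact_mod_cast hk
    apply net_of_check (Real.sqrt_pos.2 hk') _ hL
    rw [Real.sq_sqrt hk'.le]
    exact_mod_cast hab
  disjoint := by
    intro i j hij
    rw [Finset.disjoint_left]
    intro c hc1 hc2
    exact hdisj i j hij c (List.mem_toFinset.1 hc1) (List.mem_toFinset.1 hc2)
  union := by
    ext c
    simp only [Finset.mem_biUnion, Finset.mem_univ, true_and]
    constructor
    · rintro ⟨i, hi⟩
      exact List.mem_toFinset.2 (hsub i c (List.mem_toFinset.1 hi))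
    · intro hc'
      obtain ⟨i, hi⟩ := hsup c (List.mem_toFinset.1 hc')
      exact ⟨i, List.mem_toFinset.2 hi⟩
  piece_polyomino := fun i => isPolyomino_cells (hnes i) (hcs i)
  piece_net := fun i => net_of_check one_pos (by norm_num) (hLs i)

/-! ### Invariants of congruence -/

/-- The lattice map is injective. -/
lemma gridMap_injective {a b c d : ℤ} (s t : ℤ) (h1 : a * a + c * c = 1) (h2 : b * b + d * d = 1)
    (h3 : a * b + c * d = 0) : Function.Injective (gridMap a b c d s t) := by
  intro p q hpq
  simp only [gridMap, Prod.mk.injEq] at hpq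
  obtain ⟨e1, e2⟩ := hpq
  have f1 : a * (p.1 - q.1) + b * (p.2 - q.2) = 0 := by linarith
  have f2 : c * (p.1 - q.1) + d * (p.2 - q.2) = 0 := by linarith
  have g1 : p.1 - q.1 = 0 := by
    have : (a * a + c * c) * (p.1 - q.1) + (a * b + c * d) * (p.2 - q.2) = 0 := by
      linear_combination a * f1 + c * f2
    rw [h1, h3] at this
    linarith
  have g2 : p.2 - q.2 = 0 := by
    have : (a * b + c * d) * (p.1 - q.1) + (b * b + d * d) * (p.2 - q.2) = 0 := by
      linear_combination b * f1 + d * f2
    rw [h2, h3] at this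
    linarith
  exact Prod.ext (by linarith) (by linarith)

/-- The sum of a function of the differences of all ordered pairs of cells. -/
def pairSum (F : ℤ → ℤ → ℤ) (P : Finset Cell) : ℤ :=
  ∑ c ∈ P, ∑ d ∈ P, F (c.1 - d.1) (c.2 - d.2)

lemma pairSum_image {F : ℤ → ℤ → ℤ} {a b c d s t : ℤ} (h1 : a * a + c * c = 1)
    (h2 : b * b + d * d = 1) (h3 : a * b + c * d = 0)
    (hF : ∀ x y, F (a * x + b * y) (c * x + d * y) = F x y) (P : Finset Cell) :
    pairSum F (P.image (gridMap a b c d s t)) = pairSum F P := by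
  unfold pairSum
  rw [Finset.sum_image ((gridMap_injective s t h1 h2 h3).injOn)]
  apply Finset.sum_congr rfl
  intro p _
  rw [Finset.sum_image ((gridMap_injective s t h1 h2 h3).injOn)]
  apply Finset.sum_congr rfl
  intro q _
  rw [← hF (p.1 - q.1) (p.2 - q.2)]
  simp only [gridMap]
  congr 1 <;> ring

lemma unit_vector {a c : ℤ} (h : a * a + c * c = 1) :
    (a = 1 ∧ c = 0) ∨ (a = -1 ∧ c = 0) ∨ (a = 0 ∧ c = 1) ∨ (a = 0 ∧ c = -1) := by
  have h1 : a ≤ 1 := by nlinarith [mul_self_nonneg c, mul_self_nonneg (a - 1)]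
  have h2 : -1 ≤ a := by nlinarith [mul_self_nonneg c, mul_self_nonneg (a + 1)]
  have h3 : c ≤ 1 := by nlinarith [mul_self_nonneg a, mul_self_nonneg (c - 1)]
  have h4 : -1 ≤ c := by nlinarith [mul_self_nonneg a, mul_self_nonneg (c + 1)]
  interval_cases a <;> interval_cases c <;> simp at h ⊢

/-- Invariant of congruence. -/
def inv (P : Finset Cell) : ℤ := pairSum (fun x y => (x * x + y * y) * (x * x + y * y)) P

/-- Invariant of proper congruence. -/
def inv' (P : Finset Cell) : ℤ :=
  pairSum (fun x y => 1000 * ((x * x + y * y) * (x * x + y * y)) + x * y * (x * x - y * y)) P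

lemma Congruent.inv_eq {P Q : Finset Cell} (h : Congruent P Q) : inv Q = inv P := by
  obtain ⟨a, b, c, d, s, t, h1, h2, h3, rfl⟩ := h
  apply pairSum_image h1 h2 h3
  intro x y
  have : (a * x + b * y) * (a * x + b * y) + (c * x + d * y) * (c * x + d * y) =
      x * x + y * y := by
    linear_combination x * x * h1 + y * y * h2 + 2 * x * y * h3
  simp only [this]

lemma ProperlyCongruent.inv'_eq {P Q : Finset Cell} (h : ProperlyCongruent P Q) :
    inv' Q = inv' P := by
  obtain ⟨a, b, c, d, s, t, h1, h2, h3, h4, rfl⟩ := h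
  apply pairSum_image h1 h2 h3
  intro x y
  rcases unit_vector h1 with ⟨rfl, rfl⟩ | ⟨rfl, rfl⟩ | ⟨rfl, rfl⟩ | ⟨rfl, rfl⟩
  · have hb : b = 0 := by linarith
    have hd : d = 1 := by linarith
    subst hb hd; ring
  · have hb : b = 0 := by linarith
    have hd : d = -1 := by linarith
    subst hb hd; ring
  · have hd : d = 0 := by linarith
    have hb : b = -1 := by linarith
    subst hb hd; ring
  · have hd : d = 0 := by linarith
    have hb : b = 1 := by linarith
    subst hb hd; ring

/-- The eleven nets are pairwise not congruent, even through a common congruent copy. -/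
lemma cubeNet_unique {t t' : Fin 11} {Q : Finset Cell} (h : Congruent (cubeNet t) Q)
    (h' : Congruent (cubeNet t') Q) : t = t' := by
  have e : inv (cubeNet t) = inv (cubeNet t') := by rw [← h.inv_eq, h'.inv_eq]
  have : ∀ t t' : Fin 11, inv (cubeNet t) = inv (cubeNet t') → t = t' := by decide +kernel
  exact this t t' e

/-- The twenty one-sided nets are pairwise not properly congruent. -/
lemma oneSidedNet_unique {t t' : Fin 20} {Q : Finset Cell}
    (h : ProperlyCongruent (oneSidedNet t) Q) (h' : ProperlyCongruent (oneSidedNet t') Q) :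
    t = t' := by
  have e : inv' (oneSidedNet t) = inv' (oneSidedNet t') := by rw [← h.inv'_eq, h'.inv'_eq]
  have : ∀ t t' : Fin 20, inv' (oneSidedNet t) = inv' (oneSidedNet t') → t = t' := by
    decide +kernel
  exact this t t' e

lemma ProperlyCongruent.refl (P : Finset Cell) : ProperlyCongruent P P := by
  refine ⟨1, 0, 0, 1, 0, 0, by norm_num, by norm_num, by norm_num, by norm_num, ?_⟩
  have : gridMap 1 0 0 1 0 0 = id := by
    funext p
    simp [gridMap]
  rw [this, Finset.image_id]

lemma eleven_le {k : ℕ} {piece : Fin k → Finset Cell} (h : ContainsAllTypes piece) : 11 ≤ k := by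
  choose i hi using h
  have hinj : Function.Injective i := by
    intro t t' htt
    have h1 := hi t
    have h2 := hi t'
    rw [htt] at h1
    exact cubeNet_unique h1 h2
  have := Fintype.card_le_of_injective i hinj
  simpa using this

lemma not_eleven : ¬ ∃ a b : ℕ, 11 = a ^ 2 + b ^ 2 := by
  rintro ⟨a, b, h⟩
  have ha : a ≤ 3 := by nlinarith
  have hb : b ≤ 3 := by nlinarith
  interval_cases a <;> interval_cases b <;> omega

lemma not_twelve : ¬ ∃ a b : ℕ, 12 = a ^ 2 + b ^ 2 := by
  rintro ⟨a, b, h⟩
  have ha : a ≤ 3 := by nlinarith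
  have hb : b ≤ 3 := by nlinarith
  interval_cases a <;> interval_cases b <;> omega


end Pool.Agent.Lib.MP_a49afe_co
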