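import Pool.Agent.Lib.MP_a49afe_co.Shapes

/-!
# Polyominoes that are simple polygons
-/

open Set

namespace Pool.Agent.Lib.MP_a49afe_co

/-- Paths outside `P`. -/
def Out (P : Finset Cell) : Cell → Cell → Prop :=
  Relation.ReflTransGen (fun a b => a ∉ P ∧ b ∉ P ∧ Adj a b)

lemma Out.symm {P : Finset Cell} {c d : Cell} (h : Out P c d) : Out P d c := by
  induction h with
  | refl => exact Relation.ReflTransGen.refl
  | tail _ hbc ih =>
    exact Relation.ReflTransGen.head ⟨hbc.2.1, hbc.1, hbc.2.2.symm⟩ ih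

lemma Out.trans {P : Finset Cell} {c d e : Cell} (h : Out P c d) (h' : Out P d e) : Out P c e :=
  Relation.ReflTransGen.trans h h'

lemma Out.toPath {P : Finset Cell} {c d : Cell} (h : Out P c d) :
    Relation.ReflTransGen (fun a b => b ∉ P ∧ Adj a b) c d := by
  induction h with
  | refl => exact Relation.ReflTransGen.refl
  | tail _ hbc ih => exact Relation.ReflTransGen.tail ih ⟨hbc.2.1, hbc.2.2⟩

lemma out_row {P : Finset Cell} {y : ℤ} (h : ∀ x, ((x, y) : Cell) ∉ P) (x x' : ℤ) :
    Out P (x, y) (x', y) := by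
  have key : ∀ (n : ℕ) (x : ℤ), Out P (x, y) (x + n, y) := by
    intro n
    induction n with
    | zero => intro x; simp only [Nat.cast_zero, add_zero]; exact Relation.ReflTransGen.refl
    | succ n ih =>
      intro x
      refine Relation.ReflTransGen.tail (ih x) ⟨h _, h _, ?_⟩
      simp [Adj]
  rcases le_total x x' with hx | hx
  · have := key (x' - x).toNat x
    rwa [Int.toNat_of_nonneg (by omega), add_sub_cancel] at this
  · have := key (x - x').toNat x'
    rw [Int.toNat_of_nonneg (by omega), add_sub_cancel] at this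
    exact this.symm

lemma out_col {P : Finset Cell} {x : ℤ} (h : ∀ y, ((x, y) : Cell) ∉ P) (y y' : ℤ) :
    Out P (x, y) (x, y') := by
  have key : ∀ (n : ℕ) (y : ℤ), Out P (x, y) (x, y + n) := by
    intro n
    induction n with
    | zero => intro y; simp only [Nat.cast_zero, add_zero]; exact Relation.ReflTransGen.refl
    | succ n ih =>
      intro y
      refine Relation.ReflTransGen.tail (ih y) ⟨h _, h _, ?_⟩
      simp [Adj]
  rcases le_total y y' with hy | hy
  · have := key (y' - y).toNat y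
    rwa [Int.toNat_of_nonneg (by omega), add_sub_cancel] at this
  · have := key (y - y').toNat y'
    rw [Int.toNat_of_nonneg (by omega), add_sub_cancel] at this
    exact this.symm

/-- The cell is on the frame of the box. -/
def onFrame (x0 x1 y0 y1 : ℤ) (c : Cell) : Prop := c.1 ≤ x0 ∨ x1 ≤ c.1 ∨ c.2 ≤ y0 ∨ y1 ≤ c.2

instance (x0 x1 y0 y1 : ℤ) (c : Cell) : Decidable (onFrame x0 x1 y0 y1 c) := by
  unfold onFrame; infer_instance

/-- Every listed cell is outside the list `L`, and is on the frame or adjacent to a later one. -/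
def outOK (L : List Cell) (x0 x1 y0 y1 : ℤ) : List Cell → Prop
  | [] => True
  | c :: l => (c ∉ L ∧ (onFrame x0 x1 y0 y1 c ∨ ∃ d ∈ l, Adj c d)) ∧ outOK L x0 x1 y0 y1 l

instance decOutOK (L : List Cell) (x0 x1 y0 y1 : ℤ) :
    ∀ l : List Cell, Decidable (outOK L x0 x1 y0 y1 l)
  | [] => isTrue trivial
  | c :: l => by
    unfold outOK
    have := decOutOK L x0 x1 y0 y1 l
    infer_instance

/-- The finite check for being a simple polygon. -/
def SimpleOK (L : List Cell) (x0 x1 y0 y1 : ℤ) (O : List Cell) : Prop :=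
  (∀ c ∈ L, x0 < c.1 ∧ c.1 < x1 ∧ y0 < c.2 ∧ c.2 < y1) ∧ outOK L x0 x1 y0 y1 O ∧
  (∀ i ∈ List.range (x1 - x0).toNat, ∀ j ∈ List.range (y1 - y0).toNat,
    ((x0 + (i : ℤ), y0 + (j : ℤ)) : Cell) ∈ L ∨ ((x0 + (i : ℤ), y0 + (j : ℤ)) : Cell) ∈ O ∨
    onFrame x0 x1 y0 y1 (x0 + (i : ℤ), y0 + (j : ℤ))) ∧
  ∀ c ∈ L, ∀ d ∈ L, |c.1 - d.1| = 1 → |c.2 - d.2| = 1 →
    ((c.1, d.2) : Cell) ∈ L ∨ ((d.1, c.2) : Cell) ∈ L

instance (L : List Cell) (x0 x1 y0 y1 : ℤ) (O : List Cell) :
    Decidable (SimpleOK L x0 x1 y0 y1 O) := by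
  unfold SimpleOK; infer_instance

theorem isSimplePolygon_of_check {L : List Cell} {x0 x1 y0 y1 : ℤ} {O : List Cell}
    (h : SimpleOK L x0 x1 y0 y1 O) : IsSimplePolygon L.toFinset := by
  obtain ⟨hbox, hO, hcov, hcor⟩ := h
  refine ⟨?_, ?_⟩
  · have hmem : ∀ c : Cell, c ∈ L.toFinset ↔ c ∈ L := fun c => List.mem_toFinset
    have hrow : ∀ y, (y ≤ y0 ∨ y1 ≤ y) → ∀ x, ((x, y) : Cell) ∉ L.toFinset := by
      intro y hy x hx
      have := hbox _ ((hmem _).1 hx)
      simp only at this
      omega
    have hcol : ∀ x, (x ≤ x0 ∨ x1 ≤ x) → ∀ y, ((x, y) : Cell) ∉ L.toFinset := by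
      intro x hx y hy
      have := hbox _ ((hmem _).1 hy)
      simp only at this
      omega
    have hframe : ∀ c : Cell, onFrame x0 x1 y0 y1 c → Out L.toFinset c (x0, y0) := by
      rintro ⟨x, y⟩ (h | h | h | h)
      · exact (out_col (hcol x (Or.inl h)) y y0).trans (out_row (hrow y0 (Or.inl le_rfl)) x x0)
      · exact (out_col (hcol x (Or.inr h)) y y0).trans (out_row (hrow y0 (Or.inl le_rfl)) x x0)
      · exact (out_row (hrow y (Or.inl h)) x x0).trans (out_col (hcol x0 (Or.inl le_rfl)) y y0)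
      · exact (out_row (hrow y (Or.inr h)) x x0).trans (out_col (hcol x0 (Or.inl le_rfl)) y y0)
    have hlist : ∀ l : List Cell, outOK L x0 x1 y0 y1 l →
        ∀ c ∈ l, c ∉ L.toFinset ∧ Out L.toFinset c (x0, y0) := by
      intro l
      induction l with
      | nil => intro _ c hc; simp at hc
      | cons e l ih =>
        rintro ⟨⟨h1, h2⟩, h3⟩ c hc
        have ih' := ih h3
        rcases List.mem_cons.1 hc with rfl | hc
        · have h1' : c ∉ L.toFinset := fun h => h1 ((hmem c).1 h)
          refine ⟨h1', ?_⟩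
          rcases h2 with h2 | ⟨d, hd, hcd⟩
          · exact hframe c h2
          · obtain ⟨hd1, hd2⟩ := ih' d hd
            exact Relation.ReflTransGen.head ⟨h1', hd1, hcd⟩ hd2
        · exact ih' c hc
    have hall : ∀ c : Cell, c ∉ L.toFinset → Out L.toFinset c (x0, y0) := by
      rintro ⟨x, y⟩ hc
      by_cases hf : onFrame x0 x1 y0 y1 (x, y)
      · exact hframe _ hf
      · have hf' := hf
        unfold onFrame at hf'
        simp only at hf'
        push Not at hf'
        have r1 : (x - x0).toNat ∈ List.range (x1 - x0).toNat := by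
          rw [List.mem_range]; omega
        have r2 : (y - y0).toNat ∈ List.range (y1 - y0).toNat := by
          rw [List.mem_range]; omega
        have := hcov _ r1 _ r2
        rw [Int.toNat_of_nonneg (by omega), Int.toNat_of_nonneg (by omega), add_sub_cancel,
          add_sub_cancel] at this
        rcases this with h | h | h
        · exact absurd ((hmem _).2 h) hc
        · exact (hlist O hO _ h).2
        · exact absurd h hf
    intro c hc d hd
    exact ((hall c hc).trans (hall d hd).symm).toPath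
  · intro c hc d hd h1 h2
    rw [List.mem_toFinset] at hc hd
    rcases hcor c hc d hd h1 h2 with h | h
    · exact Or.inl (List.mem_toFinset.2 h)
    · exact Or.inr (List.mem_toFinset.2 h)

end Pool.Agent.Lib.MP_a49afe_co
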