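import Pool.Agent.Lib.MP_a49afe_co.Check

/-!
# Soundness of folding certificates
-/

open MeasureTheory Measure Metric Set
open scoped MeasureTheory ENNReal

namespace Pool.Agent.Lib.MP_a49afe_co

/-- Value of a coordinate code. -/
def val (g : ℕ) (u v w : ℝ) : ℝ :=
  match g with
  | 0 => u
  | 1 => v
  | 2 => w
  | 3 => 1 - u
  | 4 => 1 - v
  | _ => 1 - w

/-- Projection of the line onto `[0,1]`. -/
noncomputable def cl (t : ℝ) : ℝ := max 0 (min 1 t)

lemma cl_mid {t : ℝ} (h0 : 0 ≤ t) (h1 : t ≤ 1) : cl t = t := by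
  rw [cl, min_eq_right h1, max_eq_right h0]

lemma cl_hi {t : ℝ} (h : 1 ≤ t) : cl t = 1 := by
  rw [cl, min_eq_left h, max_eq_right zero_le_one]

lemma cl_lo {t : ℝ} (h : t ≤ 0) : cl t = 0 := by
  rw [cl, min_eq_right (by linarith), max_eq_left h]

lemma continuous_cl : Continuous cl := by
  unfold cl
  fun_prop

/-- The cross-shaped unfolding, one coordinate. -/
noncomputable def kap (g : ℕ) (u v : ℝ) : ℝ := val g (cl u) (cl v) (|u - cl u| + |v - cl v|)

lemma continuous_val {X : Type*} [TopologicalSpace X] (g : ℕ) {u v w : X → ℝ}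
    (hu : Continuous u) (hv : Continuous v) (hw : Continuous w) :
    Continuous (fun x => val g (u x) (v x) (w x)) := by
  unfold val
  split
  · exact hu
  · exact hv
  · exact hw
  · exact continuous_const.sub hu
  · exact continuous_const.sub hv
  · exact continuous_const.sub hw

lemma continuous_kap {X : Type*} [TopologicalSpace X] (g : ℕ) {u v : X → ℝ}
    (hu : Continuous u) (hv : Continuous v) : Continuous (fun x => kap g (u x) (v x)) := by
  unfold kap
  apply continuous_val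
  · exact continuous_cl.comp hu
  · exact continuous_cl.comp hv
  · exact ((hu.sub (continuous_cl.comp hu)).abs).add ((hv.sub (continuous_cl.comp hv)).abs)

lemma kap_sq (m g : ℕ) {u v : ℝ} (hu : 0 ≤ u) (hu' : u ≤ 1) (hv : 0 ≤ v) (hv' : v ≤ 1) :
    kap g ((offE m).1 + u) ((offE m).2 + v) = val (subE m g) u v 0 := by
  match m with
  | 0 =>
    simp only [offE, subE, Int.cast_zero, zero_add, kap]
    rw [cl_mid hu hu', cl_mid hv hv']
    simp
  | 1 =>
    simp only [offE, subE, Int.cast_zero, Int.cast_one, zero_add, kap]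
    rw [cl_hi (by linarith : (1:ℝ) ≤ 1 + u), cl_mid hv hv']
    simp only [add_sub_cancel_left, sub_self, abs_zero, add_zero, abs_of_nonneg hu]
    match g with
    | 0 => simp [val, rollR]
    | 1 => simp [val, rollR]
    | 2 => simp [val, rollR]
    | 3 => simp [val, rollR]
    | 4 => simp [val, rollR]
    | n + 5 => simp [val, rollR]
  | 2 =>
    simp only [offE, subE, Int.cast_zero, Int.cast_one, zero_add, kap]
    rw [cl_hi (by linarith : (1:ℝ) ≤ 1 + v), cl_mid hu hu']
    simp only [add_sub_cancel_left, sub_self, abs_zero, zero_add, abs_of_nonneg hv]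
    match g with
    | 0 => simp [val, rollU]
    | 1 => simp [val, rollU]
    | 2 => simp [val, rollU]
    | 3 => simp [val, rollU]
    | 4 => simp [val, rollU]
    | n + 5 => simp [val, rollU]
  | 3 =>
    simp only [offE, subE, Int.cast_zero, Int.cast_one, Int.cast_neg, zero_add, kap]
    rw [cl_lo (by linarith : -(1:ℝ) + u ≤ 0), cl_mid hv hv']
    simp only [sub_self, sub_zero, abs_zero, add_zero,
      abs_of_nonpos (by linarith : -(1:ℝ) + u ≤ 0)]
    match g with
    | 0 => simp [val, rollL]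
    | 1 => simp [val, rollL]
    | 2 => simp [val, rollL]; ring
    | 3 => simp [val, rollL]
    | 4 => simp [val, rollL]
    | n + 5 => simp [val, rollL]
  | n + 4 =>
    simp only [offE, subE, Int.cast_zero, Int.cast_one, Int.cast_neg, zero_add, kap]
    rw [cl_lo (by linarith : -(1:ℝ) + v ≤ 0), cl_mid hu hu']
    simp only [sub_self, sub_zero, abs_zero, zero_add,
      abs_of_nonpos (by linarith : -(1:ℝ) + v ≤ 0)]
    match g with
    | 0 => simp [val, rollD]
    | 1 => simp [val, rollD]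
    | 2 => simp [val, rollD]; ring
    | 3 => simp [val, rollD]
    | 4 => simp [val, rollD]
    | n + 5 => simp [val, rollD]

lemma kap_rollR (g : ℕ) {u v : ℝ} (hu : 0 ≤ u) (hu' : u ≤ 2) (hv : 0 ≤ v) (hv' : v ≤ 1) :
    kap (rollR g) (u - 1) v = kap g u v := by
  rcases le_total u 1 with h | h
  · have h1 : kap g u v = val g u v 0 := by
      have := kap_sq 0 g hu h hv hv'
      simpa [offE, subE] using this
    have h2 : kap (rollR g) (u - 1) v = val (rollL (rollR g)) u v 0 := by
      have := kap_sq 3 (rollR g) hu h hv hv'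
      simp only [offE, subE, Int.cast_zero, Int.cast_one, Int.cast_neg, zero_add] at this
      rw [← this]
      congr 1
      ring
    rw [h1, h2]
    match g with
    | 0 => simp [val, rollL, rollR]
    | 1 => simp [val, rollL, rollR]
    | 2 => simp [val, rollL, rollR]
    | 3 => simp [val, rollL, rollR]
    | 4 => simp [val, rollL, rollR]
    | n + 5 => simp [val, rollL, rollR]
  · have h1 : kap g u v = val (rollR g) (u - 1) v 0 := by
      have := kap_sq 1 g (show 0 ≤ u - 1 by linarith) (show u - 1 ≤ 1 by linarith) hv hv'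
      simp only [offE, subE, Int.cast_zero, Int.cast_one, zero_add] at this
      rw [← this]
      congr 1
      ring
    have h2 : kap (rollR g) (u - 1) v = val (rollR g) (u - 1) v 0 := by
      have := kap_sq 0 (rollR g) (show 0 ≤ u - 1 by linarith) (show u - 1 ≤ 1 by linarith) hv hv'
      simpa [offE, subE] using this
    rw [h1, h2]

lemma kap_rollU (g : ℕ) {u v : ℝ} (hu : 0 ≤ u) (hu' : u ≤ 1) (hv : 0 ≤ v) (hv' : v ≤ 2) :
    kap (rollU g) u (v - 1) = kap g u v := by
  rcases le_total v 1 with h | h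
  · have h1 : kap g u v = val g u v 0 := by
      have := kap_sq 0 g hu hu' hv h
      simpa [offE, subE] using this
    have h2 : kap (rollU g) u (v - 1) = val (rollD (rollU g)) u v 0 := by
      have := kap_sq 4 (rollU g) hu hu' hv h
      simp only [offE, subE, Int.cast_zero, Int.cast_one, Int.cast_neg, zero_add] at this
      rw [← this]
      congr 1
      ring
    rw [h1, h2]
    match g with
    | 0 => simp [val, rollD, rollU]
    | 1 => simp [val, rollD, rollU]
    | 2 => simp [val, rollD, rollU]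
    | 3 => simp [val, rollD, rollU]
    | 4 => simp [val, rollD, rollU]
    | n + 5 => simp [val, rollD, rollU]
  · have h1 : kap g u v = val (rollU g) u (v - 1) 0 := by
      have := kap_sq 2 g hu hu' (show 0 ≤ v - 1 by linarith) (show v - 1 ≤ 1 by linarith)
      simp only [offE, subE, Int.cast_zero, Int.cast_one, zero_add] at this
      rw [← this]
      congr 1
      ring
    have h2 : kap (rollU g) u (v - 1) = val (rollU g) u (v - 1) 0 := by
      have := kap_sq 0 (rollU g) hu hu' (show 0 ≤ v - 1 by linarith) (show v - 1 ≤ 1 by linarith)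
      simpa [offE, subE] using this
    rw [h1, h2]

/-- Validity of a triple of codes. -/
def Valid3 (g0 g1 g2 : ℕ) : Prop :=
  g0 < 6 ∧ g1 < 6 ∧ g2 < 6 ∧ g0 % 3 ≠ g1 % 3 ∧ g0 % 3 ≠ g2 % 3 ∧ g1 % 3 ≠ g2 % 3

instance (g0 g1 g2 : ℕ) : Decidable (Valid3 g0 g1 g2) := by
  unfold Valid3; infer_instance

lemma valid3_subE (m : ℕ) {g0 g1 g2 : ℕ} (h : Valid3 g0 g1 g2) :
    Valid3 (subE m g0) (subE m g1) (subE m g2) := by
  have key : ∀ m < 5, ∀ g0 < 6, ∀ g1 < 6, ∀ g2 < 6, Valid3 g0 g1 g2 →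
      Valid3 (subE m g0) (subE m g1) (subE m g2) := by decide +kernel
  rcases Nat.lt_or_ge m 4 with hm | hm
  · exact key m (by omega) g0 h.1 g1 h.2.1 g2 h.2.2.1 h
  · have e : ∀ g, subE m g = subE 4 g := by
      intro g
      obtain ⟨n, rfl⟩ := Nat.exists_eq_add_of_le' hm
      rfl
    rw [e, e, e]
    exact key 4 (by omega) g0 h.1 g1 h.2.1 g2 h.2.2.1 h

lemma val_iso {g0 g1 g2 : ℕ} (h : Valid3 g0 g1 g2) (u v w u' v' w' : ℝ) :
    (val g0 u v w - val g0 u' v' w') ^ 2 + (val g1 u v w - val g1 u' v' w') ^ 2 +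
      (val g2 u v w - val g2 u' v' w') ^ 2 = (u - u') ^ 2 + (v - v') ^ 2 + (w - w') ^ 2 := by
  obtain ⟨h0, h1, h2, h3, h4, h5⟩ := h
  interval_cases g0 <;> interval_cases g1 <;> (try (exfalso; revert h3; decide)) <;>
    interval_cases g2 <;>
    first
    | (exfalso; revert h4; decide)
    | (exfalso; revert h5; decide)
    | (simp only [val] <;> ring)

lemma val_mem {g : ℕ} {u v w : ℝ} (hu : 0 ≤ u ∧ u ≤ 1) (hv : 0 ≤ v ∧ v ≤ 1)
    (hw : 0 ≤ w ∧ w ≤ 1) : 0 ≤ val g u v w ∧ val g u v w ≤ 1 := by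
  match g with
  | 0 => exact hu
  | 1 => exact hv
  | 2 => exact hw
  | 3 => exact ⟨by simp only [val]; linarith, by simp only [val]; linarith⟩
  | 4 => exact ⟨by simp only [val]; linarith, by simp only [val]; linarith⟩
  | n + 5 => exact ⟨by simp only [val]; linarith, by simp only [val]; linarith⟩

/-- The point of the cube surface with parameters `(u,v)` in the frame `(g0,g1,g2)`. -/
noncomputable def pt (ℓ : ℝ) (g0 g1 g2 : ℕ) (u v : ℝ) : Space :=
  !₂[ℓ * val g0 u v 0, ℓ * val g1 u v 0, ℓ * val g2 u v 0]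

lemma pt_mem {ℓ : ℝ} (hℓ : 0 < ℓ) {g0 g1 g2 : ℕ} (h : Valid3 g0 g1 g2) {u v : ℝ}
    (hu : 0 ≤ u ∧ u ≤ 1) (hv : 0 ≤ v ∧ v ≤ 1) : pt ℓ g0 g1 g2 u v ∈ cubeSurface ℓ := by
  have hbox : ∀ g, 0 ≤ ℓ * val g u v 0 ∧ ℓ * val g u v 0 ≤ ℓ := by
    intro g
    have := val_mem (g := g) hu hv ⟨le_refl (0:ℝ), zero_le_one⟩
    constructor
    · exact mul_nonneg hℓ.le this.1
    · nlinarith [this.2]
  have hend : ∀ g, g < 6 → g % 3 = 2 → ℓ * val g u v 0 = 0 ∨ ℓ * val g u v 0 = ℓ := by
    intro g hg hg2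
    interval_cases g <;> first | (exfalso; revert hg2; decide) | skip
    · left; simp [val]
    · right; simp [val]
  refine ⟨?_, ?_⟩
  · intro i
    fin_cases i
    · exact hbox g0
    · exact hbox g1
    · exact hbox g2
  · obtain ⟨h0, h1, h2, h3, h4, h5⟩ := h
    have : g0 % 3 = 2 ∨ g1 % 3 = 2 ∨ g2 % 3 = 2 := by omega
    rcases this with h | h | h
    · exact ⟨0, hend g0 h0 h⟩
    · exact ⟨1, hend g1 h1 h⟩
    · exact ⟨2, hend g2 h2 h⟩

section fold

variable (a b : ℤ)

/-- First lattice coordinate. -/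
noncomputable def zu (x : Plane) : ℝ := (a * x 0 + b * x 1) / (a * a + b * b)

/-- Second lattice coordinate. -/
noncomputable def zv (x : Plane) : ℝ := (-b * x 0 + a * x 1) / (a * a + b * b)

lemma continuous_zu : Continuous (zu a b) := by
  unfold zu; fun_prop

lemma continuous_zv : Continuous (zv a b) := by
  unfold zv; fun_prop

/-- The folding map on the cell of an entry. -/
noncomputable def foldE (ℓ : ℝ) (e : Entry) (x : Plane) : Space :=
  !₂[ℓ * kap e.g0 (zu a b x - e.sx) (zv a b x - e.sy),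
     ℓ * kap e.g1 (zu a b x - e.sx) (zv a b x - e.sy),
     ℓ * kap e.g2 (zu a b x - e.sx) (zv a b x - e.sy)]

variable {a b}

lemma foldE_eq_pt {ℓ : ℝ} {e : Entry} {x : Plane} (m : ℕ) {u v : ℝ}
    (hu : 0 ≤ u ∧ u ≤ 1) (hv : 0 ≤ v ∧ v ≤ 1)
    (hx : zu a b x - e.sx = (offE m).1 + u) (hy : zv a b x - e.sy = (offE m).2 + v) :
    foldE a b ℓ e x = pt ℓ (subE m e.g0) (subE m e.g1) (subE m e.g2) u v := by
  unfold foldE pt
  rw [hx, hy, kap_sq m _ hu.1 hu.2 hv.1 hv.2, kap_sq m _ hu.1 hu.2 hv.1 hv.2,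
    kap_sq m _ hu.1 hu.2 hv.1 hv.2]

/-- The piece of the cell of `e` in the `m`-th square of its cross. -/
def piece (a b : ℤ) (e : Entry) (m : ℕ) : Set Plane :=
  {x | x ∈ square e.cell ∧ (offE m).1 ≤ zu a b x - e.sx ∧ zu a b x - e.sx ≤ (offE m).1 + 1 ∧
    (offE m).2 ≤ zv a b x - e.sy ∧ zv a b x - e.sy ≤ (offE m).2 + 1}

lemma kpos (ha : 0 < a) : (0 : ℝ) < a * a + b * b := by
  have : (0 : ℝ) < a := by exact_mod_cast ha
  nlinarith [mul_self_nonneg (b : ℝ)]

lemma piece_polygon (ha : 0 < a) (e : Entry) (m : ℕ) : IsConvexPolygon (piece a b e m) := by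
  have hk := kpos (b := b) ha
  refine ⟨?_, 8, ![-1, 1, 0, 0, -a, a, b, -b], ![0, 0, -1, 1, -b, b, -a, a],
    ![-e.x, e.x + 1, -e.y, e.y + 1, -(((offE m).1 + e.sx) * (a * a + b * b)),
      ((offE m).1 + 1 + e.sx) * (a * a + b * b), -(((offE m).2 + e.sy) * (a * a + b * b)),
      ((offE m).2 + 1 + e.sy) * (a * a + b * b)], ?_⟩
  · have hsub : piece a b e m ⊆ closedBall (centre e.cell) 2 := by
      rintro x ⟨⟨h1, h2, h3, h4⟩, -⟩
      rw [mem_closedBall]
      apply le_of_sq_le_sq _ (by norm_num)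
      rw [dist_sq_plane]
      have e0 : centre e.cell 0 = (e.cell.1 : ℝ) + 1 / 2 := rfl
      have e1 : centre e.cell 1 = (e.cell.2 : ℝ) + 1 / 2 := rfl
      rw [e0, e1]
      nlinarith
    exact isBounded_closedBall.subset hsub
  · ext x
    simp only [piece, square, Entry.cell, mem_ofPred_eq, zu, zv]
    rw [le_sub_iff_add_le, le_div_iff₀ hk, _root_.sub_le_iff_le_add, div_le_iff₀ hk,
      le_sub_iff_add_le, le_div_iff₀ hk, _root_.sub_le_iff_le_add, div_le_iff₀ hk]
    constructor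
    · rintro ⟨⟨h1, h2, h3, h4⟩, h5, h6, h7, h8⟩ i
      fin_cases i <;> simp <;> linarith
    · intro h
      have h0 := h 0
      have h1 := h 1
      have h2 := h 2
      have h3 := h 3
      have h4 := h 4
      have h5 := h 5
      have h6 := h 6
      have h7 := h 7
      simp at h0 h1 h2 h3 h4 h5 h6 h7
      refine ⟨⟨h0, h1, h2, h3⟩, ?_, ?_, ?_, ?_⟩ <;> linarith

lemma foldE_isoOn (ha : 0 < a) {ℓ : ℝ} (hℓ : ℓ ^ 2 = a * a + b * b) {e : Entry}
    (he : validG e) (m : ℕ) : IsoOn (foldE a b ℓ e) (piece a b e m) := by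
  have hk := kpos (b := b) ha
  rintro x ⟨-, x1, x2, x3, x4⟩ y ⟨-, y1, y2, y3, y4⟩
  apply dist_eq_of_sq
  rw [foldE_eq_pt (x := x) m (u := zu a b x - e.sx - (offE m).1)
    (v := zv a b x - e.sy - (offE m).2) ⟨by linarith, by linarith⟩ ⟨by linarith, by linarith⟩
    (by ring) (by ring),
    foldE_eq_pt (x := y) m (u := zu a b y - e.sx - (offE m).1)
    (v := zv a b y - e.sy - (offE m).2) ⟨by linarith, by linarith⟩ ⟨by linarith, by linarith⟩
    (by ring) (by ring)]
  rw [dist_sq_space (i := 0) (j := 1) (k := 2) (by decide) (by decide) (by decide), dist_sq_plane]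
  have hv := val_iso (valid3_subE m he) (zu a b x - e.sx - (offE m).1)
    (zv a b x - e.sy - (offE m).2) 0 (zu a b y - e.sx - (offE m).1)
    (zv a b y - e.sy - (offE m).2) 0
  simp only [pt]
  simp only [Matrix.cons_val_zero, Matrix.cons_val_one, Matrix.cons_val]
  have e1 : ∀ s t : ℝ, (ℓ * s - ℓ * t) ^ 2 = ℓ ^ 2 * (s - t) ^ 2 := fun s t => by ring
  rw [e1, e1, e1, ← mul_add, ← mul_add, hv, hℓ]
  simp only [zu, zv]
  field_simp
  ring

end fold

end Pool.Agent.Lib.MP_a49afe_co
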