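import Pool.Agent.Lib.MP_a49afe_co.Area

/-!
# Area of the cube surface near a point
-/

open MeasureTheory Measure Metric Set
open scoped MeasureTheory ENNReal

namespace Pool.Agent.Lib.MP_a49afe_co

/-- Near a point that is not a vertex, the surface has at most the area of a flat disc. -/
lemma area_nonvertex {ℓ : ℝ} (hℓ : 0 < ℓ) {q : Space} (hq : q ∈ cubeSurface ℓ) {k : Fin 3}
    (hk0 : q k ≠ 0) (hkl : q k ≠ ℓ) :
    ∃ δ : ℝ, 0 < δ ∧ ∀ r < δ, μHE[2] (cubeSurface ℓ ∩ closedBall q r) ≤ D r := by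
  obtain ⟨U, A, B, δ, hA, hB, iA, iB, inj, hδ, hcov, -⟩ := exists_unfold hℓ hq hk0 hkl
  refine ⟨δ, hδ, ?_⟩
  intro r hr
  set S := cubeSurface ℓ ∩ closedBall q r with hS
  have hSm : MeasurableSet S := (isClosed_cubeSurface ℓ).measurableSet.inter measurableSet_closedBall
  have hcov' : ∀ x ∈ S, (x ∈ A ∧ q ∈ A) ∨ (x ∈ B ∧ q ∈ B) := fun x hx =>
    hcov x hx.1 (lt_of_le_of_lt hx.2 hr)
  have hSU : S ⊆ A ∪ B := by
    intro x hx
    rcases hcov' x hx with h | h
    · exact Or.inl h.1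
    · exact Or.inr h.1
  have h1 : μHE[2] (U '' S) = μHE[2] S := by
    apply pw_measure_eq (𝒯 := {A, B}) (by simp) _ hSm (by simpa using hSU) _ (inj.mono hSU)
    · intro T hT
      rcases hT with rfl | rfl
      · exact hA.measurableSet
      · exact hB.measurableSet
    · intro T hT
      rcases hT with rfl | rfl
      · exact iA.mono inter_subset_left
      · exact iB.mono inter_subset_left
  have h2 : U '' S ⊆ closedBall (U q) r := by
    rintro _ ⟨x, hx, rfl⟩
    rw [mem_closedBall]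
    rcases hcov' x hx with h | h
    · rw [iA x h.1 q h.2]; exact hx.2
    · rw [iB x h.1 q h.2]; exact hx.2
  calc μHE[2] S = μHE[2] (U '' S) := h1.symm
    _ ≤ μHE[2] (closedBall (U q) r) := measure_mono h2
    _ = D r := by
      rw [EuclideanSpace.euclideanHausdorffMeasure_eq_volume, volume_closedBall_eq]

/-- Parametrisation of a face corner. -/
noncomputable def phi (v : Space) (s : Fin 3 → ℝ) (m j : Fin 3) (w : Plane) : Space :=
  WithLp.toLp 2 (fun n => if n = m then v m else if n = j then v j + s j * w 0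
    else v n + s n * w 1)

lemma phi_m (v : Space) (s : Fin 3 → ℝ) (m j : Fin 3) (w : Plane) : phi v s m j w m = v m := by
  simp [phi]

lemma phi_j (v : Space) (s : Fin 3 → ℝ) {m j : Fin 3} (h : m ≠ j) (w : Plane) :
    phi v s m j w j = v j + s j * w 0 := by
  simp [phi, h.symm]

lemma phi_k (v : Space) (s : Fin 3 → ℝ) {m j k : Fin 3} (h : m ≠ k) (h' : j ≠ k) (w : Plane) :
    phi v s m j w k = v k + s k * w 1 := by
  simp [phi, h.symm, h'.symm]

lemma phi_isoOn (v : Space) {s : Fin 3 → ℝ} (hs : ∀ n, s n = 1 ∨ s n = -1) {m j : Fin 3}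
    (h : m ≠ j) (S : Set Plane) : IsoOn (phi v s m j) S := by
  intro x _ y _
  obtain ⟨k, hmk, hkj⟩ := exists_third h
  apply dist_eq_of_sq
  rw [dist_sq_plane, dist_sq_space h hmk hkj.symm, phi_m, phi_m, phi_j v s h, phi_j v s h,
    phi_k v s hmk hkj.symm, phi_k v s hmk hkj.symm]
  have h1 : s j ^ 2 = 1 := by rcases hs j with h | h <;> rw [h] <;> norm_num
  have h2 : s k ^ 2 = 1 := by rcases hs k with h | h <;> rw [h] <;> norm_num
  linear_combination (x 0 - y 0) ^ 2 * h1 + (x 1 - y 1) ^ 2 * h2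

/-- Inward signs at a vertex. -/
lemma exists_signs {ℓ : ℝ} {v : Space} (hv : ∀ m, v m = 0 ∨ v m = ℓ) :
    ∃ s : Fin 3 → ℝ, (∀ n, s n = 1 ∨ s n = -1) ∧
      (∀ n t, 0 ≤ t → t ≤ ℓ → 0 ≤ s n * (t - v n)) ∧
      (∀ n t, 0 ≤ t → t ≤ ℓ → 0 ≤ v n + s n * t ∧ v n + s n * t ≤ ℓ) := by
  classical
  refine ⟨fun n => if v n = 0 then 1 else -1, ?_, ?_, ?_⟩
  · intro n
    by_cases h : v n = 0 <;> simp [h]
  · intro n t h0 h1
    by_cases h : v n = 0
    · simp [h, h0]
    · have := (hv n).resolve_left h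
      simp only [h, if_false]
      rw [this]; linarith
  · intro n t h0 h1
    by_cases h : v n = 0
    · simp [h, h0, h1]
    · have := (hv n).resolve_left h
      simp only [h, if_false]
      rw [this]
      constructor <;> linarith

lemma measurableSet_K (r : ℝ) : MeasurableSet (K r) :=
  (measurableSet_closedBall.inter (measurableSet_ge 0 0)).inter (measurableSet_ge 1 0)

lemma measurableSet_K' (r : ℝ) : MeasurableSet (K' r) :=
  (measurableSet_closedBall.inter (measurableSet_gt 0 0)).inter (measurableSet_gt 1 0)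

lemma mem_closedBall_iff_sq {x y : Plane} {r : ℝ} (hr : 0 ≤ r) :
    x ∈ closedBall y r ↔ (x 0 - y 0) ^ 2 + (x 1 - y 1) ^ 2 ≤ r ^ 2 := by
  rw [mem_closedBall, ← dist_sq_plane]
  exact (sq_le_sq₀ dist_nonneg hr).symm

lemma K_chart {ℓ : ℝ} {v : Space} {s : Fin 3 → ℝ}
    (hs : ∀ n, s n = 1 ∨ s n = -1) (hs0 : ∀ n t, 0 ≤ t → t ≤ ℓ → 0 ≤ s n * (t - v n))
    {m j k : Fin 3} (hmj : m ≠ j) (hmk : m ≠ k) (hjk : j ≠ k) {r : ℝ} (hr : 0 ≤ r) {x : Space}
    (hx : x ∈ cubeSurface ℓ) (hxm : x m = v m) (hxr : dist x v ≤ r) :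
    x ∈ phi v s m j '' K r := by
  have h1 : s j ^ 2 = 1 := by rcases hs j with h | h <;> rw [h] <;> norm_num
  have h2 : s k ^ 2 = 1 := by rcases hs k with h | h <;> rw [h] <;> norm_num
  have hd : dist x v ^ 2 ≤ r ^ 2 := (sq_le_sq₀ dist_nonneg hr).2 hxr
  rw [dist_sq_space hmj hmk hjk, hxm, sub_self] at hd
  refine ⟨!₂[s j * (x j - v j), s k * (x k - v k)], ⟨⟨?_, ?_⟩, ?_⟩, ?_⟩
  · rw [mem_closedBall_iff_sq hr]
    show (s j * (x j - v j) - 0) ^ 2 + (s k * (x k - v k) - 0) ^ 2 ≤ r ^ 2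
    have e : (s j * (x j - v j) - 0) ^ 2 + (s k * (x k - v k) - 0) ^ 2 =
        (x j - v j) ^ 2 + (x k - v k) ^ 2 := by
      linear_combination (x j - v j) ^ 2 * h1 + (x k - v k) ^ 2 * h2
    rw [e]
    linarith
  · exact hs0 j (x j) (hx.1 j).1 (hx.1 j).2
  · exact hs0 k (x k) (hx.1 k).1 (hx.1 k).2
  · apply space_ext hmj hmk hjk
    · rw [phi_m, hxm]
    · rw [phi_j v s hmj]
      show v j + s j * (s j * (x j - v j)) = x j
      linear_combination (x j - v j) * h1
    · rw [phi_k v s hmk hjk]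
      show v k + s k * (s k * (x k - v k)) = x k
      linear_combination (x k - v k) * h2

/-- Near a vertex the surface has at most three quarters of the area of a disc. -/
lemma area_vertex_le {ℓ : ℝ} {v : Space} (hv : ∀ m, v m = 0 ∨ v m = ℓ) :
    ∃ δ : ℝ, 0 < δ ∧ ∀ r, 0 ≤ r → r < δ →
      μHE[2] (cubeSurface ℓ ∩ closedBall v r) ≤ 3 * volume (K r) := by
  obtain ⟨s, hs, hs0, -⟩ := exists_signs hv
  obtain ⟨δ, hδ, hδ'⟩ := exists_delta ℓ v
  refine ⟨δ, hδ, ?_⟩
  intro r hr0 hr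
  have hsub : cubeSurface ℓ ∩ closedBall v r ⊆
      phi v s 0 1 '' K r ∪ (phi v s 1 2 '' K r ∪ phi v s 2 0 '' K r) := by
    rintro x ⟨hx, hxr⟩
    obtain ⟨m, hm⟩ := hx.2
    have hm' := hδ' x (lt_of_le_of_lt hxr hr) m
    have hxm : x m = v m := by
      rcases hm with h | h
      · rw [h, hm'.1 h]
      · rw [h, hm'.2 h]
    rw [mem_closedBall] at hxr
    fin_cases m
    · exact Or.inl (K_chart hs hs0 (by decide) (k := 2) (by decide) (by decide) hr0 hx hxm hxr)
    · exact Or.inr (Or.inl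
        (K_chart hs hs0 (by decide) (k := 0) (by decide) (by decide) hr0 hx hxm hxr))
    · exact Or.inr (Or.inr
        (K_chart hs hs0 (by decide) (k := 1) (by decide) (by decide) hr0 hx hxm hxr))
  have hK : ∀ m j : Fin 3, m ≠ j → μHE[2] (phi v s m j '' K r) = volume (K r) := by
    intro m j hmj
    rw [(phi_isoOn v hs hmj (K r)).measure_image,
      EuclideanSpace.euclideanHausdorffMeasure_eq_volume]
  calc μHE[2] (cubeSurface ℓ ∩ closedBall v r)
      ≤ μHE[2] (phi v s 0 1 '' K r ∪ (phi v s 1 2 '' K r ∪ phi v s 2 0 '' K r)) :=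
        measure_mono hsub
    _ ≤ μHE[2] (phi v s 0 1 '' K r) + μHE[2] (phi v s 1 2 '' K r ∪ phi v s 2 0 '' K r) :=
        measure_union_le _ _
    _ ≤ μHE[2] (phi v s 0 1 '' K r) + (μHE[2] (phi v s 1 2 '' K r) +
        μHE[2] (phi v s 2 0 '' K r)) := by gcongr; exact measure_union_le _ _
    _ = 3 * volume (K r) := by
        rw [hK 0 1 (by decide), hK 1 2 (by decide), hK 2 0 (by decide)]
        ring

/-- Near a vertex the surface has at least three quarters of the area of a disc. -/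
lemma area_vertex_ge {ℓ : ℝ} (hℓ : 0 < ℓ) {v : Space} (hv : ∀ m, v m = 0 ∨ v m = ℓ) {r : ℝ}
    (hr0 : 0 ≤ r) (hr : r ≤ ℓ) :
    3 * volume (K' r) ≤ μHE[2] (cubeSurface ℓ ∩ closedBall v r) := by
  obtain ⟨s, hs, -, hs1⟩ := exists_signs hv
  have hK : ∀ m j : Fin 3, m ≠ j → μHE[2] (phi v s m j '' K' r) = volume (K' r) := by
    intro m j hmj
    rw [(phi_isoOn v hs hmj (K' r)).measure_image,
      EuclideanSpace.euclideanHausdorffMeasure_eq_volume]
  have hmeas : ∀ m j : Fin 3, m ≠ j → MeasurableSet (phi v s m j '' K' r) := by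
    intro m j hmj
    exact (measurableSet_K' r).image_of_continuousOn_injOn (phi_isoOn v hs hmj _).continuousOn
      (phi_isoOn v hs hmj _).injOn
  have hsne : ∀ n, s n ≠ 0 := by
    intro n h
    rcases hs n with h' | h' <;> rw [h] at h' <;> norm_num at h'
  -- coordinates of points in the pieces
  have hne : ∀ m j : Fin 3, m ≠ j → ∀ x ∈ phi v s m j '' K' r, x m = v m ∧ ∀ n, n ≠ m →
      x n ≠ v n := by
    rintro m j hmj _ ⟨w, hw, rfl⟩
    refine ⟨phi_m _ _ _ _ _, ?_⟩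
    intro n hn
    obtain ⟨k, hmk, hkj⟩ := exists_third hmj
    rcases fin3_cases hmj hmk hkj.symm n with rfl | rfl | rfl
    · exact absurd rfl hn
    · rw [phi_j v s hmj]
      have h0 : 0 < w 0 := hw.1.2
      intro h
      have : s n * w 0 = 0 := by linarith
      rcases mul_eq_zero.1 this with h | h
      · exact hsne n h
      · exact h0.ne' h
    · rw [phi_k v s hmk hkj.symm]
      have h0 : 0 < w 1 := hw.2
      intro h
      have : s n * w 1 = 0 := by linarith
      rcases mul_eq_zero.1 this with h | h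
      · exact hsne n h
      · exact h0.ne' h
  have hdisj : ∀ m j m' j' : Fin 3, m ≠ j → m' ≠ j' → m ≠ m' →
      Disjoint (phi v s m j '' K' r) (phi v s m' j' '' K' r) := by
    intro m j m' j' hmj hmj' hmm
    rw [Set.disjoint_left]
    intro x hx hx'
    exact (hne m' j' hmj' x hx').2 m hmm (hne m j hmj x hx).1
  have hsub : ∀ m j : Fin 3, m ≠ j → phi v s m j '' K' r ⊆ cubeSurface ℓ ∩ closedBall v r := by
    rintro m j hmj _ ⟨w, hw, rfl⟩
    obtain ⟨k, hmk, hkj⟩ := exists_third hmj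
    have hw0 : 0 < w 0 := hw.1.2
    have hw1 : 0 < w 1 := hw.2
    have hwr : (w 0 - 0) ^ 2 + (w 1 - 0) ^ 2 ≤ r ^ 2 := by
      have := (mem_closedBall_iff_sq hr0).1 hw.1.1
      simpa using this
    have hw0r : w 0 ≤ r := by
      apply le_of_sq_le_sq _ hr0
      nlinarith [sq_nonneg (w 1)]
    have hw1r : w 1 ≤ r := by
      apply le_of_sq_le_sq _ hr0
      nlinarith [sq_nonneg (w 0)]
    refine ⟨⟨?_, m, ?_⟩, ?_⟩
    · intro n
      rcases fin3_cases hmj hmk hkj.symm n with rfl | rfl | rfl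
      · rw [phi_m]
        rcases hv n with h | h <;> rw [h]
        · exact ⟨le_refl _, hℓ.le⟩
        · exact ⟨hℓ.le, le_refl _⟩
      · rw [phi_j v s hmj]
        exact hs1 n _ hw0.le (hw0r.trans hr)
      · rw [phi_k v s hmk hkj.symm]
        exact hs1 n _ hw1.le (hw1r.trans hr)
    · rw [phi_m]
      exact hv m
    · rw [mem_closedBall]
      have h1 : s j ^ 2 = 1 := by rcases hs j with h | h <;> rw [h] <;> norm_num
      have h2 : s k ^ 2 = 1 := by rcases hs k with h | h <;> rw [h] <;> norm_num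
      apply le_of_sq_le_sq _ hr0
      rw [dist_sq_space hmj hmk hkj.symm, phi_m, phi_j v s hmj, phi_k v s hmk hkj.symm]
      have e : (v m - v m) ^ 2 + (v j + s j * w 0 - v j) ^ 2 + (v k + s k * w 1 - v k) ^ 2 =
          (w 0 - 0) ^ 2 + (w 1 - 0) ^ 2 := by
        linear_combination (w 0) ^ 2 * h1 + (w 1) ^ 2 * h2
      rw [e]
      exact hwr
  have e01 : (0 : Fin 3) ≠ 1 := by decide
  have e12 : (1 : Fin 3) ≠ 2 := by decide
  have e20 : (2 : Fin 3) ≠ 0 := by decide
  have h12 : μHE[2] (phi v s 1 2 '' K' r ∪ phi v s 2 0 '' K' r) =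
      volume (K' r) + volume (K' r) := by
    rw [measure_union (hdisj 1 2 2 0 e12 e20 e12) (hmeas 2 0 e20), hK 1 2 e12, hK 2 0 e20]
  have h012 : μHE[2] (phi v s 0 1 '' K' r ∪ (phi v s 1 2 '' K' r ∪ phi v s 2 0 '' K' r)) =
      volume (K' r) + (volume (K' r) + volume (K' r)) := by
    rw [measure_union _ ((hmeas 1 2 e12).union (hmeas 2 0 e20)), hK 0 1 e01, h12]
    rw [Set.disjoint_union_right]
    exact ⟨hdisj 0 1 1 2 e01 e12 e01, hdisj 0 1 2 0 e01 e20 e20.symm⟩
  have e3 : 3 * volume (K' r) = volume (K' r) + (volume (K' r) + volume (K' r)) := by ring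
  rw [e3, ← h012]
  apply measure_mono
  exact union_subset (hsub 0 1 e01) (union_subset (hsub 1 2 e12) (hsub 2 0 e20))

/-- At every point of the surface, small balls meet the surface in at most the area of a disc. -/
lemma area_le {ℓ : ℝ} (hℓ : 0 < ℓ) {q : Space} (hq : q ∈ cubeSurface ℓ) :
    ∃ δ : ℝ, 0 < δ ∧ ∀ r, 0 ≤ r → r < δ →
      μHE[2] (cubeSurface ℓ ∩ closedBall q r) ≤ D r := by
  by_cases hv : ∀ m, q m = 0 ∨ q m = ℓ
  · obtain ⟨δ, hδ, h⟩ := area_vertex_le hv
    refine ⟨δ, hδ, fun r hr0 hr => (h r hr0 hr).trans ?_⟩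
    rw [← four_K r]
    gcongr
    norm_num
  · push Not at hv
    obtain ⟨k, hk0, hkl⟩ := hv
    obtain ⟨δ, hδ, h⟩ := area_nonvertex hℓ hq hk0 hkl
    exact ⟨δ, hδ, fun r _ hr => h r hr⟩

end Pool.Agent.Lib.MP_a49afe_co
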