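import Pool.Agent.Lib.MP_a49afe_co.Local
import Pool.Agent.Lib.MP_a49afe_co.Basic

/-!
# Local structure of the surface of the cube
-/

open MeasureTheory Measure Metric Set
open scoped MeasureTheory ENNReal

namespace Pool.Agent.Lib.MP_a49afe_co

lemma dist_sq_plane (x y : Plane) : dist x y ^ 2 = (x 0 - y 0) ^ 2 + (x 1 - y 1) ^ 2 := by
  rw [EuclideanSpace.dist_eq, Real.sq_sqrt (by positivity), Fin.sum_univ_two]
  simp [Real.dist_eq, sq_abs]

lemma sum_three {i j k : Fin 3} (hij : i ≠ j) (hik : i ≠ k) (hjk : j ≠ k) (g : Fin 3 → ℝ) :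
    ∑ m, g m = g i + g j + g k := by
  have : (Finset.univ : Finset (Fin 3)) = {i, j, k} := by
    revert i j k; decide
  rw [this, Finset.sum_insert (by simp [hij, hik]), Finset.sum_insert (by simp [hjk]),
    Finset.sum_singleton]
  ring

lemma dist_sq_space {i j k : Fin 3} (hij : i ≠ j) (hik : i ≠ k) (hjk : j ≠ k) (x y : Space) :
    dist x y ^ 2 = (x i - y i) ^ 2 + (x j - y j) ^ 2 + (x k - y k) ^ 2 := by
  rw [EuclideanSpace.dist_eq, Real.sq_sqrt (by positivity), sum_three hij hik hjk]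
  simp [Real.dist_eq, sq_abs]

lemma fin3_cases {i j k : Fin 3} (hij : i ≠ j) (hik : i ≠ k) (hjk : j ≠ k) (m : Fin 3) :
    m = i ∨ m = j ∨ m = k := by
  revert i j k m; decide

lemma exists_third {i k : Fin 3} (hik : i ≠ k) : ∃ j : Fin 3, i ≠ j ∧ j ≠ k := by
  revert i k; decide

lemma exists_others (i : Fin 3) : ∃ j k : Fin 3, i ≠ j ∧ i ≠ k ∧ j ≠ k := by
  revert i; decide

lemma space_ext {i j k : Fin 3} (hij : i ≠ j) (hik : i ≠ k) (hjk : j ≠ k) {x y : Space}
    (hi : x i = y i) (hj : x j = y j) (hk : x k = y k) : x = y := by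
  ext m
  rcases fin3_cases hij hik hjk m with rfl | rfl | rfl <;> assumption

lemma dist_eq_of_sq {X Y : Type*} [PseudoMetricSpace X] [PseudoMetricSpace Y] {a b : X} {c d : Y}
    (h : dist a b ^ 2 = dist c d ^ 2) : dist a b = dist c d :=
  (sq_eq_sq₀ dist_nonneg dist_nonneg).1 h

lemma abs_coord_le_plane (x y : Plane) (i : Fin 2) : |x i - y i| ≤ dist x y := by
  have h := dist_sq_plane x y
  have : |x i - y i| ^ 2 ≤ dist x y ^ 2 := by
    rw [sq_abs, h]
    fin_cases i
    · simp only [Fin.zero_eta]; nlinarith [sq_nonneg (x 1 - y 1)]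
    · simp only [Fin.mk_one]; nlinarith [sq_nonneg (x 0 - y 0)]
  exact (sq_le_sq₀ (abs_nonneg _) dist_nonneg).1 this

lemma abs_coord_le_space (x y : Space) (i : Fin 3) : |x i - y i| ≤ dist x y := by
  obtain ⟨j, k, hij, hik, hjk⟩ := exists_others i
  have h := dist_sq_space hij hik hjk x y
  have : |x i - y i| ^ 2 ≤ dist x y ^ 2 := by
    rw [sq_abs, h]
    nlinarith [sq_nonneg (x j - y j), sq_nonneg (x k - y k)]
  exact (sq_le_sq₀ (abs_nonneg _) dist_nonneg).1 this

lemma isClosed_cubeSurface (ℓ : ℝ) : IsClosed (cubeSurface ℓ) := by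
  have h1 : cubeSurface ℓ = (⋂ i : Fin 3, {x : Space | 0 ≤ x i ∧ x i ≤ ℓ}) ∩
      ⋃ i : Fin 3, ({x : Space | x i = 0} ∪ {x : Space | x i = ℓ}) := by
    ext x
    simp [cubeSurface]
  rw [h1]
  have hc : ∀ i : Fin 3, Continuous (fun x : Space => x i) := fun i => by fun_prop
  apply IsClosed.inter
  · apply isClosed_iInter
    intro i
    exact (isClosed_le continuous_const (hc i)).inter (isClosed_le (hc i) continuous_const)
  · apply isClosed_iUnion_of_finite
    intro i
    exact (isClosed_eq (hc i) continuous_const).union (isClosed_eq (hc i) continuous_const)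

/-- The doubly periodic function on the plane. -/
noncomputable def H2 (ℓ : ℝ) (w : Plane) : ℝ :=
  Real.cos (2 * Real.pi * (w 0 / ℓ)) + Real.cos (2 * Real.pi * (w 1 / ℓ))

/-- The corresponding function on space. -/
noncomputable def H3 (ℓ : ℝ) (x : Space) : ℝ :=
  ∑ m : Fin 3, Real.cos (2 * Real.pi * (x m / ℓ)) - 1

/-- Near `q`, a point whose coordinate `m` is `0` or `ℓ` forces the same for `q`. -/
lemma exists_delta (ℓ : ℝ) (q : Space) : ∃ δ : ℝ, 0 < δ ∧ ∀ x : Space, dist x q < δ →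
    ∀ m : Fin 3, (x m = 0 → q m = 0) ∧ (x m = ℓ → q m = ℓ) := by
  have h : ∀ᶠ x in nhds q, ∀ m : Fin 3, (x m = 0 → q m = 0) ∧ (x m = ℓ → q m = ℓ) := by
    rw [Filter.eventually_all]
    intro m
    have hc : Continuous (fun x : Space => x m) := by fun_prop
    apply Filter.Eventually.and
    · by_cases h : q m = 0
      · exact Filter.Eventually.of_forall (fun x _ => h)
      · have : ∀ᶠ x in nhds q, x m ≠ 0 := hc.continuousAt.eventually_ne h
        filter_upwards [this] with x hx hx0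
        exact absurd hx0 hx
    · by_cases h : q m = ℓ
      · exact Filter.Eventually.of_forall (fun x _ => h)
      · have : ∀ᶠ x in nhds q, x m ≠ ℓ := hc.continuousAt.eventually_ne h
        filter_upwards [this] with x hx hx0
        exact absurd hx0 hx
  obtain ⟨δ, hδ, h⟩ := Metric.eventually_nhds_iff.1 h
  exact ⟨δ, hδ, fun x hx => h hx⟩

lemma cos_shift {ℓ : ℝ} (hℓ : 0 < ℓ) {σ β t : ℝ} (hσ : σ = 1 ∨ σ = -1) (hβ : β = 0 ∨ β = ℓ) :
    Real.cos (2 * Real.pi * (σ * (t - β) / ℓ)) = Real.cos (2 * Real.pi * (t / ℓ)) := by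
  have h1 : Real.cos (2 * Real.pi * ((t - β) / ℓ)) = Real.cos (2 * Real.pi * (t / ℓ)) := by
    rcases hβ with rfl | rfl
    · rw [sub_zero]
    · have : 2 * Real.pi * ((t - β) / β) = 2 * Real.pi * (t / β) - 2 * Real.pi := by
        field_simp
      rw [this, Real.cos_sub_two_pi]
  rcases hσ with rfl | rfl
  · rw [one_mul, h1]
  · have : 2 * Real.pi * (-1 * (t - β) / ℓ) = -(2 * Real.pi * ((t - β) / ℓ)) := by ring
    rw [this, Real.cos_neg, h1]

lemma cos_end {ℓ : ℝ} (hℓ : 0 < ℓ) {β : ℝ} (hβ : β = 0 ∨ β = ℓ) :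
    Real.cos (2 * Real.pi * (β / ℓ)) = 1 := by
  rcases hβ with rfl | rfl
  · simp
  · rw [div_self hℓ.ne', mul_one, Real.cos_two_pi]

/-- The unfolding of the surface near a point that is not a vertex. -/
lemma exists_unfold {ℓ : ℝ} (hℓ : 0 < ℓ) {q : Space} (hq : q ∈ cubeSurface ℓ) {k : Fin 3}
    (hk0 : q k ≠ 0) (hkl : q k ≠ ℓ) :
    ∃ (U : Space → Plane) (A B : Set Space) (δ : ℝ), IsClosed A ∧ IsClosed B ∧
      IsoOn U A ∧ IsoOn U B ∧ InjOn U (A ∪ B) ∧ 0 < δ ∧
      (∀ x ∈ cubeSurface ℓ, dist x q < δ → (x ∈ A ∧ q ∈ A) ∨ (x ∈ B ∧ q ∈ B)) ∧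
      ∀ x ∈ A ∪ B, H2 ℓ (U x) = H3 ℓ x := by
  obtain ⟨hbox, i, hi⟩ := hq
  have hik : i ≠ k := by
    rintro rfl
    rcases hi with h | h
    · exact hk0 h
    · exact hkl h
  obtain ⟨j, hij, hjk⟩ := exists_third hik
  -- the value on the face and the sign
  obtain ⟨α, hα, hqi⟩ : ∃ α : ℝ, (α = 0 ∨ α = ℓ) ∧ q i = α := ⟨q i, hi, rfl⟩
  obtain ⟨β, hβ, hqj⟩ : ∃ β : ℝ, (β = 0 ∨ β = ℓ) ∧ (q j = 0 ∨ q j = ℓ → q j = β) := by
    by_cases h : q j = ℓ
    · exact ⟨ℓ, Or.inr rfl, fun _ => h⟩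
    · refine ⟨0, Or.inl rfl, fun h' => ?_⟩
      rcases h' with h' | h'
      · exact h'
      · exact absurd h' h
  obtain ⟨σ, hσ, hσn⟩ : ∃ σ : ℝ, (σ = 1 ∨ σ = -1) ∧ ∀ t, 0 ≤ t → t ≤ ℓ → 0 ≤ σ * (t - α) := by
    rcases hα with rfl | rfl
    · exact ⟨1, Or.inl rfl, fun t h _ => by linarith⟩
    · exact ⟨-1, Or.inr rfl, fun t _ h => by linarith⟩
  obtain ⟨τ, hτ, hτn⟩ : ∃ τ : ℝ, (τ = 1 ∨ τ = -1) ∧ ∀ t, 0 ≤ t → t ≤ ℓ → 0 ≤ τ * (t - β) := by
    rcases hβ with rfl | rfl
    · exact ⟨1, Or.inl rfl, fun t h _ => by linarith⟩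
    · exact ⟨-1, Or.inr rfl, fun t _ h => by linarith⟩
  have hσ2 : σ ^ 2 = 1 := by rcases hσ with rfl | rfl <;> norm_num
  have hτ2 : τ ^ 2 = 1 := by rcases hτ with rfl | rfl <;> norm_num
  obtain ⟨δ, hδ, hδ'⟩ := exists_delta ℓ q
  have hc : ∀ i : Fin 3, Continuous (fun x : Space => x i) := fun i => by fun_prop
  let U : Space → Plane := fun x => !₂[σ * (x i - α) - τ * (x j - β), x k]
  have U0 : ∀ x, U x 0 = σ * (x i - α) - τ * (x j - β) := fun x => rfl
  have U1 : ∀ x, U x 1 = x k := fun x => rfl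
  refine ⟨U, cubeSurface ℓ ∩ {x | x i = α}, cubeSurface ℓ ∩ {x | x j = β}, δ, ?_, ?_, ?_, ?_, ?_,
    hδ, ?_, ?_⟩
  · exact (isClosed_cubeSurface ℓ).inter (isClosed_eq (hc i) continuous_const)
  · exact (isClosed_cubeSurface ℓ).inter (isClosed_eq (hc j) continuous_const)
  · intro x hx y hy
    have hxi : x i = α := hx.2
    have hyi : y i = α := hy.2
    apply dist_eq_of_sq
    rw [dist_sq_plane, dist_sq_space hij hik hjk, U0, U0, U1, U1, hxi, hyi]
    linear_combination (x j - y j) ^ 2 * hτ2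
  · intro x hx y hy
    have hxi : x j = β := hx.2
    have hyi : y j = β := hy.2
    apply dist_eq_of_sq
    rw [dist_sq_plane, dist_sq_space hij hik hjk, U0, U0, U1, U1, hxi, hyi]
    linear_combination (x i - y i) ^ 2 * hσ2
  · have hAB : ∀ x ∈ cubeSurface ℓ ∩ {x | x i = α}, ∀ y ∈ cubeSurface ℓ ∩ {x | x j = β},
        U x = U y → x = y := by
      intro x hx y hy hxy
      have hxi : x i = α := hx.2
      have hyj : y j = β := hy.2
      have e0 : U x 0 = U y 0 := by rw [hxy]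
      have e1 : U x 1 = U y 1 := by rw [hxy]
      rw [U0, U0, hxi, hyj, sub_self, sub_self, mul_zero, mul_zero, zero_sub, sub_zero] at e0
      rw [U1, U1] at e1
      have p1 := hτn (x j) (hx.1.1 j).1 (hx.1.1 j).2
      have p2 := hσn (y i) (hy.1.1 i).1 (hy.1.1 i).2
      have z1 : τ * (x j - β) = 0 := by linarith
      have z2 : σ * (y i - α) = 0 := by linarith
      have w1 : x j = β := by
        rcases hτ with rfl | rfl <;> linarith
      have w2 : y i = α := by
        rcases hσ with rfl | rfl <;> linarith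
      exact space_ext hij hik hjk (hxi.trans w2.symm) (w1.trans hyj.symm) e1
    have hA : IsoOn U (cubeSurface ℓ ∩ {x | x i = α}) := by
      intro x hx y hy
      have hxi : x i = α := hx.2
      have hyi : y i = α := hy.2
      apply dist_eq_of_sq
      rw [dist_sq_plane, dist_sq_space hij hik hjk, U0, U0, U1, U1, hxi, hyi]
      linear_combination (x j - y j) ^ 2 * hτ2
    have hB : IsoOn U (cubeSurface ℓ ∩ {x | x j = β}) := by
      intro x hx y hy
      have hxi : x j = β := hx.2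
      have hyi : y j = β := hy.2
      apply dist_eq_of_sq
      rw [dist_sq_plane, dist_sq_space hij hik hjk, U0, U0, U1, U1, hxi, hyi]
      linear_combination (x i - y i) ^ 2 * hσ2
    intro x hx y hy hxy
    rcases hx with hx | hx <;> rcases hy with hy | hy
    · exact hA.injOn hx hy hxy
    · exact hAB x hx y hy hxy
    · exact (hAB y hy x hx hxy.symm).symm
    · exact hB.injOn hx hy hxy
  · intro x hx hxq
    obtain ⟨m, hm⟩ := hx.2
    have hm' := hδ' x hxq m
    rcases fin3_cases hij hik hjk m with rfl | rfl | rfl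
    · left
      refine ⟨⟨hx, ?_⟩, ⟨⟨hbox, m, hi⟩, hqi⟩⟩
      rcases hm with h | h
      · rw [mem_ofPred_eq, h, ← hqi, hm'.1 h]
      · rw [mem_ofPred_eq, h, ← hqi, hm'.2 h]
    · right
      have hqm : q m = 0 ∨ q m = ℓ := by
        rcases hm with h | h
        · exact Or.inl (hm'.1 h)
        · exact Or.inr (hm'.2 h)
      refine ⟨⟨hx, ?_⟩, ⟨⟨hbox, i, hi⟩, hqj hqm⟩⟩
      rcases hm with h | h
      · rw [mem_ofPred_eq, h, ← hqj hqm, hm'.1 h]
      · rw [mem_ofPred_eq, h, ← hqj hqm, hm'.2 h]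
    · rcases hm with h | h
      · exact absurd (hm'.1 h) hk0
      · exact absurd (hm'.2 h) hkl
  · intro x hx
    rw [H2, H3, sum_three hij hik hjk, U0, U1]
    rcases hx with hx | hx
    · have hxi : x i = α := hx.2
      rw [hxi, sub_self, mul_zero, zero_sub, cos_end hℓ hα]
      have := cos_shift hℓ (t := x j) (σ := -τ) (by rcases hτ with rfl | rfl <;> simp) hβ
      rw [neg_mul] at this
      rw [this]
      ring
    · have hxj : x j = β := hx.2
      rw [hxj, sub_self, mul_zero, sub_zero, cos_end hℓ hβ]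
      have := cos_shift hℓ (t := x i) hσ hα
      rw [this]
      ring

end Pool.Agent.Lib.MP_a49afe_co
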